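import Pool.Agent.TH183.QT.Surj

set_option autoImplicit false

/-!
# Dimension count for two forms without common factor
-/

namespace Pool.Agent.TH183.QT

open MvPolynomial (monomial)

/-- The space of forms of degree `e`. -/
abbrev Lf (e : ℕ) : Submodule ℂ (MvPolynomial (Fin 3) ℂ) :=
  MvPolynomial.homogeneousSubmodule (Fin 3) ℂ e

theorem mem_Lf {e : ℕ} {f : MvPolynomial (Fin 3) ℂ} : f ∈ Lf e ↔ f.IsHomogeneous e :=
  MvPolynomial.mem_homogeneousSubmodule e f

/-- The linear map from coefficient vectors to forms. -/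
noncomputable def toForm (e : ℕ) : (exps e → ℂ) →ₗ[ℂ] MvPolynomial (Fin 3) ℂ where
  toFun v := ∑ m : exps e, monomial m.1 (v m)
  map_add' v w := by
    rw [← Finset.sum_add_distrib]
    refine Finset.sum_congr rfl fun m _ => ?_
    rw [Pi.add_apply, map_add]
  map_smul' a v := by
    rw [RingHom.id_apply, Finset.smul_sum]
    refine Finset.sum_congr rfl fun m _ => ?_
    rw [Pi.smul_apply, MvPolynomial.smul_monomial]

theorem toForm_coeff {e : ℕ} (v : exps e → ℂ) (m : exps e) :
    MvPolynomial.coeff m.1 (toForm e v) = v m := by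
  show MvPolynomial.coeff m.1 (∑ m : exps e, monomial m.1 (v m)) = _
  rw [MvPolynomial.coeff_sum, Finset.sum_eq_single m]
  · rw [MvPolynomial.coeff_monomial, if_pos rfl]
  · intro m' _ hm'
    rw [MvPolynomial.coeff_monomial, if_neg]
    exact fun h => hm' (Subtype.ext h)
  · intro h
    exact absurd (Finset.mem_univ m) h

theorem toForm_mem {e : ℕ} (v : exps e → ℂ) : toForm e v ∈ Lf e := by
  rw [mem_Lf]
  show (∑ m : exps e, monomial m.1 (v m)).IsHomogeneous e
  refine MvPolynomial.IsHomogeneous.sum _ _ _ fun m _ => ?_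
  exact MvPolynomial.isHomogeneous_monomial _ (mem_exps.1 m.2)

theorem toForm_inj (e : ℕ) : Function.Injective (toForm e) := by
  intro v w h
  ext m
  rw [← toForm_coeff v m, ← toForm_coeff w m, h]

theorem range_toForm (e : ℕ) : LinearMap.range (toForm e) = Lf e := by
  refine le_antisymm ?_ fun f hf => ?_
  · rintro _ ⟨v, rfl⟩
    exact toForm_mem v
  · refine ⟨fun m => MvPolynomial.coeff m.1 f, ?_⟩
    rw [← sub_eq_zero]
    have h1 : toForm e (fun m => MvPolynomial.coeff m.1 f) - f ∈ Lf e :=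
      Submodule.sub_mem _ (toForm_mem _) hf
    refine form_eq_zero (mem_Lf.1 h1) fun m => ?_
    rw [MvPolynomial.coeff_sub, toForm_coeff, sub_self]

instance finite_Lf (e : ℕ) : Module.Finite ℂ (Lf e) := by
  rw [← range_toForm]
  infer_instance

theorem card_exps (e : ℕ) : (exps e).card = (e + 2).choose 2 := by
  unfold exps
  rw [Finset.card_finsuppAntidiag_nat_eq_choose, Finset.card_univ, Fintype.card_fin]
  have h : 3 + e - 1 = e + 2 := by omega
  rw [h, ← Nat.choose_symm_add]

theorem finrank_Lf (e : ℕ) : Module.finrank ℂ (Lf e) = (e + 2).choose 2 := by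
  rw [← range_toForm, LinearMap.finrank_range_of_inj (toForm_inj e), Module.finrank_fintype_fun_eq_card,
    Fintype.card_coe, card_exps]

/-- Multiplication by a form. -/
noncomputable def mulF (F : MvPolynomial (Fin 3) ℂ) :
    MvPolynomial (Fin 3) ℂ →ₗ[ℂ] MvPolynomial (Fin 3) ℂ := LinearMap.mulLeft ℂ F

theorem mulF_apply (F f : MvPolynomial (Fin 3) ℂ) : mulF F f = F * f := rfl

theorem mulF_inj {F : MvPolynomial (Fin 3) ℂ} (hF : F ≠ 0) : Function.Injective (mulF F) := by
  intro f g h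
  exact mul_left_cancel₀ hF h

theorem finrank_map_mulF {F : MvPolynomial (Fin 3) ℂ} (hF : F ≠ 0) (e : ℕ) :
    Module.finrank ℂ ((Lf e).map (mulF F)) = (e + 2).choose 2 := by
  rw [← finrank_Lf]
  exact (LinearEquiv.finrank_eq (Submodule.equivMapOfInjective _ (mulF_inj hF) _)).symm

/-- The jet with exponents in `T`. -/
noncomputable def jet (c : ℕ → ℂ) (T : Finset (ℕ × ℕ)) :
    MvPolynomial (Fin 3) ℂ →ₗ[ℂ] (T → ℂ) where
  toFun f p := co c f p.1.1 p.1.2
  map_add' f g := by
    ext p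
    exact co_add c f g p.1.1 p.1.2
  map_smul' a f := by
    ext p
    exact co_smul c a f p.1.1 p.1.2

theorem jet_apply (c : ℕ → ℂ) (T : Finset (ℕ × ℕ)) (f : MvPolynomial (Fin 3) ℂ) (p : T) :
    jet c T f p = co c f p.1.1 p.1.2 := rfl

/-- The images of two nested finite dimensional subspaces. -/
theorem finrank_map_le_add {V W : Type*} [AddCommGroup V] [Module ℂ V] [AddCommGroup W]
    [Module ℂ W] (f : V →ₗ[ℂ] W) {R L : Submodule ℂ V} [Module.Finite ℂ L] (h : R ≤ L) :
    Module.finrank ℂ (L.map f) + Module.finrank ℂ R ≤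
      Module.finrank ℂ (R.map f) + Module.finrank ℂ L := by
  have hR : Module.Finite ℂ R := Submodule.finiteDimensional_of_le h
  have h1 := LinearMap.finrank_range_add_finrank_ker (f.domRestrict L)
  have h2 := LinearMap.finrank_range_add_finrank_ker (f.domRestrict R)
  rw [LinearMap.range_domRestrict] at h1 h2
  have h3 : Module.finrank ℂ (LinearMap.ker (f.domRestrict R)) ≤
      Module.finrank ℂ (LinearMap.ker (f.domRestrict L)) := by
    let g : LinearMap.ker (f.domRestrict R) →ₗ[ℂ] LinearMap.ker (f.domRestrict L) :=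
      ((Submodule.inclusion h).comp (Submodule.subtype _)).codRestrict _ (fun x => by
        rw [LinearMap.mem_ker]
        exact x.2)
    refine LinearMap.finrank_le_finrank_of_injective (f := g) ?_
    intro x y hxy
    have h4 : ((g x : L) : V) = ((g y : L) : V) := by rw [hxy]
    exact Subtype.ext (Subtype.ext h4)
  omega

/-- The jets of the multiples of `F` of degree `e + D`. -/
theorem finrank_jet_mulF {c : ℕ → ℂ} {t V W : ℝ} {F : MvPolynomial (Fin 3) ℂ}
    (hV : Vanish c t V F) {T U : Finset (ℕ × ℕ)}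
    (hT : ∀ i j : ℕ, (i, j) ∈ T → (i : ℝ) + t * j < V + W)
    (hU : ∀ i j : ℕ, (i : ℝ) + t * j < W → (i, j) ∈ U) (e : ℕ) :
    Module.finrank ℂ (((Lf e).map (mulF F)).map (jet c T)) ≤ U.card := by
  have h1 : LinearMap.ker ((jet c U).domRestrict (Lf e)) ≤
      LinearMap.ker (((jet c T).comp (mulF F)).domRestrict (Lf e)) := by
    intro x hx
    rw [LinearMap.mem_ker] at hx ⊢
    ext p
    show co c (F * x.1) p.1.1 p.1.2 = 0
    have h2 : Vanish c t W x.1 := by
      intro i j hij
      exact congrFun hx ⟨(i, j), hU i j hij⟩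
    exact (hV.mul h2) _ _ (hT _ _ p.2)
  have h2 := LinearMap.finrank_range_add_finrank_ker ((jet c U).domRestrict (Lf e))
  have h3 := LinearMap.finrank_range_add_finrank_ker
    (((jet c T).comp (mulF F)).domRestrict (Lf e))
  have h4 := Submodule.finrank_mono h1
  have h5 : Module.finrank ℂ (LinearMap.range ((jet c U).domRestrict (Lf e))) ≤ U.card := by
    refine (Submodule.finrank_le _).trans ?_
    rw [Module.finrank_fintype_fun_eq_card, Fintype.card_coe]
  rw [← Submodule.map_comp, ← LinearMap.range_domRestrict]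
  omega

theorem second_difference (D d m : ℕ) :
    (m + D + d + 2).choose 2 + (m + 2).choose 2 =
      (m + d + 2).choose 2 + (m + D + 2).choose 2 + D * d := by
  have h : ∀ n : ℕ, (n + 2).choose 2 * 2 = (n + 2) * (n + 1) := by
    intro n
    have := Nat.choose_two_right (n + 2)
    rw [this]
    have h2 : 2 ∣ (n + 2) * (n + 2 - 1) := by
      have := Nat.even_mul_pred_self (n + 2)
      exact this.two_dvd
    rw [Nat.div_mul_cancel h2]
    rfl
  have h1 := h (m + D + d)
  have h2 := h m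
  have h3 := h (m + d)
  have h4 := h (m + D)
  nlinarith

/-- **The dimension count.** -/
theorem card_le {c : ℕ → ℂ} {t V W : ℝ} (ht : 0 < t) {D d : ℕ} {F G : MvPolynomial (Fin 3) ℂ}
    (hF : F.IsHomogeneous D) (hG : G.IsHomogeneous d) (hF0 : F ≠ 0) (hG0 : G ≠ 0)
    (hrel : IsRelPrime F G) (hV : Vanish c t V F) (hW : Vanish c t W G)
    {T U1 U2 : Finset (ℕ × ℕ)} (hT : ∀ i j : ℕ, (i, j) ∈ T ↔ (i : ℝ) + t * j < V + W)
    (hU1 : ∀ i j : ℕ, (i, j) ∈ U1 ↔ (i : ℝ) + t * j < V)
    (hU2 : ∀ i j : ℕ, (i, j) ∈ U2 ↔ (i : ℝ) + t * j < W) :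
    T.card ≤ U1.card + U2.card + D * d := by
  classical
  obtain ⟨n, hn⟩ := exists_nat_ge (V + W)
  obtain ⟨m, hm⟩ : ∃ m : ℕ, ∀ p ∈ T, p.1 + (n + 1) * p.2 ≤ m := by
    refine ⟨T.sup fun p => p.1 + (n + 1) * p.2, fun p hp => ?_⟩
    exact Finset.le_sup (f := fun p : ℕ × ℕ => p.1 + (n + 1) * p.2) hp
  obtain ⟨e, he⟩ : ∃ e, e = m + D + d := ⟨_, rfl⟩
  -- surjectivity
  have hsurj : (Lf e).map (jet c T) = ⊤ := by
    rw [eq_top_iff]
    intro w _
    have h1 : ∀ p : T, ∃ A : MvPolynomial (Fin 3) ℂ, A.IsHomogeneous e ∧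
        ∀ i' j' : ℕ, (i' : ℝ) + t * j' < V + W →
          co c A i' j' = if i' = p.1.1 ∧ j' = p.1.2 then 1 else 0 := by
      intro p
      exact exists_jet c ht p.1.1 p.1.2 n e hn (by
        have := hm p.1 p.2
        omega)
    choose A hA hA' using h1
    refine ⟨∑ p : T, w p • A p, ?_, ?_⟩
    · refine Submodule.sum_mem _ fun p _ => Submodule.smul_mem _ _ (mem_Lf.2 (hA p))
    · rw [map_sum]
      ext q
      rw [Finset.sum_apply, Finset.sum_eq_single q]
      · rw [map_smul, Pi.smul_apply, jet_apply, hA' q _ _ ((hT _ _).1 q.2), if_pos ⟨rfl, rfl⟩,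
          smul_eq_mul, mul_one]
      · intro p _ hp
        rw [map_smul, Pi.smul_apply, jet_apply, hA' p _ _ ((hT _ _).1 q.2), if_neg, smul_zero]
        rintro ⟨h2, h3⟩
        exact hp (Subtype.ext (Prod.ext h2.symm h3.symm))
      · intro h
        exact absurd (Finset.mem_univ q) h
  -- the multiples
  obtain ⟨S1, hS1⟩ : ∃ S1, S1 = (Lf (m + d)).map (mulF F) := ⟨_, rfl⟩
  obtain ⟨S2, hS2⟩ : ∃ S2, S2 = (Lf (m + D)).map (mulF G) := ⟨_, rfl⟩
  have hS1e : S1 ≤ Lf e := by
    rw [hS1]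
    rintro _ ⟨a, ha, rfl⟩
    rw [mem_Lf, mulF_apply]
    have := hF.mul (mem_Lf.1 ha)
    have e1 : D + (m + d) = e := by omega
    rwa [e1] at this
  have hS2e : S2 ≤ Lf e := by
    rw [hS2]
    rintro _ ⟨a, ha, rfl⟩
    rw [mem_Lf, mulF_apply]
    have := hG.mul (mem_Lf.1 ha)
    have e1 : d + (m + D) = e := by omega
    rwa [e1] at this
  have hinf : S1 ⊓ S2 ≤ (Lf m).map (mulF (F * G)) := by
    intro h hh
    rw [hS1, hS2] at hh
    obtain ⟨⟨a, ha, hah⟩, ⟨b, hb, hbh⟩⟩ := hh
    rw [mulF_apply] at hah hbh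
    have h1 : G ∣ F * a := ⟨b, hah.trans hbh.symm⟩
    have h2 : G ∣ a := hrel.symm.dvd_of_dvd_mul_left h1
    obtain ⟨k, hk⟩ := h2
    by_cases ha0 : a = 0
    · refine ⟨0, Submodule.zero_mem _, ?_⟩
      rw [map_zero, ← hah, ha0, mul_zero]
    · have hk0 : k ≠ 0 := fun h0 => ha0 (by rw [hk, h0, mul_zero])
      have h3 := homog_of_dvd (mem_Lf.1 ha) ha0 (⟨G, by rw [hk, mul_comm]⟩ : k ∣ a)
      have h4 := (mem_Lf.1 ha).totalDegree ha0
      rw [hk, MvPolynomial.totalDegree_mul_of_isDomain hG0 hk0, hG.totalDegree hG0] at h4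
      refine ⟨k, ?_, ?_⟩
      · show k ∈ Lf m
        rw [mem_Lf]
        have e1 : k.totalDegree = m := by omega
        rwa [e1] at h3
      · rw [mulF_apply, ← hah, hk]
        ring
  have hfin : Module.Finite ℂ (Lf e) := finite_Lf e
  have hf1 : Module.Finite ℂ S1 := Submodule.finiteDimensional_of_le hS1e
  have hf2 : Module.Finite ℂ S2 := Submodule.finiteDimensional_of_le hS2e
  have hr1 : Module.finrank ℂ S1 = (m + d + 2).choose 2 := by
    rw [hS1, finrank_map_mulF hF0]
  have hr2 : Module.finrank ℂ S2 = (m + D + 2).choose 2 := by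
    rw [hS2, finrank_map_mulF hG0]
  have hr3 : Module.finrank ℂ (S1 ⊓ S2 : Submodule ℂ _) ≤ (m + 2).choose 2 := by
    have := Submodule.finrank_mono hinf
    rwa [finrank_map_mulF (mul_ne_zero hF0 hG0)] at this
  have hr4 := Submodule.finrank_sup_add_finrank_inf_eq S1 S2
  have hr5 : Module.finrank ℂ (Lf e) = (m + D + d + 2).choose 2 := by
    rw [finrank_Lf, he]
  -- the jets
  have hj := finrank_map_le_add (jet c T) (sup_le hS1e hS2e)
  rw [hsurj] at hj
  have hj1 : Module.finrank ℂ (⊤ : Submodule ℂ (T → ℂ)) = T.card := by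
    rw [finrank_top, Module.finrank_fintype_fun_eq_card, Fintype.card_coe]
  have hj2 : Module.finrank ℂ ((S1 ⊔ S2).map (jet c T)) ≤ U2.card + U1.card := by
    rw [Submodule.map_sup]
    refine (Submodule.finrank_add_le_finrank_add_finrank _ _).trans (add_le_add ?_ ?_)
    · rw [hS1]
      exact finrank_jet_mulF (W := W) hV (fun i j h => (hT i j).1 h) (fun i j h => (hU2 i j).2 h) _
    · rw [hS2]
      exact finrank_jet_mulF (W := V) hW (fun i j h => by
        have := (hT i j).1 h
        linarith) (fun i j h => (hU1 i j).2 h) _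
  have h2d := second_difference D d m
  omega

end Pool.Agent.TH183.QT
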