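import Pool.Agent.TH183.QT.Cover

set_option autoImplicit false

/-!
# The uniform bound for all real weights at least nine
-/

namespace Pool.Agent.TH183.QT

open Filter Topology

/-- A limit of weights with a bound on the value of one form along one germ. -/
theorem valLE_of_tendsto {c : ℕ → ℂ} {f : MvPolynomial (Fin 3) ℂ} {κ t : ℝ} (ht : 0 < t)
    (s : ℕ → ℝ) (hs : Tendsto s atTop (𝓝 t))
    (h1 : ∀ n, ValLE c (s n) f (κ * Real.sqrt (s n))) : ValLE c t f (κ * Real.sqrt t) := by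
  choose i j hij hle using h1
  have hsq : Tendsto (fun n => κ * Real.sqrt (s n)) atTop (𝓝 (κ * Real.sqrt t)) :=
    (Real.continuous_sqrt.continuousAt.tendsto.comp hs).const_mul κ
  have hev : ∀ᶠ n in atTop, t / 2 < s n ∧ κ * Real.sqrt (s n) < κ * Real.sqrt t + 1 := by
    refine (hs.eventually (lt_mem_nhds (by linarith))).and
      (hsq.eventually (gt_mem_nhds (by linarith)))
  obtain ⟨T, hT⟩ := exists_finset (t := t / 2) (by linarith) (κ * Real.sqrt t + 1)
  have hev2 : ∀ᶠ n in atTop, (i n, j n) ∈ T := by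
    filter_upwards [hev] with n hn
    rw [hT]
    have h2 := hle n
    have h3 : t / 2 * (j n : ℝ) ≤ s n * j n :=
      mul_le_mul_of_nonneg_right hn.1.le (Nat.cast_nonneg _)
    linarith [hn.2]
  obtain ⟨p, hp, hfreq⟩ : ∃ p ∈ T, ∃ᶠ n in atTop, (i n, j n) = p := by
    by_contra hcon
    push Not at hcon
    have h3 : ∀ᶠ n in atTop, ∀ p ∈ T, (i n, j n) ≠ p := (Finset.eventually_all T).2 hcon
    obtain ⟨n, hn1, hn2⟩ := (hev2.and h3).exists
    exact hn2 _ hn1 rfl
  have hne : PowerSeries.coeff p.1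
      ((MvPolynomial.aeval
        (![Polynomial.C PowerSeries.X,
           Polynomial.C (PowerSeries.X * PowerSeries.mk c) + Polynomial.X,
           1] : Fin 3 → Polynomial (PowerSeries ℂ)) f).coeff p.2) ≠ 0 := by
    obtain ⟨n, hn⟩ := hfreq.exists
    have h2 := hij n
    rw [Prod.ext_iff] at hn
    rw [← hn.1, ← hn.2]
    exact h2
  refine ⟨p.1, p.2, hne, ?_⟩
  by_contra hcon
  push Not at hcon
  have h4 : Tendsto (fun n => (p.1 : ℝ) + s n * p.2 - κ * Real.sqrt (s n)) atTop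
      (𝓝 ((p.1 : ℝ) + t * p.2 - κ * Real.sqrt t)) :=
    ((hs.mul_const _).const_add _).sub hsq
  have h5 : ∀ᶠ n in atTop, 0 < (p.1 : ℝ) + s n * p.2 - κ * Real.sqrt (s n) :=
    h4.eventually (lt_mem_nhds (by linarith))
  obtain ⟨n, hn1, hn2⟩ := (hfreq.and_eventually h5).exists
  have h6 := hle n
  have e1 : i n = p.1 := congrArg Prod.fst hn1
  have e2 : j n = p.2 := congrArg Prod.snd hn1
  rw [e1, e2] at h6
  linarith

/-- One very general germ for all real weights at least `a`. -/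
theorem one_germ {κ a : ℝ} (ha : 0 ≤ a) (h : ∀ t : ℝ, a < t → NearMinimal κ t) :
    ∃ S : ℕ → MvPolynomial ℕ ℂ, (∀ k, S k ≠ 0) ∧
      ∀ c : ℕ → ℂ, (∀ k, MvPolynomial.eval c (S k) ≠ 0) →
        ∀ t : ℝ, a ≤ t → 0 < t → ∀ d : ℕ, ∀ f : MvPolynomial (Fin 3) ℂ, f.IsHomogeneous d → f ≠ 0 →
          ValLE c t f (κ * ((d : ℝ) * Real.sqrt t)) := by
  classical
  have h' : ∀ q : ℚ, ∃ S : ℕ → MvPolynomial ℕ ℂ, (∀ k, S k ≠ 0) ∧
      (a < (q : ℝ) → ∀ c : ℕ → ℂ, (∀ k, MvPolynomial.eval c (S k) ≠ 0) →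
        ∀ d : ℕ, ∀ f : MvPolynomial (Fin 3) ℂ, f.IsHomogeneous d → f ≠ 0 →
          ValLE c q f (κ * ((d : ℝ) * Real.sqrt q))) := by
    intro q
    by_cases hq : a < (q : ℝ)
    · obtain ⟨S, hS, hS'⟩ := h q hq
      exact ⟨S, hS, fun _ => hS'⟩
    · exact ⟨fun _ => 1, fun _ => one_ne_zero, fun h => absurd h hq⟩
  choose S hS hS' using h'
  obtain ⟨e, he⟩ := exists_surjective_nat (ℚ × ℕ)
  refine ⟨fun k => S (e k).1 (e k).2, fun k => hS _ _, fun c hc t ht ht0 d f hf hf0 => ?_⟩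
  have hc' : ∀ (q : ℚ) (k : ℕ), MvPolynomial.eval c (S q k) ≠ 0 := by
    intro q k
    obtain ⟨n, hn⟩ := he (q, k)
    have := hc n
    simp only [hn] at this
    exact this
  have hr : ∀ n : ℕ, ∃ q : ℚ, t < (q : ℝ) ∧ (q : ℝ) < t + 1 / ((n : ℝ) + 1) := fun n =>
    exists_rat_btwn (by
      have : (0 : ℝ) < 1 / ((n : ℝ) + 1) := by positivity
      linarith)
  choose q hq1 hq2 using hr
  have hlim : Tendsto (fun n => (q n : ℝ)) atTop (𝓝 t) := by
    refine tendsto_of_tendsto_of_tendsto_of_le_of_le (tendsto_const_nhds (x := t)) ?_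
      (fun n => (hq1 n).le) (fun n => (hq2 n).le)
    have := (tendsto_one_div_add_atTop_nhds_zero_nat (𝕜 := ℝ)).const_add t
    rwa [add_zero] at this
  have h2 := valLE_of_tendsto (κ := κ * d) (c := c) (f := f) ht0 (fun n => (q n : ℝ)) hlim
    (fun n => by
      have := hS' (q n) (lt_of_le_of_lt ht (hq1 n)) c (hc' (q n)) d f hf hf0
      rwa [← mul_assoc] at this)
  rwa [mul_assoc] at h2

theorem nm_sq {p q : ℕ} {t : ℝ} (h : NearMinimal 1 t) (ht : t = ((p : ℝ) / q) ^ 2) :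
    NearMinimal 1 (((p : ℝ) / q) ^ 2) := by
  rwa [← ht]

/-- One germ with all the bounds of the seeds. -/
theorem exists_seed_germ : ∃ c : ℕ → ℂ, ∀ y ∈ seeds, Con c y := by
  obtain ⟨S1, hS1, h1⟩ := con_of_nearMinimal (p := 3) (q := 1) (by norm_num) (by norm_num)
    (nm_sq nm_9 (by norm_num))
  obtain ⟨S2, hS2, h2⟩ := con_of_nearMinimal (p := 315) (q := 104) (by norm_num) (by norm_num)
    (nm_sq nm_315_104 (by norm_num))
  obtain ⟨S3, hS3, h3⟩ := con_of_nearMinimal (p := 40) (q := 13) (by norm_num) (by norm_num)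
    (nm_sq nm_40_13 (by norm_num))
  obtain ⟨S4, hS4, h4⟩ := con_of_nearMinimal (p := 63) (q := 20) (by norm_num) (by norm_num)
    (nm_sq nm_63_20 (by norm_num))
  obtain ⟨S5, hS5, h5⟩ := con_of_nearMinimal (p := 200) (q := 63) (by norm_num) (by norm_num)
    (nm_sq nm_200_63 (by norm_num))
  obtain ⟨c, hc⟩ := exists_common (fun k => S1 k * S2 k * S3 k * S4 k * S5 k) fun k =>
    mul_ne_zero (mul_ne_zero (mul_ne_zero (mul_ne_zero (hS1 k) (hS2 k)) (hS3 k)) (hS4 k)) (hS5 k)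
  refine ⟨c, fun y hy => ?_⟩
  have hc' : ∀ k, (MvPolynomial.eval c (S1 k) ≠ 0 ∧ MvPolynomial.eval c (S2 k) ≠ 0) ∧
      MvPolynomial.eval c (S3 k) ≠ 0 ∧ MvPolynomial.eval c (S4 k) ≠ 0 ∧
        MvPolynomial.eval c (S5 k) ≠ 0 := by
    intro k
    have := hc k
    simp only [map_mul, mul_ne_zero_iff] at this
    tauto
  unfold seeds at hy
  simp only [List.mem_cons, List.not_mem_nil, or_false] at hy
  rcases hy with rfl | rfl | rfl | rfl | rfl
  · exact h1 c fun k => (hc' k).1.1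
  · exact h2 c fun k => (hc' k).1.2
  · exact h3 c fun k => (hc' k).2.1
  · exact h4 c fun k => (hc' k).2.2.1
  · exact h5 c fun k => (hc' k).2.2.2

theorem mem_cover {y : Bd} (hy : y ∈ (⟨3, 1, 1, 1⟩ :: cover : List Bd)) :
    y ∈ seeds ∨ y ∈ steps.map Prod.fst := by
  unfold cover at hy
  unfold seeds steps
  simp only [List.mem_cons, List.not_mem_nil, or_false, List.map_cons, List.map_nil] at hy ⊢
  rcases hy with rfl | rfl | rfl | rfl | rfl | rfl | rfl | rfl | rfl | rfl | rfl | rfl | rfl |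
    rfl | rfl | rfl | rfl | rfl <;> simp

/-- The bound for one germ on `[9, 10]`. -/
theorem bound_nine_ten {t : ℝ} (h1 : 9 ≤ t) (h2 : t ≤ 10) {c : ℕ → ℂ}
    (hc : ∀ y ∈ seeds, Con c y) (d : ℕ) (f : MvPolynomial (Fin 3) ℂ) (hf : f.IsHomogeneous d)
    (hf0 : f ≠ 0) : ValLE c t f (10067 / 10000 * (d * Real.sqrt t)) := by
  have hrun := run_spec (c := c) steps seeds hc run_ok
  obtain ⟨s, hs⟩ : ∃ s, s = Real.sqrt t := ⟨_, rfl⟩
  have hs2 : s ^ 2 = t := by
    rw [hs, Real.sq_sqrt (by linarith)]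
  have hs3 : 3 ≤ s := by
    rw [hs]
    exact Real.le_sqrt_of_sq_le (by linarith)
  have hs4 : s ≤ 31623 / 10000 := by
    rw [hs]
    exact Real.sqrt_le_iff.2 ⟨by norm_num, by linarith⟩
  obtain ⟨z, hz, hzp, hz1, hz2⟩ := cov_spec (K := 10067) (L := 10000) (by norm_num) (by norm_num)
    cover ⟨3, 1, 1, 1⟩ rfl cover_ok s (by
      push_cast
      linarith) (fun z hz => by
      have e : (⟨3, 1, 1, 1⟩ :: cover : List Bd).getLast? = some ⟨63, 20, 1, 1⟩ := rfl
      rw [e, Option.some_inj] at hz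
      subst hz
      push_cast
      linarith)
  have hcon : Con c z := by
    rcases mem_cover hz with h | h
    · exact hc z h
    · exact hrun z h
  have := hcon.near hzp (κ := 10067 / 10000) (s := s) (by linarith) (by push_cast at hz1; exact hz1)
    (by push_cast at hz2; exact hz2) d f hf hf0
  rwa [hs2, hs] at this

/-- **The uniform bound.** -/
theorem uniform (t : ℝ) (ht : 9 ≤ t) : NearMinimal (10067 / 10000) t := by
  obtain ⟨c, hc⟩ := exists_seed_germ
  rw [nearMinimal_iff (by linarith)]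
  intro d
  refine nine_ten (κ := 10067 / 10000 * d) (fun s h1 h2 => ?_) t ht
  refine degLE_of_germ (by linarith) c fun f hf hf0 => ?_
  have := bound_nine_ten h1 h2 hc d f hf hf0
  rwa [← mul_assoc] at this

end Pool.Agent.TH183.QT
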