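import Mathlib

set_option autoImplicit false

/-!
# Bounds for quasimonomial valuations along general and very general germs
-/

namespace Pool.Agent.TH183.QT

/-- `v_{ξ, t}(f) ≤ B`, where `ξ(x) = x * ∑ c_k x ^ k`: some monomial `x ^ i * Y ^ j` with
`i + t * j ≤ B` occurs in the expansion of `f(x, ξ(x) + Y, 1)`. -/
def ValLE (c : ℕ → ℂ) (t : ℝ) (f : MvPolynomial (Fin 3) ℂ) (B : ℝ) : Prop :=
  ∃ i j : ℕ,
    PowerSeries.coeff i
      ((MvPolynomial.aeval
        (![Polynomial.C PowerSeries.X,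
           Polynomial.C (PowerSeries.X * PowerSeries.mk c) + Polynomial.X,
           1] : Fin 3 → Polynomial (PowerSeries ℂ)) f).coeff j) ≠ 0 ∧
    (i : ℝ) + t * (j : ℝ) ≤ B

/-- `v_{ξ, t}(f) ≤ B` for all nonzero forms `f` of degree `d`, for a general germ `ξ`, that is, for
all germs whose coefficients avoid one hypersurface. -/
def DegLE (d : ℕ) (t B : ℝ) : Prop :=
  ∃ P : MvPolynomial ℕ ℂ, P ≠ 0 ∧ ∀ c : ℕ → ℂ, MvPolynomial.eval c P ≠ 0 →
    ∀ f : MvPolynomial (Fin 3) ℂ, f.IsHomogeneous d → f ≠ 0 → ValLE c t f B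

/-- `v_{ξ, t}(f) ≤ κ √t d` for all nonzero forms `f` of degree `d`, for all `d`, for a very general
germ `ξ`, that is, for all germs whose coefficients avoid countably many hypersurfaces. For `κ = 1`
this is the condition on `t` in the problem. -/
def NearMinimal (κ t : ℝ) : Prop :=
  ∃ S : ℕ → MvPolynomial ℕ ℂ, (∀ k, S k ≠ 0) ∧
    ∀ c : ℕ → ℂ, (∀ k, MvPolynomial.eval c (S k) ≠ 0) →
      ∀ d : ℕ, ∀ f : MvPolynomial (Fin 3) ℂ, f.IsHomogeneous d → f ≠ 0 →
        ValLE c t f (κ * ((d : ℝ) * Real.sqrt t))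

end Pool.Agent.TH183.QT
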