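import Pool.Agent.TH183.QT.Dim
import Pool.Agent.TH183.QT.Defs

set_option autoImplicit false

/-!
# The lower bound for the values, by counting monomials
-/

namespace Pool.Agent.TH183.QT

/-- the coefficient of `x ^ i Y ^ j` in the expansion along the germ, as a linear map -/
noncomputable def cfL (c : ℕ → ℂ) (p : ℕ × ℕ) : MvPolynomial (Fin 3) ℂ →ₗ[ℂ] ℂ :=
  (PowerSeries.coeff p.1 : PowerSeries ℂ →ₗ[ℂ] ℂ) ∘ₗ
    ((Polynomial.lcoeff (PowerSeries ℂ) p.2).restrictScalars ℂ) ∘ₗ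
      (MvPolynomial.aeval
        (![Polynomial.C PowerSeries.X,
           Polynomial.C (PowerSeries.X * PowerSeries.mk c) + Polynomial.X,
           1] : Fin 3 → Polynomial (PowerSeries ℂ)) :
        MvPolynomial (Fin 3) ℂ →ₐ[ℂ] Polynomial (PowerSeries ℂ)).toLinearMap

theorem exists_high (c : ℕ → ℂ) {t B : ℝ} {d : ℕ} (T : Finset (ℕ × ℕ))
    (hT : ∀ i j : ℕ, (i : ℝ) + t * j ≤ B → (i, j) ∈ T) (hcard : T.card < (d + 2).choose 2) :
    ∃ f : MvPolynomial (Fin 3) ℂ, f.IsHomogeneous d ∧ f ≠ 0 ∧ ¬ ValLE c t f B := by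
  obtain ⟨L, hL⟩ : ∃ L : Lf d →ₗ[ℂ] (T → ℂ),
      L = (LinearMap.pi fun p : T => cfL c p.1) ∘ₗ (Lf d).subtype := ⟨_, rfl⟩
  have h1 : Module.finrank ℂ (T → ℂ) < Module.finrank ℂ (Lf d) := by
    rw [Module.finrank_fintype_fun_eq_card, Fintype.card_coe, finrank_Lf]
    exact hcard
  have h2 := LinearMap.ker_ne_bot_of_finrank_lt (f := L) h1
  obtain ⟨f, hf, hf0⟩ := (Submodule.ne_bot_iff _).1 h2
  refine ⟨f.1, mem_Lf.1 f.2, fun h => hf0 (Subtype.ext h), ?_⟩
  rintro ⟨i, j, hij, hle⟩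
  apply hij
  have h3 : L f ⟨(i, j), hT i j hle⟩ = 0 := by
    rw [LinearMap.mem_ker] at hf
    rw [hf]
    rfl
  rw [hL] at h3
  exact h3

/-- the number of monomials of value at most `B` -/
theorem exists_count {t B : ℝ} (ht : 1 ≤ t) (hB : 0 ≤ B) :
    ∃ T : Finset (ℕ × ℕ), (∀ i j : ℕ, (i : ℝ) + t * j ≤ B → (i, j) ∈ T) ∧
      (T.card : ℝ) ≤ B ^ 2 / (2 * t) + (1 + t) * B / t + 1 + t / 2 := by
  classical
  have ht0 : 0 < t := by linarith
  obtain ⟨J, hJ⟩ : ∃ J : ℕ, J = ⌊B / t⌋₊ := ⟨_, rfl⟩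
  have hJ1 : (J : ℝ) ≤ B / t := by rw [hJ]; exact Nat.floor_le (by positivity)
  have hJ2 : B / t < J + 1 := by rw [hJ]; exact Nat.lt_floor_add_one _
  rw [le_div_iff₀ ht0] at hJ1
  rw [div_lt_iff₀ ht0] at hJ2
  refine ⟨(Finset.range (J + 1)).biUnion fun j =>
    (Finset.range (⌊B - t * j⌋₊ + 1)).map ⟨fun i => (i, j), fun a b h => (Prod.ext_iff.1 h).1⟩, ?_, ?_⟩
  · intro i j h
    rw [Finset.mem_biUnion]
    have hi0 : (0 : ℝ) ≤ i := Nat.cast_nonneg i
    refine ⟨j, ?_, ?_⟩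
    · rw [Finset.mem_range]
      have h1 : t * (j : ℝ) < t * ((J + 1 : ℕ) : ℝ) := by
        push_cast
        linarith
      have h2 := lt_of_mul_lt_mul_left h1 ht0.le
      exact_mod_cast h2
    · rw [Finset.mem_map]
      refine ⟨i, ?_, rfl⟩
      rw [Finset.mem_range]
      have : i ≤ ⌊B - t * j⌋₊ := Nat.le_floor (by linarith)
      omega
  · have h1 : ((((Finset.range (J + 1)).biUnion fun j =>
        (Finset.range (⌊B - t * j⌋₊ + 1)).map
          ⟨fun i => ((i, j) : ℕ × ℕ), fun a b h => (Prod.ext_iff.1 h).1⟩).card : ℕ) : ℝ) ≤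
        ∑ j ∈ Finset.range (J + 1), (B - t * j + 1) := by
      have h2 := Finset.card_biUnion_le (s := Finset.range (J + 1)) (t := fun j =>
        (Finset.range (⌊B - t * j⌋₊ + 1)).map
          ⟨fun i => ((i, j) : ℕ × ℕ), fun a b h => (Prod.ext_iff.1 h).1⟩)
      have h3 : ((((Finset.range (J + 1)).biUnion fun j =>
        (Finset.range (⌊B - t * j⌋₊ + 1)).map
          ⟨fun i => ((i, j) : ℕ × ℕ), fun a b h => (Prod.ext_iff.1 h).1⟩).card : ℕ) : ℝ) ≤
          ((∑ j ∈ Finset.range (J + 1), ((Finset.range (⌊B - t * j⌋₊ + 1)).map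
          ⟨fun i => ((i, j) : ℕ × ℕ), fun a b h => (Prod.ext_iff.1 h).1⟩).card : ℕ) : ℝ) := by
        exact_mod_cast h2
      refine h3.trans ?_
      push_cast
      refine Finset.sum_le_sum fun j hj => ?_
      rw [Finset.card_map, Finset.card_range]
      rw [Finset.mem_range] at hj
      have h4 : (j : ℝ) ≤ J := by exact_mod_cast (by omega : j ≤ J)
      have h5 : 0 ≤ B - t * j := by
        have := mul_le_mul_of_nonneg_left h4 ht0.le
        linarith
      have h6 := Nat.floor_le h5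
      push_cast
      linarith
    refine h1.trans ?_
    have h2 : ∀ n : ℕ, ∑ j ∈ Finset.range n, (B - t * j + 1) = n * (B + 1) - t * (n * (n - 1) / 2) := by
      intro n
      induction n with
      | zero => simp
      | succ n ih =>
        rw [Finset.sum_range_succ, ih]
        push_cast
        ring
    rw [h2]
    push_cast
    obtain ⟨δ, hδ⟩ : ∃ δ : ℝ, δ = B / t - J := ⟨_, rfl⟩
    have hBt : B = t * (J + δ) := by
      rw [hδ]; field_simp; ring
    have hδ0 : 0 ≤ δ := by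
      rw [hδ, sub_nonneg, le_div_iff₀ ht0]; exact hJ1
    have hδ1 : δ ≤ 1 := by
      rw [hδ]
      have : B / t < J + 1 := by rw [div_lt_iff₀ ht0]; exact hJ2
      linarith
    have hJ0 : (0 : ℝ) ≤ J := Nat.cast_nonneg J
    have e1 : B ^ 2 / (2 * t) + (1 + t) * B / t + 1 + t / 2 =
        t * (J + δ) ^ 2 / 2 + (1 + t) * (J + δ) + 1 + t / 2 := by
      rw [hBt]; field_simp
    rw [e1, hBt]
    have h3 : 0 ≤ t * ((J : ℝ) * (1 - δ)) := by
      have : 0 ≤ (J : ℝ) * (1 - δ) := mul_nonneg hJ0 (by linarith)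
      positivity
    nlinarith [mul_nonneg hδ0 hJ0, mul_nonneg ht0.le hδ0, mul_nonneg ht0.le hJ0,
      mul_nonneg ht0.le (mul_nonneg hδ0 hJ0), mul_nonneg ht0.le (sq_nonneg (1 - δ)),
      mul_nonneg ht0.le (mul_nonneg hδ0 hδ0), h3]

/-- **the lower bound**: along every germ there are forms of value larger than `(√t - ε) d` -/
theorem lower_bound (c : ℕ → ℂ) {t ε : ℝ} (ht : 1 ≤ t) (hε : 0 < ε) :
    ∃ D : ℕ, ∀ d : ℕ, D ≤ d → ∃ f : MvPolynomial (Fin 3) ℂ, f.IsHomogeneous d ∧ f ≠ 0 ∧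
      ¬ ValLE c t f ((Real.sqrt t - ε) * d) := by
  obtain ⟨s, hs⟩ : ∃ s, s = Real.sqrt t := ⟨_, rfl⟩
  have ht0 : 0 < t := by linarith
  have hss : s * s = t := by rw [hs]; exact Real.mul_self_sqrt ht0.le
  have hs1 : 1 ≤ s := by rw [hs]; exact Real.le_sqrt_of_sq_le (by linarith)
  rw [← hs]
  -- make `ε` at most `s`
  obtain ⟨η, hη⟩ : ∃ η, η = min ε s := ⟨_, rfl⟩
  have hη0 : 0 < η := by rw [hη]; exact lt_min hε (by linarith)
  have hηε : η ≤ ε := by rw [hη]; exact min_le_left _ _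
  have hηs : η ≤ s := by rw [hη]; exact min_le_right _ _
  obtain ⟨D, hD⟩ := exists_nat_gt ((2 * t * (2 * (1 + t) + 1 + t / 2)) / (s * η) + 1)
  refine ⟨D, fun d hd => ?_⟩
  have hdR : (2 * t * (2 * (1 + t) + 1 + t / 2)) / (s * η) + 1 < d :=
    hD.trans_le (by exact_mod_cast hd)
  have hsη : 0 < s * η := mul_pos (by linarith) hη0
  have hd1 : (1 : ℝ) ≤ d := by
    have : 0 ≤ (2 * t * (2 * (1 + t) + 1 + t / 2)) / (s * η) := by positivity
    linarith
  obtain ⟨B, hB⟩ : ∃ B, B = (s - η) * d := ⟨_, rfl⟩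
  have hB0 : 0 ≤ B := by rw [hB]; exact mul_nonneg (by linarith) (by linarith)
  obtain ⟨T, hT, hTc⟩ := exists_count (B := B) ht hB0
  have hcard : T.card < (d + 2).choose 2 := by
    have h1 : ((d + 2).choose 2 : ℝ) = (d + 2) * (d + 1) / 2 := by
      have h5 : (d + 2).choose 2 * 2 = (d + 2) * (d + 1) := by
        rw [Nat.choose_two_right, Nat.div_mul_cancel (Nat.even_mul_pred_self _).two_dvd]
        rfl
      have h6 : (((d + 2).choose 2 * 2 : ℕ) : ℝ) = (((d + 2) * (d + 1) : ℕ) : ℝ) := by rw [h5]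
      push_cast at h6
      linarith
    have h2 : (T.card : ℝ) < ((d + 2).choose 2 : ℝ) := by
      refine hTc.trans_lt ?_
      rw [h1]
      -- multiply by `2 t`
      have h3 : (2 * t * (2 * (1 + t) + 1 + t / 2)) < s * η * d := by
        have := (div_lt_iff₀ hsη).1 (show (2 * t * (2 * (1 + t) + 1 + t / 2)) / (s * η) < d by linarith)
        linarith
      have hBd : B ≤ s * d := by
        rw [hB]; exact mul_le_mul_of_nonneg_right (by linarith) (by linarith)
      have h4 : B ^ 2 ≤ (s * d) ^ 2 - s * η * d ^ 2 := by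
        rw [hB]
        have e : ((s - η) * d) ^ 2 = (s * d) ^ 2 - s * η * d ^ 2 - η * (s - η) * d ^ 2 := by ring
        rw [e]
        have : 0 ≤ η * (s - η) * (d : ℝ) ^ 2 := by
          have : 0 ≤ s - η := by linarith
          positivity
        linarith
      have e5 : B ^ 2 / (2 * t) + (1 + t) * B / t + 1 + t / 2 =
          (B ^ 2 + 2 * (1 + t) * B + 2 * t * (1 + t / 2)) / (2 * t) := by
        field_simp
        ring
      rw [e5, div_lt_iff₀ (by positivity)]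
      have h6 : s * η * (d : ℝ) ^ 2 ≥ (2 * t * (2 * (1 + t) + 1 + t / 2)) * d := by
        have := mul_le_mul_of_nonneg_right h3.le (show (0 : ℝ) ≤ d by linarith)
        nlinarith
      have h7 : 2 * (1 + t) * B ≤ 2 * (1 + t) * (s * d) :=
        mul_le_mul_of_nonneg_left hBd (by linarith)
      have hst : s ≤ t := by rw [← hss]; nlinarith
      have h8 : 2 * (1 + t) * (s * (d : ℝ)) ≤ 2 * (1 + t) * (t * d) := by
        have : s * (d : ℝ) ≤ t * d := mul_le_mul_of_nonneg_right hst (by linarith)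
        exact mul_le_mul_of_nonneg_left this (by linarith)
      have e9 : (s * (d : ℝ)) ^ 2 = t * d ^ 2 := by rw [mul_pow, sq s, hss]
      rw [e9] at h4
      have h10 : 2 * t * (1 + t / 2) ≤ 2 * t * (1 + t / 2) * d := by
        have : 0 ≤ 2 * t * (1 + t / 2) := by positivity
        nlinarith
      have h11 : 0 < t * d := by positivity
      nlinarith
    exact_mod_cast h2
  obtain ⟨f, hf, hf0, hfv⟩ := exists_high c T hT hcard
  refine ⟨f, hf, hf0, fun h => hfv ?_⟩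
  obtain ⟨i, j, hij, hle⟩ := h
  refine ⟨i, j, hij, hle.trans ?_⟩
  rw [hB]
  exact mul_le_mul_of_nonneg_right (by linarith) (by linarith)

end Pool.Agent.TH183.QT
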