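import Pool.Agent.TH183.QT.Transfer

set_option autoImplicit false

/-!
# Closedness in the weight
-/

namespace Pool.Agent.TH183.QT

open Filter Topology

/-- A limit of weights with a bound on the values is a weight with the same bound. -/
theorem degLE_of_tendsto {d : ℕ} {κ t : ℝ} (ht : 0 < t) (s : ℕ → ℝ)
    (hs : Tendsto s atTop (𝓝 t)) (h : ∀ n, DegLE d (s n) (κ * Real.sqrt (s n))) :
    DegLE d t (κ * Real.sqrt t) := by
  choose P hP hP' using h
  obtain ⟨c, hc⟩ := exists_common P hP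
  refine degLE_of_germ ht c fun f hf hf0 => ?_
  have h1 : ∀ n, ValLE c (s n) f (κ * Real.sqrt (s n)) := fun n => hP' n c (hc n) f hf hf0
  choose i j hij hle using h1
  have hsq : Tendsto (fun n => κ * Real.sqrt (s n)) atTop (𝓝 (κ * Real.sqrt t)) :=
    (Real.continuous_sqrt.continuousAt.tendsto.comp hs).const_mul κ
  have hev : ∀ᶠ n in atTop, t / 2 < s n ∧ κ * Real.sqrt (s n) < κ * Real.sqrt t + 1 := by
    refine (hs.eventually (lt_mem_nhds (by linarith))).and
      (hsq.eventually (gt_mem_nhds (by linarith)))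
  obtain ⟨T, hT⟩ := exists_finset (t := t / 2) (by linarith) (κ * Real.sqrt t + 1)
  have hev2 : ∀ᶠ n in atTop, (i n, j n) ∈ T := by
    filter_upwards [hev] with n hn
    rw [hT]
    have h2 := hle n
    have h3 : t / 2 * (j n : ℝ) ≤ s n * j n :=
      mul_le_mul_of_nonneg_right hn.1.le (Nat.cast_nonneg _)
    linarith [hn.2]
  obtain ⟨p, hp, hfreq⟩ : ∃ p ∈ T, ∃ᶠ n in atTop, (i n, j n) = p := by
    by_contra hcon
    push Not at hcon
    have h3 : ∀ᶠ n in atTop, ∀ p ∈ T, (i n, j n) ≠ p := (Finset.eventually_all T).2 hcon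
    obtain ⟨n, hn1, hn2⟩ := (hev2.and h3).exists
    exact hn2 _ hn1 rfl
  have hne : PowerSeries.coeff p.1
      ((MvPolynomial.aeval
        (![Polynomial.C PowerSeries.X,
           Polynomial.C (PowerSeries.X * PowerSeries.mk c) + Polynomial.X,
           1] : Fin 3 → Polynomial (PowerSeries ℂ)) f).coeff p.2) ≠ 0 := by
    obtain ⟨n, hn⟩ := hfreq.exists
    have h2 := hij n
    rw [Prod.ext_iff] at hn
    rw [← hn.1, ← hn.2]
    exact h2
  refine ⟨p.1, p.2, hne, ?_⟩
  by_contra hcon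
  push Not at hcon
  have h4 : Tendsto (fun n => (p.1 : ℝ) + s n * p.2 - κ * Real.sqrt (s n)) atTop
      (𝓝 ((p.1 : ℝ) + t * p.2 - κ * Real.sqrt t)) :=
    ((hs.mul_const _).const_add _).sub hsq
  have h5 : ∀ᶠ n in atTop, 0 < (p.1 : ℝ) + s n * p.2 - κ * Real.sqrt (s n) :=
    h4.eventually (lt_mem_nhds (by linarith))
  obtain ⟨n, hn1, hn2⟩ := (hfreq.and_eventually h5).exists
  have h6 := hle n
  have e1 : i n = p.1 := congrArg Prod.fst hn1
  have e2 : j n = p.2 := congrArg Prod.snd hn1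
  rw [e1, e2] at h6
  linarith

/-- The set of positive `t` with `M_d(t) ≤ κ √t` is closed in `(0, ∞)`. -/
theorem degLE_of_mem_closure {d : ℕ} {κ t : ℝ} (ht : 0 < t)
    (h : t ∈ closure {s : ℝ | DegLE d s (κ * Real.sqrt s)}) :
    DegLE d t (κ * Real.sqrt t) := by
  obtain ⟨s, hs, hst⟩ := mem_closure_iff_seq_limit.1 h
  exact degLE_of_tendsto ht s hst hs

theorem nearMinimal_of_mem_closure {κ t : ℝ} (ht : 0 < t)
    (h : t ∈ closure {s : ℝ | NearMinimal κ s}) : NearMinimal κ t := by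
  rw [nearMinimal_iff ht]
  intro d
  obtain ⟨s, hs, hst⟩ := mem_closure_iff_seq_limit.1 h
  have hev : ∀ᶠ n in atTop, 0 < s n := hst.eventually (lt_mem_nhds ht)
  obtain ⟨N, hN⟩ := Filter.eventually_atTop.1 hev
  refine degLE_of_tendsto ht (fun n => s (n + N))
    (hst.comp (tendsto_add_atTop_nat N)) fun n => ?_
  exact (nearMinimal_iff (hN _ (by omega))).1 (hs _) d

end Pool.Agent.TH183.QT
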