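import Pool.Agent.TH183.QT.Crit
import Pool.Agent.TH183.QT.Closed

set_option autoImplicit false

/-!
# The finite criterion for all real weights at least nine
-/

namespace Pool.Agent.TH183.QT

theorem count_ineq {ε D r : ℝ} (hε : 0 < ε) (hD : 5 + 1 / (2 * ε) ≤ D) (h1 : 3 ≤ r)
    (h2 : r * r ≤ 10) :
    D ^ 2 / (2 * (1 + ε) ^ 2) + (D * r / (2 * (1 + ε)) + D / ((1 + ε) * r) + r * r / 2 + 1) <
      (D + 2) * (D + 1) / 2 := by
  have hr0 : 0 < r := by linarith
  have hrr : r ≤ 31623 / 10000 := by nlinarith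
  have hk0 : 0 < 1 + ε := by linarith
  have hDε : 5 * ε + 1 / 2 ≤ D * ε := by
    have h3 := mul_le_mul_of_nonneg_right hD hε.le
    have h4 : (5 + 1 / (2 * ε)) * ε = 5 * ε + 1 / 2 := by field_simp
    linarith
  have hD5 : 5 ≤ D := by
    have : 0 < 1 / (2 * ε) := by positivity
    linarith
  have h3 : D * r / (2 * (1 + ε)) + D / ((1 + ε) * r) ≤ D * (19149 / 10000) / (1 + ε) := by
    have h4 : r / 2 + 1 / r ≤ 19149 / 10000 := by
      have h5 : 1 / r ≤ 1 / 3 := one_div_le_one_div_of_le (by norm_num) h1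
      have h6 : r / 2 ≤ 31623 / 20000 := by linarith
      linarith
    have e : D * r / (2 * (1 + ε)) + D / ((1 + ε) * r) = D * (r / 2 + 1 / r) / (1 + ε) := by
      field_simp
    rw [e]
    refine div_le_div_of_nonneg_right ?_ hk0.le
    exact mul_le_mul_of_nonneg_left h4 (by linarith)
  have h4 : D ^ 2 / (2 * (1 + ε) ^ 2) + D * (19149 / 10000) / (1 + ε) + 6 <
      (D + 2) * (D + 1) / 2 := by
    have e : D ^ 2 / (2 * (1 + ε) ^ 2) + D * (19149 / 10000) / (1 + ε) + 6 =
        (D ^ 2 / 2 + D * (19149 / 10000) * (1 + ε) + 6 * (1 + ε) ^ 2) / (1 + ε) ^ 2 := by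
      field_simp
    rw [e, div_lt_iff₀ (by positivity)]
    obtain ⟨u, hu⟩ : ∃ u, u = D * ε := ⟨_, rfl⟩
    rw [← hu] at hDε
    have h5 : 0 ≤ (u - 5 * ε - 1 / 2) * D := mul_nonneg (by linarith) (by linarith)
    have h6 : 0 ≤ (u - 5 * ε - 1 / 2) * u := mul_nonneg (by linarith) (by linarith)
    have h7 : 0 ≤ (u - 5 * ε - 1 / 2) * ε := mul_nonneg (by linarith) hε.le
    have h8 : 2 ≤ 851 / 10000 * D + 236 / 10 * ε := by
      by_contra hcon
      push Not at hcon
      obtain ⟨x, hx⟩ : ∃ x, x = 851 / 10000 * D + 236 / 10 * ε := ⟨_, rfl⟩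
      rw [← hx] at hcon
      have hx0 : 0 < x := by rw [hx]; positivity
      have h9 : x * x < 4 := by nlinarith
      have h10 := sq_nonneg (851 / 10000 * D - 236 / 10 * ε)
      have h11 : x * x = (851 / 10000 * D - 236 / 10 * ε) ^ 2 + 4 * (851 / 10000) * (236 / 10) * u := by
        rw [hx, hu]
        ring
      have h12 : 1 / 2 ≤ u := by linarith
      linarith
    have e2 : (D + 2) * (D + 1) / 2 * (1 + ε) ^ 2 -
        (D ^ 2 / 2 + D * (19149 / 10000) * (1 + ε) + 6 * (1 + ε) ^ 2) =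
        u * D + u * u / 2 - 4149 / 10000 * D + 10851 / 10000 * u + 3 / 2 * (u * ε) -
          5 - 10 * ε - 5 * (ε * ε) := by
      rw [hu]
      ring
    have h13 : 0 < ε * ε := by positivity
    have h14 : D * ε = u := hu.symm
    have h15 : 0 < u * D + u * u / 2 - 4149 / 10000 * D + 10851 / 10000 * u + 3 / 2 * (u * ε) -
          5 - 10 * ε - 5 * (ε * ε) := by
      have h16 : u * D ≥ 5 * u + D / 2 := by
        have : (u - 5 * ε - 1 / 2) * D = u * D - 5 * (D * ε) - D / 2 := by ring
        rw [this, h14] at h5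
        linarith
      have h17 : u * u ≥ 5 * (u * ε) + u / 2 := by
        have : (u - 5 * ε - 1 / 2) * u = u * u - 5 * (u * ε) - u / 2 := by ring
        rw [this] at h6
        linarith
      have h18 : u * ε ≥ 5 * (ε * ε) + ε / 2 := by
        have : (u - 5 * ε - 1 / 2) * ε = u * ε - 5 * (ε * ε) - ε / 2 := by ring
        rw [this] at h7
        linarith
      linarith
    linarith
  have h5 : r * r / 2 + 1 ≤ 6 := by linarith
  linarith

/-- Bounds with a margin. -/
theorem degLE_of_all_gt {d : ℕ} {t B : ℝ} (ht : 0 < t)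
    (h : ∀ ε : ℝ, 0 < ε → DegLE d t (B + ε)) : DegLE d t B := by
  have h1 : ∀ n : ℕ, DegLE d t (B + 1 / ((n : ℝ) + 1)) := fun n => h _ (by positivity)
  choose P hP hP' using h1
  obtain ⟨c, hc⟩ := exists_common P hP
  refine degLE_of_germ ht c fun f hf hf0 => ?_
  by_contra hcon
  obtain ⟨T, hT⟩ := exists_finset ht (B + 1)
  -- the least value above `B` among the finitely many exponents
  have h2 : ∃ δ : ℝ, 0 < δ ∧ ∀ p ∈ T, B < (p.1 : ℝ) + t * p.2 → B + δ < (p.1 : ℝ) + t * p.2 := by
    classical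
    clear hT
    induction T using Finset.induction_on with
    | empty => exact ⟨1, one_pos, fun p hp => absurd hp (Finset.notMem_empty p)⟩
    | insert a T _ ih =>
      obtain ⟨δ, hδ, hδ'⟩ := ih
      by_cases ha : B < (a.1 : ℝ) + t * a.2
      · refine ⟨min δ (((a.1 : ℝ) + t * a.2 - B) / 2), lt_min hδ (by linarith), fun p hp hpB => ?_⟩
        rcases Finset.mem_insert.1 hp with rfl | hp
        · have := min_le_right δ (((p.1 : ℝ) + t * p.2 - B) / 2)
          linarith
        · have := min_le_left δ (((a.1 : ℝ) + t * a.2 - B) / 2)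
          have := hδ' p hp hpB
          linarith
      · refine ⟨δ, hδ, fun p hp hpB => ?_⟩
        rcases Finset.mem_insert.1 hp with rfl | hp
        · exact absurd hpB ha
        · exact hδ' p hp hpB
  obtain ⟨δ, hδ, hδ'⟩ := h2
  obtain ⟨n, hn⟩ := exists_nat_gt (1 / δ)
  obtain ⟨i, j, h3, h4⟩ := hP' n c (hc n) f hf hf0
  have hn0 : (0 : ℝ) ≤ n := Nat.cast_nonneg n
  have h5 : 1 / ((n : ℝ) + 1) ≤ 1 := by
    rw [div_le_one (by positivity)]
    linarith
  have h6 : 1 / ((n : ℝ) + 1) < δ := by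
    rw [div_lt_iff₀ (by positivity)]
    rw [div_lt_iff₀ hδ] at hn
    nlinarith
  have h7 : B < (i : ℝ) + t * j := by
    by_contra h8
    exact hcon ⟨i, j, h3, not_lt.1 h8⟩
  have h8 := hδ' (i, j) ((hT i j).2 (by linarith)) h7
  have h9 : (((i, j) : ℕ × ℕ).1 : ℝ) + t * (((i, j) : ℕ × ℕ).2 : ℝ) = i + t * j := rfl
  rw [h9] at h8
  linarith

/-- **The finite criterion.** -/
theorem finite_criterion {κ : ℝ} (hκ : 1 < κ) {D : ℕ} (hD : 5 + 1 / (2 * (κ - 1)) ≤ (D : ℝ))
    (h : ∀ t : ℝ, 9 ≤ t → t ≤ 10 → ∀ d ≤ D, DegLE d t (κ * ((d : ℝ) * Real.sqrt t))) (t : ℝ)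
    (ht : 9 ≤ t) : NearMinimal κ t := by
  classical
  have hmain : ∀ t : ℝ, 9 ≤ t → t ≤ 10 → ∀ d, DegLE d t (κ * d * Real.sqrt t) := by
    intro t h9 h10
    have ht0 : 0 < t := by linarith
    obtain ⟨r, hr⟩ : ∃ r, r = Real.sqrt t := ⟨_, rfl⟩
    have hr2 : r * r = t := by rw [hr]; exact Real.mul_self_sqrt ht0.le
    have hr3 : 3 ≤ r := by
      rw [hr]
      exact Real.le_sqrt_of_sq_le (by linarith)
    have hd := h t h9 h10
    choose! P hP hP' using hd
    obtain ⟨c, hc⟩ := exists_common (fun d => if d ≤ D then P d else 1) (fun d => by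
      by_cases h1 : d ≤ D
      · simp only [h1, if_true]
        exact hP d h1
      · simp only [h1, if_false]
        exact one_ne_zero)
    have hc' : ∀ d ≤ D, MvPolynomial.eval c (P d) ≠ 0 := by
      intro d h1
      have := hc d
      simpa only [h1, if_true] using this
    have hD0 : (0 : ℝ) < D := by
      have : 0 < 1 / (2 * (κ - 1)) := by
        have : 0 < κ - 1 := by linarith
        positivity
      linarith
    have hκ0 : 0 < κ := by linarith
    obtain ⟨V, hV⟩ : ∃ V : ℝ, V = D * r / κ := ⟨_, rfl⟩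
    have hV0 : 0 < V := by rw [hV]; positivity
    obtain ⟨T, hT, hTc⟩ := exists_tri ht0 V
    have hcard : T.card < (D + 2).choose 2 := by
      have h1 := tri_upper ht0 hV0
      rw [← hTc] at h1
      have h2 := count_ineq (ε := κ - 1) (D := D) (r := r) (by linarith) hD hr3 (by linarith)
      have e0 : 1 + (κ - 1) = κ := by ring
      rw [e0] at h2
      have e1 : V ^ 2 / (2 * t) = (D : ℝ) ^ 2 / (2 * κ ^ 2) := by
        rw [hV, ← hr2]
        field_simp
      have e2 : V / 2 = D * r / (2 * κ) := by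
        rw [hV]
        field_simp
      have e3 : V / t = D / (κ * r) := by
        rw [hV, ← hr2]
        field_simp
      rw [e1, e2, e3, ← hr2] at h1
      have h3 : (T.card : ℝ) < ((D + 2).choose 2 : ℕ) := by
        rw [Nat.cast_choose_two]
        push_cast
        have e4 : ((D : ℝ) + 2) * (D + 2 - 1) / 2 = (D + 2) * (D + 1) / 2 := by ring
        rw [e4]
        exact lt_of_le_of_lt h1 h2
      exact_mod_cast h3
    obtain ⟨F, hF, hF0, hFV⟩ := exists_curve (t := t) (V := V) c T (fun i j hij => (hT i j).2 hij)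
      hcard
    have hall := criterion (μ := κ * r) ht0 (by positivity) hV0 hF hF0 hFV (by
      rw [hV, ← hr2]
      refine le_of_eq ?_
      field_simp) (by
      intro d hd f hf hf0
      have h1 := hP' d hd c (hc' d hd) f hf hf0
      refine h1.mono (le_of_eq ?_)
      rw [hr]
      ring)
    intro d
    refine degLE_of_germ ht0 c fun f hf hf0 => ?_
    refine (hall d f hf hf0).mono (le_of_eq ?_)
    rw [hr]
    ring
  rw [nearMinimal_iff (by linarith)]
  intro d
  exact nine_ten (κ := κ * d) (fun s h1 h2 => hmain s h1 h2 d) t ht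

end Pool.Agent.TH183.QT
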