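import Mathlib

set_option autoImplicit false

/-!
# A point off countably many hypersurfaces
-/

namespace Pool.Agent.TH183.QT

theorem dense_ne_zero {p : MvPolynomial ℕ ℂ} (hp : p ≠ 0) :
    Dense {c : ℕ → ℂ | MvPolynomial.eval c p ≠ 0} := by
  obtain ⟨c1, hc1⟩ : ∃ c1 : ℕ → ℂ, MvPolynomial.eval c1 p ≠ 0 := by
    by_contra hcon
    push Not at hcon
    exact hp (MvPolynomial.funext fun c => by rw [hcon c, map_zero])
  intro c0
  obtain ⟨q, hq⟩ : ∃ q : Polynomial ℂ, q = MvPolynomial.aeval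
    (fun k => Polynomial.C (c0 k) + Polynomial.X * Polynomial.C (c1 k - c0 k)) p := ⟨_, rfl⟩
  have hq' : ∀ t : ℂ, q.eval t = MvPolynomial.eval (fun k => c0 k + t * (c1 k - c0 k)) p := by
    intro t
    rw [hq, ← Polynomial.coe_evalRingHom, MvPolynomial.aeval_def, MvPolynomial.hom_eval₂,
      MvPolynomial.eval, MvPolynomial.coe_eval₂Hom]
    congr 1
    · ext z
      simp
    · ext k
      simp
  have hq0 : q ≠ 0 := by
    intro h
    have h1 := hq' 1
    rw [h, Polynomial.eval_zero] at h1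
    apply hc1
    rw [h1]
    congr 2
    ext k
    ring
  have h1 : (0 : ℂ) ∈ closure {t : ℂ | q.eval t ≠ 0} := by
    have h2 : {t : ℂ | q.eval t ≠ 0} = (↑q.roots.toFinset : Set ℂ)ᶜ := by
      ext t
      simp [hq0]
    rw [h2]
    exact (Set.Countable.dense_compl ℝ (Finset.countable_toSet _)) 0
  have h2 : Continuous fun t : ℂ => (fun k => c0 k + t * (c1 k - c0 k) : ℕ → ℂ) := by
    fun_prop
  have h3 := map_mem_closure h2 h1 (t := {c : ℕ → ℂ | MvPolynomial.eval c p ≠ 0}) (by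
    intro t ht
    show MvPolynomial.eval _ p ≠ 0
    rw [← hq']
    exact ht)
  have h4 : (fun k => c0 k + (0 : ℂ) * (c1 k - c0 k) : ℕ → ℂ) = c0 := by
    ext k
    ring
  rwa [h4] at h3

theorem exists_common (S : ℕ → MvPolynomial ℕ ℂ) (hS : ∀ k, S k ≠ 0) :
    ∃ c : ℕ → ℂ, ∀ k, MvPolynomial.eval c (S k) ≠ 0 := by
  have h : Dense (⋂ k, {c : ℕ → ℂ | MvPolynomial.eval c (S k) ≠ 0}) := by
    refine dense_iInter_of_isOpen (fun k => ?_) fun k => dense_ne_zero (hS k)
    exact isOpen_ne_fun (MvPolynomial.continuous_eval _) continuous_const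
  obtain ⟨c, hc⟩ := h.nonempty
  rw [Set.mem_iInter] at hc
  exact ⟨c, hc⟩

end Pool.Agent.TH183.QT
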