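import Pool.Agent.TH183.QT.Key
import Pool.Agent.TH183.QT.Dense
import Pool.Agent.TH183.QT.Defs

set_option autoImplicit false

/-!
# The transfer for forms, and its consequences
-/

namespace Pool.Agent.TH183.QT

open MvPolynomial (monomial)

theorem valLE_iff {c : ℕ → ℂ} {t B : ℝ} {d : ℕ} {f : MvPolynomial (Fin 3) ℂ}
    (hf : f.IsHomogeneous d) :
    ValLE c t f B ↔ ∃ i j : ℕ, ∑ m : exps d, MvPolynomial.coeff m.1 f * ent c m.1 i j ≠ 0 ∧
      (i : ℝ) + t * j ≤ B := by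
  have h : ∀ i j, PowerSeries.coeff i ((MvPolynomial.aeval
        (![Polynomial.C PowerSeries.X,
           Polynomial.C (PowerSeries.X * PowerSeries.mk c) + Polynomial.X,
           1] : Fin 3 → Polynomial (PowerSeries ℂ)) f).coeff j) =
      ∑ m : exps d, MvPolynomial.coeff m.1 f * ent c m.1 i j :=
    fun i j => coeff_expand_form c hf i j
  unfold ValLE
  simp only [h]

/-- The form with given coefficients. -/
theorem exists_form {d : ℕ} (v : exps d → ℂ) : ∃ f : MvPolynomial (Fin 3) ℂ,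
    f.IsHomogeneous d ∧ (∀ m : exps d, MvPolynomial.coeff m.1 f = v m) := by
  classical
  refine ⟨∑ m : exps d, monomial m.1 (v m), ?_, fun m => ?_⟩
  · refine MvPolynomial.IsHomogeneous.sum _ _ _ fun m _ => ?_
    exact MvPolynomial.isHomogeneous_monomial _ (mem_exps.1 m.2)
  · rw [MvPolynomial.coeff_sum, Finset.sum_eq_single m]
    · rw [MvPolynomial.coeff_monomial, if_pos rfl]
    · intro m' _ hm'
      rw [MvPolynomial.coeff_monomial, if_neg]
      exact fun h => hm' (Subtype.ext h)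
    · intro h
      exact absurd (Finset.mem_univ m) h

theorem form_eq_zero {d : ℕ} {f : MvPolynomial (Fin 3) ℂ} (hf : f.IsHomogeneous d)
    (h : ∀ m : exps d, MvPolynomial.coeff m.1 f = 0) : f = 0 := by
  ext m
  rw [MvPolynomial.coeff_zero]
  by_cases hm : m ∈ exps d
  · exact h ⟨m, hm⟩
  · refine hf.coeff_eq_zero fun h => hm ?_
    rw [mem_exps]
    exact h

theorem exists_finset {t : ℝ} (ht : 0 < t) (B : ℝ) :
    ∃ T : Finset (ℕ × ℕ), ∀ i j : ℕ, (i, j) ∈ T ↔ (i : ℝ) + t * j ≤ B := by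
  classical
  refine ⟨(Finset.range (⌊B⌋₊ + 1) ×ˢ Finset.range (⌊B / t⌋₊ + 1)).filter
    (fun p => (p.1 : ℝ) + t * p.2 ≤ B), fun i j => ?_⟩
  rw [Finset.mem_filter, Finset.mem_product, Finset.mem_range, Finset.mem_range]
  refine ⟨fun h => h.2, fun h => ⟨⟨?_, ?_⟩, h⟩⟩
  · have h3 : (0 : ℝ) ≤ t * j := by positivity
    have : i ≤ ⌊B⌋₊ := Nat.le_floor (by linarith)
    show i < ⌊B⌋₊ + 1
    omega
  · have h4 : (0 : ℝ) ≤ i := Nat.cast_nonneg i
    have : j ≤ ⌊B / t⌋₊ := Nat.le_floor (by rw [le_div_iff₀ ht]; linarith)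
    show j < ⌊B / t⌋₊ + 1
    omega

/-- From a germ over `ℂ[C]` to a general germ. -/
theorem degLE_of_poly {d : ℕ} {t B : ℝ} (ht : 0 < t) (c' : ℕ → Polynomial ℂ)
    (h : ∀ v : exps d → Polynomial ℂ, v ≠ 0 → ∃ i j : ℕ,
      ∑ m : exps d, v m * ent c' m.1 i j ≠ 0 ∧ (i : ℝ) + t * j ≤ B) : DegLE d t B := by
  obtain ⟨T, hT⟩ := exists_finset ht B
  obtain ⟨P, hP, hP'⟩ := exists_general (d := d) T c' (fun v hv => by
    by_contra hv0
    obtain ⟨i, j, h1, h2⟩ := h v hv0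
    exact h1 (hv (i, j) ((hT i j).2 h2)))
  refine ⟨P, hP, fun c hc f hf hf0 => ?_⟩
  rw [valLE_iff hf]
  by_contra hcon
  push Not at hcon
  apply hf0
  have h1 := hP' c hc (fun m => MvPolynomial.coeff m.1 f) (fun p hp => by
    by_contra h2
    have h3 := hcon p.1 p.2 h2
    have h4 := (hT p.1 p.2).1 hp
    linarith)
  exact form_eq_zero hf fun m => congrFun h1 m

/-- From one germ to a general germ. -/
theorem degLE_of_germ {d : ℕ} {t B : ℝ} (ht : 0 < t) (c : ℕ → ℂ)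
    (h : ∀ f : MvPolynomial (Fin 3) ℂ, f.IsHomogeneous d → f ≠ 0 → ValLE c t f B) :
    DegLE d t B := by
  refine degLE_of_poly ht (fun k => Polynomial.C (c k)) fun v hv => ?_
  obtain ⟨m, hm⟩ : ∃ m, v m ≠ 0 := by
    by_contra hcon
    push Not at hcon
    exact hv (funext hcon)
  obtain ⟨e, he⟩ : ∃ e, (v m).coeff e ≠ 0 := by
    by_contra hcon
    push Not at hcon
    exact hm (Polynomial.ext fun e => by rw [hcon e, Polynomial.coeff_zero])
  obtain ⟨f, hf, hf'⟩ := exists_form (fun m => (v m).coeff e)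
  have hf0 : f ≠ 0 := by
    intro h0
    apply he
    rw [← hf' m, h0, MvPolynomial.coeff_zero]
  obtain ⟨i, j, h1, h2⟩ := (valLE_iff hf).1 (h f hf hf0)
  refine ⟨i, j, fun h3 => h1 ?_, h2⟩
  have h4 := congrArg (fun p : Polynomial ℂ => p.coeff e) h3
  simp only [Polynomial.finsetSum_coeff, Polynomial.coeff_zero] at h4
  rw [← h4]
  refine Finset.sum_congr rfl fun m' _ => ?_
  have e1 : ent (fun k => Polynomial.C (c k)) m'.1 i j = Polynomial.C (ent c m'.1 i j) :=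
    (map_ent (Polynomial.C : ℂ →+* Polynomial ℂ) c m'.1 i j).symm
  rw [hf' m', e1, Polynomial.coeff_mul_C]

/-- **The transfer from the weight `σ` to the weight `ρ ^ 2 / σ`.** -/
theorem degLE_transfer {d ρ : ℕ} {σ B : ℝ} (hσ : 0 < σ) (hρ : σ ≤ ρ) (h : DegLE d σ B) :
    DegLE d ((ρ : ℝ) ^ 2 / σ) (ρ / σ * B) := by
  obtain ⟨P, hP, hP'⟩ := h
  obtain ⟨c0, hc0⟩ : ∃ c0 : ℕ → ℂ, MvPolynomial.eval c0 P ≠ 0 := by
    by_contra hcon
    push Not at hcon
    exact hP (MvPolynomial.funext fun c => by rw [hcon c, map_zero])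
  have hρ0 : (0 : ℝ) < ρ := lt_of_lt_of_le hσ hρ
  refine degLE_of_poly (by positivity) _ (key hσ hρ c0 fun v hv => ?_)
  obtain ⟨f, hf, hf'⟩ := exists_form v
  have hf0 : f ≠ 0 := by
    intro h0
    apply hv
    ext m
    rw [← hf' m, h0, MvPolynomial.coeff_zero]
    rfl
  obtain ⟨i, j, h1, h2⟩ := (valLE_iff hf).1 (hP' c0 hc0 f hf hf0)
  refine ⟨i, j, ?_, h2⟩
  rw [Finset.sum_congr rfl fun m _ => by rw [hf' m]] at h1
  exact h1

theorem DegLE.mono {d : ℕ} {t B B' : ℝ} (h : DegLE d t B) (hB : B ≤ B') : DegLE d t B' := by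
  obtain ⟨P, hP, hP'⟩ := h
  refine ⟨P, hP, fun c hc f hf hf0 => ?_⟩
  obtain ⟨i, j, h1, h2⟩ := hP' c hc f hf hf0
  exact ⟨i, j, h1, h2.trans hB⟩

/-- The transfer for bounds relative to `√t`. -/
theorem degLE_transfer_sqrt {d ρ : ℕ} {σ κ : ℝ} (hσ : 0 < σ) (hρ : σ ≤ ρ)
    (h : DegLE d σ (κ * Real.sqrt σ)) :
    DegLE d ((ρ : ℝ) ^ 2 / σ) (κ * Real.sqrt ((ρ : ℝ) ^ 2 / σ)) := by
  refine (degLE_transfer hσ hρ h).mono (le_of_eq ?_)
  have h1 : 0 < Real.sqrt σ := Real.sqrt_pos.2 hσ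
  have h2 : Real.sqrt σ * Real.sqrt σ = σ := Real.mul_self_sqrt hσ.le
  have h3 : (0 : ℝ) ≤ ρ := Nat.cast_nonneg ρ
  rw [Real.sqrt_div (by positivity), Real.sqrt_sq h3]
  rw [mul_div_assoc', div_mul_eq_mul_div, div_eq_div_iff hσ.ne' h1.ne']
  linear_combination (ρ * κ : ℝ) * h2

/-- A bound on `[9, 10]` gives the same bound on `[9, ∞)`, in each degree. -/
theorem nine_ten {d : ℕ} {κ : ℝ}
    (h : ∀ t : ℝ, 9 ≤ t → t ≤ 10 → DegLE d t (κ * Real.sqrt t)) (t : ℝ) (ht : 9 ≤ t) :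
    DegLE d t (κ * Real.sqrt t) := by
  have main : ∀ n : ℕ, 10 ≤ n → ∀ t : ℝ, 9 ≤ t → t ≤ n → DegLE d t (κ * Real.sqrt t) := by
    intro n hn
    induction n, hn using Nat.le_induction with
    | base =>
      intro t h1 h2
      exact h t h1 (by exact_mod_cast h2)
    | succ n hn ih =>
      intro t h1 h2
      rcases le_or_gt t n with h3 | h3
      · exact ih t h1 h3
      · have hn' : (10 : ℝ) ≤ n := by exact_mod_cast hn
        push_cast at h2
        have ht0 : 0 < t := by linarith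
        have h4 : 9 ≤ (n : ℝ) ^ 2 / t := by
          rw [le_div_iff₀ ht0]
          nlinarith
        have h5 : (n : ℝ) ^ 2 / t ≤ n := by
          rw [div_le_iff₀ ht0]
          nlinarith
        have h6 := degLE_transfer_sqrt (ρ := n) (by linarith) h5 (ih _ h4 h5)
        have h7 : (n : ℝ) ^ 2 / ((n : ℝ) ^ 2 / t) = t := by
          have : (n : ℝ) ≠ 0 := by linarith
          field_simp
        rwa [h7] at h6
  obtain ⟨n, hn⟩ := exists_nat_ge t
  exact main (max n 10) (le_max_right _ _) t ht (hn.trans (by exact_mod_cast le_max_left _ _))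

/-- A bound on `[8.1, 9]` gives the same bound on `[8.1, ∞)`, in each degree. -/
theorem below_nine {d : ℕ} {κ : ℝ}
    (h : ∀ t : ℝ, 81 / 10 ≤ t → t ≤ 9 → DegLE d t (κ * Real.sqrt t)) (t : ℝ) (ht : 81 / 10 ≤ t) :
    DegLE d t (κ * Real.sqrt t) := by
  rcases le_or_gt t 9 with h1 | h1
  · exact h t ht h1
  · refine nine_ten (fun s hs1 hs2 => ?_) t h1.le
    have hs0 : 0 < s := by linarith
    have h4 : 81 / 10 ≤ ((9 : ℕ) : ℝ) ^ 2 / s := by
      rw [le_div_iff₀ hs0]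
      push_cast
      linarith
    have h5 : ((9 : ℕ) : ℝ) ^ 2 / s ≤ 9 := by
      rw [div_le_iff₀ hs0]
      push_cast
      linarith
    have h6 := degLE_transfer_sqrt (ρ := 9) (by linarith)
      (by push_cast at h5 ⊢; exact h5) (h _ h4 h5)
    have h7 : ((9 : ℕ) : ℝ) ^ 2 / (((9 : ℕ) : ℝ) ^ 2 / s) = s := by
      push_cast
      field_simp
    rwa [h7] at h6

/-- A bound on one interval gives the same bound for all large `t`, in each degree. -/
theorem of_interval {d : ℕ} {κ a b : ℝ} (ha : 0 < a) (hab : a < b)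
    (h : ∀ s : ℝ, a ≤ s → s ≤ b → DegLE d s (κ * Real.sqrt s)) (t : ℝ) (hb : b ≤ t)
    (ht : 1 ≤ Real.sqrt t * (Real.sqrt b - Real.sqrt a)) :
    DegLE d t (κ * Real.sqrt t) := by
  have ht0 : 0 < t := by linarith
  have hb0 : 0 < b := by linarith
  obtain ⟨x, hx⟩ : ∃ x, x = Real.sqrt t := ⟨_, rfl⟩
  obtain ⟨y, hy⟩ : ∃ y, y = Real.sqrt b := ⟨_, rfl⟩
  obtain ⟨z, hz⟩ : ∃ z, z = Real.sqrt a := ⟨_, rfl⟩
  rw [← hx, ← hy, ← hz] at ht
  have hx2 : x * x = t := by rw [hx]; exact Real.mul_self_sqrt ht0.le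
  have hy2 : y * y = b := by rw [hy]; exact Real.mul_self_sqrt hb0.le
  have hz2 : z * z = a := by rw [hz]; exact Real.mul_self_sqrt ha.le
  have hx0 : 0 < x := by rw [hx]; exact Real.sqrt_pos.2 ht0
  have hy0 : 0 < y := by rw [hy]; exact Real.sqrt_pos.2 hb0
  have hz0 : 0 < z := by rw [hz]; exact Real.sqrt_pos.2 ha
  obtain ⟨ρ, hρ⟩ : ∃ ρ : ℕ, ρ = ⌊x * y⌋₊ := ⟨_, rfl⟩
  have h1 : (ρ : ℝ) ≤ x * y := by
    rw [hρ]
    exact Nat.floor_le (by positivity)
  have h2 : x * z ≤ ρ := by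
    have h3 : x * y < (ρ : ℝ) + 1 := by
      rw [hρ]
      exact Nat.lt_floor_add_one _
    nlinarith
  have hρ0 : (0 : ℝ) < ρ := lt_of_lt_of_le (by positivity) h2
  have hyx : y ≤ x := by
    rw [hx, hy]
    exact Real.sqrt_le_sqrt hb
  have h4 : a ≤ (ρ : ℝ) ^ 2 / t := by
    rw [le_div_iff₀ ht0, ← hz2, ← hx2]
    have : 0 ≤ x * z := by positivity
    nlinarith
  have h5 : (ρ : ℝ) ^ 2 / t ≤ b := by
    rw [div_le_iff₀ ht0, ← hy2, ← hx2]
    nlinarith
  have h6 : (ρ : ℝ) ^ 2 / t ≤ ρ := by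
    rw [div_le_iff₀ ht0, ← hx2]
    have : (ρ : ℝ) ≤ x * x := h1.trans (mul_le_mul_of_nonneg_left hyx hx0.le)
    nlinarith
  have h7 := degLE_transfer_sqrt (by linarith) h6 (h _ h4 h5)
  have h8 : (ρ : ℝ) ^ 2 / ((ρ : ℝ) ^ 2 / t) = t := by
    field_simp
  rwa [h8] at h7

/-- The condition for very general germs is the condition for general germs in each degree. -/
theorem nearMinimal_iff {κ t : ℝ} (ht : 0 < t) :
    NearMinimal κ t ↔ ∀ d : ℕ, DegLE d t ((κ * d) * Real.sqrt t) := by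
  constructor
  · rintro ⟨S, hS, hS'⟩ d
    obtain ⟨c, hc⟩ := exists_common S hS
    refine degLE_of_germ ht c fun f hf hf0 => ?_
    have := hS' c hc d f hf hf0
    rwa [← mul_assoc] at this
  · intro h
    choose P hP hP' using h
    refine ⟨P, hP, fun c hc d f hf hf0 => ?_⟩
    have := hP' d c (hc d) f hf hf0
    rwa [mul_assoc] at this

theorem nearMinimal_transfer {κ σ : ℝ} {ρ : ℕ} (hσ : 0 < σ) (hρ : σ ≤ ρ)
    (h : NearMinimal κ σ) : NearMinimal κ ((ρ : ℝ) ^ 2 / σ) := by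
  have hρ0 : (0 : ℝ) < ρ := lt_of_lt_of_le hσ hρ
  rw [nearMinimal_iff (by positivity)]
  rw [nearMinimal_iff hσ] at h
  exact fun d => degLE_transfer_sqrt hσ hρ (h d)

end Pool.Agent.TH183.QT
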