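import Mathlib

set_option autoImplicit false

/-!
# Expansions of forms along smooth germs, over a commutative ring
-/

namespace Pool.Agent.TH183.QT

open MvPolynomial (monomial)

/-- The expansion `f(x, ξ(x) + Y, 1)`, `ξ(x) = x * ∑ c_k x ^ k`, over a commutative ring. -/
noncomputable def expand {R : Type*} [CommRing R] (c : ℕ → R) (f : MvPolynomial (Fin 3) R) :
    Polynomial (PowerSeries R) :=
  MvPolynomial.aeval
    (![Polynomial.C PowerSeries.X,
       Polynomial.C (PowerSeries.X * PowerSeries.mk c) + Polynomial.X,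
       1] : Fin 3 → Polynomial (PowerSeries R)) f

/-- The coefficient of `x ^ i * Y ^ j` in the expansion of a monomial. -/
noncomputable def ent {R : Type*} [CommRing R] (c : ℕ → R) (m : Fin 3 →₀ ℕ) (i j : ℕ) : R :=
  PowerSeries.coeff i ((expand c (monomial m (1 : R))).coeff j)

theorem expand_monomial {R : Type*} [CommRing R] (c : ℕ → R) (m : Fin 3 →₀ ℕ) :
    expand c (monomial m (1 : R)) =
      (Polynomial.C PowerSeries.X) ^ (m 0) *
        (Polynomial.C (PowerSeries.X * PowerSeries.mk c) + Polynomial.X) ^ (m 1) := by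
  unfold expand
  rw [MvPolynomial.aeval_monomial, map_one, one_mul, Finsupp.prod_fintype _ _ (by simp),
    Fin.prod_univ_three]
  simp

theorem coeff_expand {R : Type*} [CommRing R] (c : ℕ → R) (f : MvPolynomial (Fin 3) R)
    (i j : ℕ) :
    PowerSeries.coeff i ((expand c f).coeff j) =
      ∑ m ∈ f.support, MvPolynomial.coeff m f * ent c m i j := by
  have h : f = ∑ m ∈ f.support, MvPolynomial.coeff m f • monomial m (1 : R) := by
    conv_lhs => rw [f.as_sum]
    refine Finset.sum_congr rfl fun m _ => ?_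
    rw [MvPolynomial.smul_monomial, smul_eq_mul, mul_one]
  conv_lhs => rw [h]
  unfold ent expand
  rw [map_sum, Polynomial.finsetSum_coeff, map_sum]
  refine Finset.sum_congr rfl fun m _ => ?_
  rw [map_smul, Polynomial.coeff_smul, PowerSeries.coeff_smul, smul_eq_mul]

theorem map_ent {R S : Type*} [CommRing R] [CommRing S] (φ : R →+* S) (c : ℕ → R)
    (m : Fin 3 →₀ ℕ) (i j : ℕ) : φ (ent c m i j) = ent (fun k => φ (c k)) m i j := by
  unfold ent
  rw [← PowerSeries.coeff_map, ← Polynomial.coeff_map, expand_monomial, expand_monomial]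
  congr 2
  have h : PowerSeries.map φ (PowerSeries.mk c) = PowerSeries.mk fun k => φ (c k) := by
    ext k
    simp
  simp [Polynomial.map_mul, Polynomial.map_pow, h]

/-- The exponents of the monomials of degree `d` in three variables. -/
def exps (d : ℕ) : Finset (Fin 3 →₀ ℕ) := Finset.finsuppAntidiag Finset.univ d

theorem mem_exps {d : ℕ} {m : Fin 3 →₀ ℕ} : m ∈ exps d ↔ m.degree = d := by
  unfold exps
  rw [Finset.mem_finsuppAntidiag, Finsupp.degree_eq_sum]
  simp

theorem coeff_expand_form {R : Type*} [CommRing R] (c : ℕ → R) {d : ℕ}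
    {f : MvPolynomial (Fin 3) R} (hf : f.IsHomogeneous d) (i j : ℕ) :
    PowerSeries.coeff i ((expand c f).coeff j) =
      ∑ m : exps d, MvPolynomial.coeff m.1 f * ent c m.1 i j := by
  rw [coeff_expand, Finset.sum_coe_sort (exps d) (fun m => MvPolynomial.coeff m f * ent c m i j)]
  refine Finset.sum_subset ?_ ?_
  · intro m hm
    rw [mem_exps]
    rw [MvPolynomial.mem_support_iff] at hm
    by_contra hcon
    exact hm (hf.coeff_eq_zero hcon)
  · intro m _ hm
    rw [MvPolynomial.notMem_support_iff.1 hm, zero_mul]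

/-- Linear independence over a domain gives a left inverse up to a nonzero factor. -/
theorem exists_left {R : Type*} [CommRing R] [IsDomain R] {T N : Type*} [Fintype T] [Fintype N]
    [DecidableEq N] [DecidableEq T] (A : Matrix T N R)
    (h : ∀ v : N → R, A.mulVec v = 0 → v = 0) :
    ∃ (L : Matrix N T R) (q : R), q ≠ 0 ∧ L * A = q • (1 : Matrix N N R) := by
  classical
  let K := FractionRing R
  let A' : Matrix T N K := A.map (algebraMap R K)
  have hinj : Function.Injective (algebraMap R K) := IsFractionRing.injective R K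
  have h1 : ∀ w : N → K, A'.mulVec w = 0 → w = 0 := by
    intro w hw
    obtain ⟨b, hb⟩ := IsLocalization.exist_integer_multiples_of_finite (nonZeroDivisors R) w
    choose v hv using hb
    have hb0 : (b : R) ≠ 0 := nonZeroDivisors.ne_zero b.2
    have h2 : A.mulVec v = 0 := by
      ext i
      apply hinj
      have h3 : algebraMap R K (A.mulVec v i) = ∑ j, A' i j * algebraMap R K (v j) := by
        rw [Matrix.mulVec, dotProduct, map_sum]
        refine Finset.sum_congr rfl fun j _ => ?_
        rw [map_mul]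
        rfl
      rw [h3, Pi.zero_apply, map_zero]
      have h4 : ∀ j, A' i j * algebraMap R K (v j) = (b : R) • (A' i j * w j) := by
        intro j
        rw [hv j, mul_smul_comm]
      rw [Finset.sum_congr rfl fun j _ => h4 j, ← Finset.smul_sum]
      have h5 : ∑ j, A' i j * w j = 0 := congrFun hw i
      rw [h5, smul_zero]
    have h3 := h v h2
    ext j
    have h4 := hv j
    rw [h3, Pi.zero_apply, map_zero, Algebra.smul_def] at h4
    rcases mul_eq_zero.1 h4.symm with h5 | h5
    · exact absurd (hinj (by rw [h5, map_zero])) hb0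
    · exact h5
  have h2 : LinearMap.ker (Matrix.toLin' A') = ⊥ := by
    rw [LinearMap.ker_eq_bot']
    intro w hw
    rw [Matrix.toLin'_apply] at hw
    exact h1 w hw
  obtain ⟨g, hg⟩ := (Matrix.toLin' A').exists_leftInverse_of_injective h2
  let L' : Matrix N T K := LinearMap.toMatrix' g
  have hL' : L' * A' = 1 := by
    have h3 : LinearMap.toMatrix' (g ∘ₗ Matrix.toLin' A') = 1 := by
      rw [hg, LinearMap.toMatrix'_id]
    rwa [LinearMap.toMatrix'_comp, LinearMap.toMatrix'_toLin'] at h3
  obtain ⟨b, hb⟩ := IsLocalization.exist_integer_multiples_of_finite (nonZeroDivisors R)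
    (fun p : N × T => L' p.1 p.2)
  choose w hw using hb
  refine ⟨Matrix.of fun i j => w (i, j), b, nonZeroDivisors.ne_zero b.2, ?_⟩
  ext i k
  apply hinj
  have h3 : algebraMap R K (((Matrix.of fun i j => w (i, j) : Matrix N T R) * A) i k) =
      ∑ j, ((b : R) • L' i j) * A' j k := by
    rw [Matrix.mul_apply, map_sum]
    refine Finset.sum_congr rfl fun j _ => ?_
    rw [map_mul, Matrix.of_apply, hw (i, j)]
    rfl
  have h4 : ∑ j, ((b : R) • L' i j) * A' j k = (b : R) • ((L' * A') i k) := by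
    rw [Matrix.mul_apply, Finset.smul_sum]
    refine Finset.sum_congr rfl fun j _ => ?_
    rw [smul_mul_assoc]
  rw [h3, h4, hL', Matrix.smul_apply, smul_eq_mul, map_mul, Algebra.smul_def]
  congr 1
  rw [Matrix.one_apply, Matrix.one_apply]
  split_ifs <;> simp

/-- The matrix of the coefficients with exponents in `T` of the expansions of the monomials. -/
noncomputable def mat {R : Type*} [CommRing R] (c : ℕ → R) (d : ℕ) (T : Finset (ℕ × ℕ)) :
    Matrix T (exps d) R :=
  Matrix.of fun p m => ent c m.1 p.1.1 p.1.2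

theorem mat_mulVec {R : Type*} [CommRing R] (c : ℕ → R) (d : ℕ) (T : Finset (ℕ × ℕ))
    (v : exps d → R) (p : T) :
    (mat c d T).mulVec v p = ∑ m : exps d, v m * ent c m.1 p.1.1 p.1.2 := by
  rw [Matrix.mulVec, dotProduct]
  exact Finset.sum_congr rfl fun m _ => mul_comm _ _

theorem mat_map {R S : Type*} [CommRing R] [CommRing S] (φ : R →+* S) (c : ℕ → R) (d : ℕ)
    (T : Finset (ℕ × ℕ)) : (mat c d T).map φ = mat (fun k => φ (c k)) d T := by
  ext p m
  rw [Matrix.map_apply]
  exact map_ent φ c m.1 p.1.1 p.1.2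

/-- If, along some germ over `ℂ[C]`, no nonzero vector is killed by the coefficients with exponents
in the finite set `T`, then the same holds for a general germ over `ℂ`. -/
theorem exists_general {d : ℕ} (T : Finset (ℕ × ℕ)) (c' : ℕ → Polynomial ℂ)
    (h : ∀ v : exps d → Polynomial ℂ,
      (∀ p ∈ T, ∑ m : exps d, v m * ent c' m.1 p.1 p.2 = 0) → v = 0) :
    ∃ P : MvPolynomial ℕ ℂ, P ≠ 0 ∧ ∀ c : ℕ → ℂ, MvPolynomial.eval c P ≠ 0 →
      ∀ v : exps d → ℂ, (∀ p ∈ T, ∑ m : exps d, v m * ent c m.1 p.1 p.2 = 0) → v = 0 := by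
  classical
  obtain ⟨L, q, hq, hL⟩ := exists_left (mat c' d T) (fun v hv => h v fun p hp => by
    have := congrFun hv ⟨p, hp⟩
    rw [mat_mulVec] at this
    exact this)
  obtain ⟨z, hz⟩ : ∃ z : ℂ, q.eval z ≠ 0 := by
    by_contra hcon
    push Not at hcon
    exact hq (Polynomial.funext fun z => by rw [hcon z, Polynomial.eval_zero])
  obtain ⟨c1, hc1⟩ : ∃ c1 : ℕ → ℂ, c1 = fun k => Polynomial.evalRingHom z (c' k) := ⟨_, rfl⟩
  obtain ⟨L1, hL1⟩ : ∃ L1 : Matrix (exps d) T ℂ, L1 = L.map (Polynomial.evalRingHom z) := ⟨_, rfl⟩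
  obtain ⟨L2, hL2⟩ : ∃ L2 : Matrix (exps d) T (MvPolynomial ℕ ℂ),
    L2 = L1.map (MvPolynomial.C : ℂ →+* MvPolynomial ℕ ℂ) := ⟨_, rfl⟩
  obtain ⟨M, hM⟩ : ∃ M : Matrix (exps d) (exps d) (MvPolynomial ℕ ℂ),
    M = L2 * mat (fun k => (MvPolynomial.X k : MvPolynomial ℕ ℂ)) d T := ⟨_, rfl⟩
  obtain ⟨P, hPdef⟩ : ∃ P : MvPolynomial ℕ ℂ, P = M.det := ⟨_, rfl⟩
  have hP : ∀ c : ℕ → ℂ, MvPolynomial.eval c P = (L1 * mat c d T).det := by
    intro c
    have e1 : L2.map (MvPolynomial.eval c) = L1 := by
      ext i j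
      rw [hL2, Matrix.map_apply, Matrix.map_apply, MvPolynomial.eval_C]
    have e2 : (fun k => MvPolynomial.eval c (MvPolynomial.X k : MvPolynomial ℕ ℂ)) = c := by
      ext k
      rw [MvPolynomial.eval_X]
    rw [hPdef, RingHom.map_det, RingHom.mapMatrix_apply, hM, Matrix.map_mul, mat_map, e1, e2]
  have h1 : MvPolynomial.eval c1 P ≠ 0 := by
    rw [hP]
    have h2 : L1 * mat c1 d T = (q.eval z) • (1 : Matrix (exps d) (exps d) ℂ) := by
      have h3 := congrArg (RingHom.mapMatrix (Polynomial.evalRingHom z)) hL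
      rw [RingHom.mapMatrix_apply, Matrix.map_mul, mat_map, ← hL1, ← hc1] at h3
      rw [h3]
      ext i k
      rw [RingHom.mapMatrix_apply, Matrix.map_apply, Matrix.smul_apply, Matrix.smul_apply,
        smul_eq_mul, smul_eq_mul, map_mul, Polynomial.coe_evalRingHom, Matrix.one_apply,
        Matrix.one_apply]
      split_ifs <;> simp
    rw [h2, Matrix.det_smul, Matrix.det_one, mul_one]
    exact pow_ne_zero _ hz
  refine ⟨P, fun h0 => h1 (by rw [h0, map_zero]), fun c hc v hv => ?_⟩
  rw [hP] at hc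
  have h2 : (mat c d T).mulVec v = 0 := by
    ext p
    rw [mat_mulVec]
    exact hv p.1 p.2
  have h3 : (L1 * mat c d T).mulVec v = 0 := by
    rw [← Matrix.mulVec_mulVec, h2, Matrix.mulVec_zero]
  by_contra hv0
  exact hc (Matrix.exists_mulVec_eq_zero_iff.1 ⟨v, hv0, h3⟩)

end Pool.Agent.TH183.QT
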