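import Pool.Agent.TH183.QT.Uniform

set_option autoImplicit false

/-!
# In each degree one hypersurface for all real weights at least nine

The value of a form along a germ is, as a function of the weight, a minimum of lines whose slopes and
constant terms are bounded in terms of the degree; a line below the concave function `d √t` at two
weights is below it between them, so finitely many weights suffice.
-/

namespace Pool.Agent.TH183.QT

/-- a line below `d √t` at the ends of an interval is below it inside -/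
theorem line_le {d : ℕ} {i j s t u : ℝ} (hs : 0 ≤ s) (hst : s ≤ t) (htu : t ≤ u)
    (h1 : i + s * j ≤ d * Real.sqrt s) (h2 : i + u * j ≤ d * Real.sqrt u) :
    i + t * j ≤ d * Real.sqrt t := by
  rcases hst.eq_or_lt with rfl | hst'
  · exact h1
  have hsu : 0 < u - s := by linarith
  obtain ⟨a, ha⟩ : ∃ a, a = (u - t) / (u - s) := ⟨_, rfl⟩
  obtain ⟨b, hb⟩ : ∃ b, b = (t - s) / (u - s) := ⟨_, rfl⟩
  have ha0 : 0 ≤ a := by rw [ha]; exact div_nonneg (by linarith) hsu.le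
  have hb0 : 0 ≤ b := by rw [hb]; exact div_nonneg (by linarith) hsu.le
  have hab : a + b = 1 := by
    rw [ha, hb, ← add_div, div_eq_one_iff_eq hsu.ne']
    ring
  have ht : a * s + b * u = t := by
    rw [ha, hb]
    field_simp
    ring
  have h3 := Real.strictConcaveOn_sqrt.concaveOn.2 (x := s) (y := u) (Set.mem_Ici.2 hs)
    (Set.mem_Ici.2 (by linarith)) ha0 hb0 hab
  simp only [smul_eq_mul] at h3
  rw [ht] at h3
  have h4 : a * (i + s * j) + b * (i + u * j) ≤ a * (d * Real.sqrt s) + b * (d * Real.sqrt u) :=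
    add_le_add (mul_le_mul_of_nonneg_left h1 ha0) (mul_le_mul_of_nonneg_left h2 hb0)
  have e1 : a * (i + s * j) + b * (i + u * j) = i + t * j := by
    rw [← ht]
    linear_combination i * hab
  have e2 : a * (d * Real.sqrt s) + b * (d * Real.sqrt u) =
      d * (a * Real.sqrt s + b * Real.sqrt u) := by ring
  rw [e1, e2] at h4
  exact h4.trans (mul_le_mul_of_nonneg_left h3 (Nat.cast_nonneg d))

/-- in each degree one hypersurface for all weights at least nine -/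
theorem one_hypersurface (hnine : ∀ t : ℝ, 9 ≤ t → NearMinimal 1 t) (d : ℕ) :
    ∃ P : MvPolynomial ℕ ℂ, P ≠ 0 ∧ ∀ c : ℕ → ℂ, MvPolynomial.eval c P ≠ 0 →
      ∀ t : ℝ, 9 ≤ t → ∀ f : MvPolynomial (Fin 3) ℂ, f.IsHomogeneous d → f ≠ 0 →
        ValLE c t f (d * Real.sqrt t) := by
  classical
  obtain ⟨T, hT⟩ : ∃ T : ℝ, T = ((d : ℝ) + 3) ^ 2 := ⟨_, rfl⟩
  have hd0 : (0 : ℝ) ≤ d := Nat.cast_nonneg d
  have hT9 : 9 ≤ T := by rw [hT]; nlinarith
  have hTs : Real.sqrt T = d + 3 := by rw [hT]; exact Real.sqrt_sq (by linarith)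
  obtain ⟨N, hN⟩ : ∃ N : ℕ, N = d * (d + 3) := ⟨_, rfl⟩
  obtain ⟨R, hR⟩ : ∃ R : Finset ℕ, R = Finset.range (N + 1) := ⟨_, rfl⟩
  obtain ⟨B, hB⟩ : ∃ B : Finset ℝ, B = insert 9 (insert T
      ((((R ×ˢ R) ×ˢ (R ×ˢ R)).image fun q : (ℕ × ℕ) × (ℕ × ℕ) =>
        ((q.1.1 : ℝ) - q.1.2) / ((q.2.1 : ℝ) - q.2.2)).filter fun x => 9 ≤ x ∧ x ≤ T)) := ⟨_, rfl⟩
  have hB9 : ∀ b ∈ B, 9 ≤ b ∧ b ≤ T := by
    intro b hb
    rw [hB, Finset.mem_insert, Finset.mem_insert, Finset.mem_filter] at hb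
    rcases hb with rfl | rfl | hb
    · exact ⟨le_rfl, hT9⟩
    · exact ⟨hT9, le_rfl⟩
    · exact hb.2
  have h9B : (9 : ℝ) ∈ B := by rw [hB]; exact Finset.mem_insert_self _ _
  have hTB : T ∈ B := by rw [hB]; exact Finset.mem_insert_of_mem (Finset.mem_insert_self _ _)
  have hdeg : ∀ b : ℝ, ∃ P : MvPolynomial ℕ ℂ, P ≠ 0 ∧ (9 ≤ b → ∀ c : ℕ → ℂ,
      MvPolynomial.eval c P ≠ 0 → ∀ f : MvPolynomial (Fin 3) ℂ, f.IsHomogeneous d → f ≠ 0 →
        ValLE c b f (d * Real.sqrt b)) := by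
    intro b
    by_cases hb : 9 ≤ b
    · obtain ⟨P, hP, hP'⟩ := (nearMinimal_iff (κ := 1) (by linarith)).1 (hnine b hb) d
      rw [one_mul] at hP'
      exact ⟨P, hP, fun _ => hP'⟩
    · exact ⟨1, one_ne_zero, fun h => absurd h hb⟩
  choose P hP hP' using hdeg
  refine ⟨∏ b ∈ B, P b, Finset.prod_ne_zero_iff.2 fun b _ => hP b, fun c hc t ht f hf hf0 => ?_⟩
  rw [map_prod, Finset.prod_ne_zero_iff] at hc
  have hgood : ∀ b ∈ B, ValLE c b f (d * Real.sqrt b) := fun b hb =>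
    hP' b (hB9 b hb).1 c (hc b hb) f hf hf0
  rcases le_or_gt T t with hTt | hTt
  · obtain ⟨i, j, hij, hle⟩ := hgood T hTB
    rw [hTs] at hle
    have hj : j = 0 := by
      by_contra hj
      have h1 : (1 : ℝ) ≤ j := by exact_mod_cast Nat.one_le_iff_ne_zero.2 hj
      have h2 : T * 1 ≤ T * j := mul_le_mul_of_nonneg_left h1 (by linarith)
      have h3 : (0 : ℝ) ≤ i := Nat.cast_nonneg i
      rw [hT] at h2 hle
      nlinarith
    refine ⟨i, j, hij, ?_⟩
    subst hj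
    have h4 : Real.sqrt T ≤ Real.sqrt t := Real.sqrt_le_sqrt hTt
    rw [hTs] at h4
    have h5 := mul_le_mul_of_nonneg_left h4 hd0
    simp only [Nat.cast_zero, mul_zero, add_zero] at hle ⊢
    linarith
  -- the neighbouring weights of the finite set
  obtain ⟨s, hs, hsmax⟩ := (B.filter fun x => x ≤ t).exists_max_image id
    ⟨9, Finset.mem_filter.2 ⟨h9B, ht⟩⟩
  obtain ⟨u, hu, humin⟩ := (B.filter fun x => t ≤ x).exists_min_image id
    ⟨T, Finset.mem_filter.2 ⟨hTB, hTt.le⟩⟩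
  rw [Finset.mem_filter] at hs hu
  simp only [id] at hsmax humin
  obtain ⟨i1, j1, hij1, hle1⟩ := hgood s hs.1
  obtain ⟨i2, j2, hij2, hle2⟩ := hgood u hu.1
  have hs9 := (hB9 s hs.1).1
  have hsT := (hB9 s hs.1).2
  have hu9 := (hB9 u hu.1).1
  have huT := (hB9 u hu.1).2
  have hbd : ∀ (x : ℝ) (i j : ℕ), 9 ≤ x → x ≤ T → (i : ℝ) + x * j ≤ d * Real.sqrt x →
      i ∈ R ∧ j ∈ R := by
    intro x i j hx hxT h
    have h1 : Real.sqrt x ≤ d + 3 := by rw [← hTs]; exact Real.sqrt_le_sqrt hxT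
    have h2 := mul_le_mul_of_nonneg_left h1 hd0
    have hi0 : (0 : ℝ) ≤ i := Nat.cast_nonneg i
    have hj0 : (0 : ℝ) ≤ j := Nat.cast_nonneg j
    have h3 : 1 * (j : ℝ) ≤ x * j := mul_le_mul_of_nonneg_right (by linarith) hj0
    have h4 : (i : ℝ) ≤ ((d * (d + 3) : ℕ) : ℝ) := by push_cast; linarith
    have h5 : (j : ℝ) ≤ ((d * (d + 3) : ℕ) : ℝ) := by push_cast; linarith
    have h6 : i ≤ d * (d + 3) := by exact_mod_cast h4
    have h7 : j ≤ d * (d + 3) := by exact_mod_cast h5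
    rw [hR, hN, Finset.mem_range, Finset.mem_range]
    omega
  by_cases c1 : (i1 : ℝ) + u * j1 ≤ d * Real.sqrt u
  · exact ⟨i1, j1, hij1, line_le (by linarith) hs.2 hu.2 hle1 c1⟩
  by_cases c2 : (i2 : ℝ) + s * j2 ≤ d * Real.sqrt s
  · exact ⟨i2, j2, hij2, line_le (by linarith) hs.2 hu.2 c2 hle2⟩
  exfalso
  push Not at c1 c2
  -- the two lines cross strictly between `s` and `u`
  have a1 : (i1 : ℝ) + s * j1 < i2 + s * j2 := by linarith
  have a2 : (i2 : ℝ) + u * j2 < i1 + u * j1 := by linarith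
  have hsu : s ≤ u := hs.2.trans hu.2
  have hj : (j2 : ℝ) < j1 := by
    by_contra hcon
    push Not at hcon
    have : (u - s) * (j1 : ℝ) ≤ (u - s) * j2 := mul_le_mul_of_nonneg_left hcon (by linarith)
    nlinarith
  have hj' : 0 < (j1 : ℝ) - j2 := by linarith
  obtain ⟨x, hx⟩ : ∃ x : ℝ, x = ((i2 : ℝ) - i1) / ((j1 : ℝ) - j2) := ⟨_, rfl⟩
  have hsx : s < x := by
    rw [hx, lt_div_iff₀ hj']
    linarith
  have hxu : x < u := by
    rw [hx, div_lt_iff₀ hj']
    linarith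
  have hxB : x ∈ B := by
    rw [hB, Finset.mem_insert, Finset.mem_insert, Finset.mem_filter, Finset.mem_image]
    obtain ⟨r1, r2⟩ := hbd s i1 j1 hs9 hsT hle1
    obtain ⟨r3, r4⟩ := hbd u i2 j2 hu9 huT hle2
    refine Or.inr (Or.inr ⟨⟨((i2, i1), (j1, j2)), ?_, hx.symm⟩, by linarith, by linarith⟩)
    simp only [Finset.mem_product]
    exact ⟨⟨r3, r1⟩, r2, r4⟩
  rcases le_or_gt x t with h | h
  · exact absurd (hsmax x (Finset.mem_filter.2 ⟨hxB, h⟩)) (not_le.2 hsx)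
  · exact absurd (humin x (Finset.mem_filter.2 ⟨hxB, h.le⟩)) (not_le.2 hxu)

end Pool.Agent.TH183.QT
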