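import Pool.Agent.TH183.QT.Dim

set_option autoImplicit false

/-!
# An inequality of Bezout type for quasimonomial valuations
-/

namespace Pool.Agent.TH183.QT

/-- The exponents of value less than `N`. -/
theorem exists_tri {t : ℝ} (ht : 0 < t) (N : ℝ) :
    ∃ T : Finset (ℕ × ℕ), (∀ i j : ℕ, (i, j) ∈ T ↔ (i : ℝ) + t * j < N) ∧
      (T.card : ℝ) = ∑ j ∈ Finset.range ⌈N / t⌉₊, (⌈N - t * j⌉₊ : ℝ) := by
  classical
  let S : Finset (Σ _ : ℕ, ℕ) :=
    (Finset.range ⌈N / t⌉₊).sigma fun j => Finset.range ⌈N - t * j⌉₊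
  let φ : (Σ _ : ℕ, ℕ) ↪ ℕ × ℕ := ⟨fun p => (p.2, p.1), by
    rintro ⟨a, b⟩ ⟨a', b'⟩ h
    rw [Prod.mk.injEq] at h
    obtain ⟨h1, h2⟩ := h
    simp only at h1 h2
    subst h1
    subst h2
    rfl⟩
  refine ⟨S.map φ, fun i j => ?_, ?_⟩
  · rw [Finset.mem_map]
    constructor
    · rintro ⟨⟨a, b⟩, hab, h⟩
      have h' : (b, a) = (i, j) := h
      rw [Prod.mk.injEq] at h'
      obtain ⟨h1, h2⟩ := h'
      subst h1
      subst h2
      rw [Finset.mem_sigma, Finset.mem_range, Finset.mem_range] at hab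
      have := Nat.lt_ceil.1 hab.2
      linarith
    · intro h
      refine ⟨⟨j, i⟩, ?_, rfl⟩
      rw [Finset.mem_sigma, Finset.mem_range, Finset.mem_range]
      have hi : (0 : ℝ) ≤ i := Nat.cast_nonneg i
      refine ⟨Nat.lt_ceil.2 ?_, Nat.lt_ceil.2 (by show (i : ℝ) < N - t * j; linarith)⟩
      rw [lt_div_iff₀ ht]
      linarith
  · rw [Finset.card_map, Finset.card_sigma]
    simp

theorem sum_arith (N t : ℝ) (J : ℕ) :
    ∑ j ∈ Finset.range J, (N - t * j) = N * J - t * (J * (J - 1) / 2) := by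
  induction J with
  | zero => simp
  | succ J ih =>
    rw [Finset.sum_range_succ, ih]
    push_cast
    ring

theorem tri_lower {t N : ℝ} (ht : 0 < t) (hN : 0 < N) :
    N ^ 2 / (2 * t) ≤ ∑ j ∈ Finset.range ⌈N / t⌉₊, (⌈N - t * j⌉₊ : ℝ) := by
  obtain ⟨J, hJ⟩ : ∃ J, J = ⌈N / t⌉₊ := ⟨_, rfl⟩
  rw [← hJ]
  have h1 : N / t ≤ J := by rw [hJ]; exact Nat.le_ceil _
  have h2 : (J : ℝ) < N / t + 1 := by rw [hJ]; exact Nat.ceil_lt_add_one (by positivity)
  have h3 : N * J - t * (J * (J - 1) / 2) ≤ ∑ j ∈ Finset.range J, (⌈N - t * j⌉₊ : ℝ) := by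
    rw [← sum_arith]
    exact Finset.sum_le_sum fun j _ => Nat.le_ceil _
  refine le_trans ?_ h3
  have h4 : N ≤ J * t := by rwa [div_le_iff₀ ht] at h1
  have h5 : (J : ℝ) * t < N + t := by
    rw [div_add_one ht.ne', lt_div_iff₀ ht] at h2
    exact h2
  rw [div_le_iff₀ (by positivity)]
  have h6 : 0 ≤ ((J : ℝ) * t - N) * (N + t - J * t) :=
    mul_nonneg (by linarith) (by linarith)
  nlinarith

theorem tri_upper {t N : ℝ} (ht : 0 < t) (hN : 0 < N) :
    ∑ j ∈ Finset.range ⌈N / t⌉₊, (⌈N - t * j⌉₊ : ℝ) ≤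
      N ^ 2 / (2 * t) + (N / 2 + N / t + t / 2 + 1) := by
  obtain ⟨J, hJ⟩ : ∃ J, J = ⌈N / t⌉₊ := ⟨_, rfl⟩
  rw [← hJ]
  have h1 : N / t ≤ J := by rw [hJ]; exact Nat.le_ceil _
  have h2 : (J : ℝ) < N / t + 1 := by rw [hJ]; exact Nat.ceil_lt_add_one (by positivity)
  have h3 : ∑ j ∈ Finset.range J, (⌈N - t * j⌉₊ : ℝ) ≤
      N * J - t * (J * (J - 1) / 2) + J := by
    rw [← sum_arith]
    have e : (∑ j ∈ Finset.range J, (N - t * j)) + J = ∑ j ∈ Finset.range J, (N - t * j + 1) := by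
      rw [Finset.sum_add_distrib]
      simp
    rw [e]
    refine Finset.sum_le_sum fun j hj => ?_
    rw [Finset.mem_range, hJ, Nat.lt_ceil, lt_div_iff₀ ht] at hj
    exact (Nat.ceil_lt_add_one (by linarith)).le
  refine h3.trans ?_
  have h4 : N ≤ J * t := by rwa [div_le_iff₀ ht] at h1
  have h5 : (J : ℝ) * t < N + t := by
    rw [div_add_one ht.ne', lt_div_iff₀ ht] at h2
    exact h2
  have h6 : N * J - t * (J * (J - 1) / 2) ≤ N ^ 2 / (2 * t) + N / 2 + t / 2 := by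
    have h7 : N ^ 2 / (2 * t) + N / 2 + t / 2 - (N * J - t * (J * (J - 1) / 2)) =
        ((N - J * t) ^ 2 + t * (N + t - J * t)) / (2 * t) := by
      field_simp
      ring
    have h8 : 0 ≤ ((N - J * t) ^ 2 + t * (N + t - J * t)) / (2 * t) := by
      have : 0 ≤ N + t - J * t := by linarith
      positivity
    linarith
  linarith

/-- A quadratic inequality for all positive integers. -/
theorem quad_le {a b α β : ℝ} (h : ∀ k : ℕ, 0 < k → a * k ^ 2 ≤ b * k ^ 2 + α * k + β) : a ≤ b := by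
  by_contra hcon
  push Not at hcon
  obtain ⟨k, hk⟩ := exists_nat_gt ((|α| + |β|) / (a - b))
  have hab : 0 < a - b := by linarith
  have hk0 : (0 : ℝ) < k := lt_of_le_of_lt (by positivity) hk
  have hk1 : (1 : ℝ) ≤ k := by exact_mod_cast (show 0 < k by exact_mod_cast hk0)
  rw [div_lt_iff₀ hab] at hk
  have h1 := h k (by exact_mod_cast hk0)
  have h2 : α * k + β ≤ (|α| + |β|) * k := by
    have h3 := le_abs_self α
    have h4 := le_abs_self β
    have h5 := abs_nonneg β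
    nlinarith
  nlinarith

/-- **An inequality of Bezout type.** -/
theorem bezout {c : ℕ → ℂ} {t V W : ℝ} (ht : 0 < t) (hV0 : 0 < V) (hW0 : 0 < W) {D d : ℕ}
    {F G : MvPolynomial (Fin 3) ℂ}
    (hF : F.IsHomogeneous D) (hG : G.IsHomogeneous d) (hF0 : F ≠ 0) (hG0 : G ≠ 0)
    (hrel : IsRelPrime F G) (hV : Vanish c t V F) (hW : Vanish c t W G) :
    V * W ≤ t * (D * d) := by
  have main : ∀ k : ℕ, 0 < k → (V * W / t) * k ^ 2 ≤ (D * d : ℝ) * k ^ 2 +
      ((V + W) / 2 + (V + W) / t) * k + (t + 2) := by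
    intro k hk
    have hkR : (0 : ℝ) < k := by exact_mod_cast hk
    obtain ⟨T, hT, hTc⟩ := exists_tri ht (k * V + k * W)
    obtain ⟨U1, hU1, hU1c⟩ := exists_tri ht (k * V)
    obtain ⟨U2, hU2, hU2c⟩ := exists_tri ht (k * W)
    have hFk := hF.pow k
    have hGk := hG.pow k
    have h1 := card_le (c := c) ht hFk hGk (pow_ne_zero k hF0) (pow_ne_zero k hG0)
      hrel.pow (hV.pow ht.le k) (hW.pow ht.le k) hT hU1 hU2
    have h2 : (T.card : ℝ) ≤ U1.card + U2.card + (D * k) * (d * k) := by exact_mod_cast h1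
    have h3 := tri_lower (N := k * V + k * W) ht (by positivity)
    have h4 := tri_upper (N := k * V) ht (by positivity)
    have h5 := tri_upper (N := k * W) ht (by positivity)
    rw [← hTc] at h3
    rw [← hU1c] at h4
    rw [← hU2c] at h5
    have e1 : (k * V + k * W) ^ 2 / (2 * t) =
        (k * V) ^ 2 / (2 * t) + (k * W) ^ 2 / (2 * t) + (V * W / t) * k ^ 2 := by
      field_simp
      ring
    have e2 : (k * V) / 2 + (k * V) / t + t / 2 + 1 + ((k * W) / 2 + (k * W) / t + t / 2 + 1) =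
        ((V + W) / 2 + (V + W) / t) * k + (t + 2) := by
      field_simp
      ring
    have e3 : (D * k : ℝ) * (d * k) = (D * d) * k ^ 2 := by ring
    linarith
  have h := quad_le main
  rw [div_le_iff₀ ht] at h
  linarith

end Pool.Agent.TH183.QT
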