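import Pool.Agent.TH183.QT.Transfer

set_option autoImplicit false

/-!
# Emptiness for a general germ from a computation modulo a prime
-/

namespace Pool.Agent.TH183.QT

open MvPolynomial (monomial)

theorem ent_eq {R : Type*} [CommRing R] (c : ℕ → R) (m : Fin 3 →₀ ℕ) (i j : ℕ) :
    ent c m i j = if m 0 ≤ i ∧ j ≤ m 1 then
      ((m 1).choose j : R) *
        PowerSeries.coeff (i - m 0) ((PowerSeries.X * PowerSeries.mk c) ^ (m 1 - j)) else 0 := by
  unfold ent
  rw [expand_monomial, ← Polynomial.C_pow, Polynomial.coeff_C_mul, add_comm (Polynomial.C _) _,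
    Polynomial.coeff_X_add_C_pow, PowerSeries.coeff_X_pow_mul']
  by_cases h1 : j ≤ m 1
  · by_cases h2 : m 0 ≤ i
    · rw [if_pos h2, if_pos ⟨h2, h1⟩]
      have e : (((m 1).choose j : ℕ) : PowerSeries R) = PowerSeries.C (((m 1).choose j : ℕ) : R) := by
        simp
      rw [e, mul_comm, PowerSeries.coeff_C_mul]
    · rw [if_neg h2, if_neg (by tauto)]
  · rw [if_neg (by tauto : ¬ (m 0 ≤ i ∧ j ≤ m 1)), Nat.choose_eq_zero_of_lt (by omega)]
    split_ifs <;> simp

/-- The matrix of the coefficients with exponents in a list. -/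
noncomputable def matL {R : Type*} [CommRing R] (c : ℕ → R) (d : ℕ) {n : ℕ} (rw : Fin n → ℕ × ℕ) :
    Matrix (Fin n) (exps d) R :=
  Matrix.of fun r m => ent c m.1 (rw r).1 (rw r).2

theorem matL_map {R S : Type*} [CommRing R] [CommRing S] (φ : R →+* S) (c : ℕ → R) (d : ℕ)
    {n : ℕ} (rw : Fin n → ℕ × ℕ) : (matL c d rw).map φ = matL (fun k => φ (c k)) d rw := by
  ext p m
  rw [Matrix.map_apply]
  exact map_ent φ c m.1 _ _

theorem exists_general_mod {d p n : ℕ} [Fact p.Prime] (rw : Fin n → ℕ × ℕ) (c0 : ℕ → ZMod p)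
    (L : Matrix (exps d) (Fin n) (ZMod p)) (h : L * matL c0 d rw = 1) :
    ∃ P : MvPolynomial ℕ ℂ, P ≠ 0 ∧ ∀ c : ℕ → ℂ, MvPolynomial.eval c P ≠ 0 →
      ∀ v : exps d → ℂ, (∀ r, ∑ m : exps d, v m * ent c m.1 (rw r).1 (rw r).2 = 0) → v = 0 := by
  classical
  obtain ⟨LZ, hLZ⟩ : ∃ LZ : Matrix (exps d) (Fin n) ℤ, LZ.map (Int.castRingHom (ZMod p)) = L := by
    refine ⟨Matrix.of fun m r => ((L m r).val : ℤ), ?_⟩
    ext m r
    simp
  obtain ⟨L2, hL2⟩ : ∃ L2 : Matrix (exps d) (Fin n) (MvPolynomial ℕ ℤ),
    L2 = LZ.map (MvPolynomial.C : ℤ →+* MvPolynomial ℕ ℤ) := ⟨_, rfl⟩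
  obtain ⟨M, hM⟩ : ∃ M : Matrix (exps d) (exps d) (MvPolynomial ℕ ℤ),
    M = L2 * matL (fun k => (MvPolynomial.X k : MvPolynomial ℕ ℤ)) d rw := ⟨_, rfl⟩
  obtain ⟨PZ, hPZ⟩ : ∃ PZ : MvPolynomial ℕ ℤ, PZ = M.det := ⟨_, rfl⟩
  have hev : ∀ {S : Type} [CommRing S] (c : ℕ → S),
      MvPolynomial.eval₂ (Int.castRingHom S) c PZ =
        (LZ.map (Int.castRingHom S) * matL c d rw).det := by
    intro S _ c
    have e1 : L2.map (MvPolynomial.eval₂Hom (Int.castRingHom S) c) =
        LZ.map (Int.castRingHom S) := by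
      ext i j
      rw [hL2, Matrix.map_apply, Matrix.map_apply, Matrix.map_apply, MvPolynomial.eval₂Hom_C]
    have e2 : (fun k => MvPolynomial.eval₂Hom (Int.castRingHom S) c
        (MvPolynomial.X k : MvPolynomial ℕ ℤ)) = c := by
      ext k
      rw [MvPolynomial.eval₂Hom_X']
    rw [← MvPolynomial.coe_eval₂Hom, hPZ, RingHom.map_det, RingHom.mapMatrix_apply, hM,
      Matrix.map_mul, matL_map, e1, e2]
  have hne : PZ ≠ 0 := by
    intro h0
    have h1 := hev c0
    rw [hLZ, h, Matrix.det_one, h0, MvPolynomial.eval₂_zero] at h1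
    exact zero_ne_one h1
  refine ⟨MvPolynomial.map (Int.castRingHom ℂ) PZ, fun h0 => hne ?_, fun c hc v hv => ?_⟩
  · apply MvPolynomial.map_injective (Int.castRingHom ℂ)
      (RingHom.injective_int (Int.castRingHom ℂ))
    rw [h0, map_zero]
  · rw [MvPolynomial.eval_map, hev c] at hc
    have h2 : (matL c d rw).mulVec v = 0 := by
      ext r
      rw [Matrix.mulVec, dotProduct, Pi.zero_apply, ← hv r]
      exact Finset.sum_congr rfl fun m _ => mul_comm _ _
    have h3 : (LZ.map (Int.castRingHom ℂ) * matL c d rw).mulVec v = 0 := by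
      rw [← Matrix.mulVec_mulVec, h2, Matrix.mulVec_zero]
    by_contra hv0
    exact hc (Matrix.exists_mulVec_eq_zero_iff.1 ⟨v, hv0, h3⟩)

/-! ### The computation -/

/-- Scalar product of two lists. -/
def dot : List ℕ → List ℕ → ℕ
  | a :: l, b :: l' => a * b + dot l l'
  | _, _ => 0

theorem dot_eq (l l' : List ℕ) : dot l l' =
    ∑ r ∈ Finset.range l'.length, l.getD r 0 * l'.getD r 0 := by
  induction l' generalizing l with
  | nil =>
    cases l <;> simp [dot]
  | cons b l' ih =>
    cases l with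
    | nil => simp [dot]
    | cons a l =>
      rw [dot, ih, List.length_cons, Finset.sum_range_succ']
      simp only [List.getD_cons_succ, List.getD_cons_zero]
      ring

/-- Truncated product of power series modulo `p`. -/
def conv (p n : ℕ) (a b : List ℕ) : List ℕ :=
  (List.range n).map fun k => dot (a.take (k + 1)) ((b.take (k + 1)).reverse) % p

/-- The powers of a power series modulo `p`. -/
def pws (p n : ℕ) (x : List ℕ) : ℕ → List ℕ
  | 0 => (List.range n).map fun k => if k = 0 then 1 else 0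
  | k + 1 => conv p n (pws p n x k) x

theorem pws_length (p n : ℕ) (x : List ℕ) (k : ℕ) : (pws p n x k).length = n := by
  cases k <;> simp [pws, conv]

theorem getD_conv {p n : ℕ} {a b : List ℕ} (ha : a.length = n) (hb : b.length = n) {k : ℕ}
    (hk : k < n) : (((conv p n a b).getD k 0 : ℕ) : ZMod p) =
      ∑ q ∈ Finset.HasAntidiagonal.antidiagonal k,
        ((a.getD q.1 0 : ℕ) : ZMod p) * ((b.getD q.2 0 : ℕ) : ZMod p) := by
  have h1 : (conv p n a b).getD k 0 =
      dot (a.take (k + 1)) ((b.take (k + 1)).reverse) % p := by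
    unfold conv
    rw [List.getD_eq_getElem _ _ (by simpa using hk)]
    simp
  rw [h1, ZMod.natCast_mod, dot_eq, Finset.Nat.sum_antidiagonal_eq_sum_range_succ_mk]
  have h2 : ((b.take (k + 1)).reverse).length = k + 1 := by
    rw [List.length_reverse, List.length_take]
    omega
  rw [h2]
  push_cast
  refine Finset.sum_congr rfl fun r hr => ?_
  rw [Finset.mem_range] at hr
  congr 2
  · rw [List.getD_eq_getElem _ _ (by rw [List.length_take]; omega), List.getElem_take,
      List.getD_eq_getElem _ _ (by omega)]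
  · rw [List.getD_eq_getElem _ _ (by rw [h2]; omega), List.getElem_reverse, List.getElem_take,
      List.getD_eq_getElem _ _ (by omega)]
    congr 1
    rw [List.length_take]
    omega

/-- The germ with given coefficients. -/
def germ (p : ℕ) (x : List ℕ) : ℕ → ZMod p := fun k => ((x.getD (k + 1) 0 : ℕ) : ZMod p)

theorem coeff_germ {p : ℕ} {x : List ℕ} (hx0 : x.getD 0 0 = 0) (i : ℕ) :
    PowerSeries.coeff i (PowerSeries.X * PowerSeries.mk (germ p x)) =
      ((x.getD i 0 : ℕ) : ZMod p) := by
  rcases i with _ | i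
  · rw [PowerSeries.coeff_zero_X_mul, hx0, Nat.cast_zero]
  · rw [PowerSeries.coeff_succ_X_mul, PowerSeries.coeff_mk]
    rfl

theorem coeff_pws {p n : ℕ} {x : List ℕ} (hx : x.length = n) (hx0 : x.getD 0 0 = 0) (k i : ℕ)
    (hi : i < n) :
    PowerSeries.coeff i ((PowerSeries.X * PowerSeries.mk (germ p x)) ^ k) =
      (((pws p n x k).getD i 0 : ℕ) : ZMod p) := by
  induction k generalizing i with
  | zero =>
    rw [pow_zero, PowerSeries.coeff_one, pws, List.getD_eq_getElem _ _ (by simpa using hi)]
    simp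
  | succ k ih =>
    rw [pow_succ, PowerSeries.coeff_mul, pws, getD_conv (pws_length p n x k) hx hi]
    refine Finset.sum_congr rfl fun q hq => ?_
    rw [Finset.HasAntidiagonal.mem_antidiagonal] at hq
    rw [ih q.1 (by omega), coeff_germ hx0]

/-- One entry of the matrix. -/
def entN (T : List (List ℕ)) (a b i j : ℕ) : ℕ :=
  if a ≤ i ∧ j ≤ b then b.choose j * (T.getD (b - j) []).getD (i - a) 0 else 0

/-- The table of powers. -/
def tabl (p n : ℕ) (x : List ℕ) (d : ℕ) : List (List ℕ) :=
  (List.range (d + 1)).map (pws p n x)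

theorem ent_entN {p n d : ℕ} {x : List ℕ} (hx : x.length = n) (hx0 : x.getD 0 0 = 0)
    (m : Fin 3 →₀ ℕ) (hm : m 1 ≤ d) (i j : ℕ) (hi : i < n) :
    ent (germ p x) m i j = ((entN (tabl p n x d) (m 0) (m 1) i j : ℕ) : ZMod p) := by
  rw [ent_eq, entN]
  split_ifs with h
  · rw [coeff_pws hx hx0 _ _ (by omega)]
    push_cast
    congr 3
    unfold tabl
    rw [List.getD_eq_getElem _ _ (by rw [List.length_map, List.length_range]; omega)]
    simp
  · simp

/-- The check: the list `L` of lists of rows is a left inverse modulo `p`. -/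
def chk (p n d : ℕ) (x : List ℕ) (rows : List (ℕ × ℕ)) (L : List (List (List ℕ))) : Bool :=
  let T := tabl p n x d
  (List.range (d + 1)).all fun b' => (List.range (d + 1 - b')).all fun a' =>
    let E := rows.map fun ij => entN T a' b' ij.1 ij.2
    (List.range (d + 1)).all fun b => (List.range (d + 1 - b)).all fun a =>
      dot ((L.getD b []).getD a []) E % p == if a = a' ∧ b = b' then 1 % p else 0

theorem chk_spec {p n d : ℕ} {x : List ℕ} {rows : List (ℕ × ℕ)} {L : List (List (List ℕ))}
    (h : chk p n d x rows L = true) {a b a' b' : ℕ} (hab : a + b ≤ d) (hab' : a' + b' ≤ d) :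
    dot ((L.getD b []).getD a []) (rows.map fun ij => entN (tabl p n x d) a' b' ij.1 ij.2) % p =
      if a = a' ∧ b = b' then 1 % p else 0 := by
  unfold chk at h
  simp only [List.all_eq_true, List.mem_range, beq_iff_eq] at h
  exact h b' (by omega) a' (by omega) b (by omega) a (by omega)

theorem degLE_of_chk {p n d : ℕ} [Fact p.Prime] {x : List ℕ} {rows : List (ℕ × ℕ)}
    {L : List (List (List ℕ))} (hx : x.length = n) (hx0 : x.getD 0 0 = 0)
    (h : chk p n d x rows L = true) {t B : ℝ}
    (hrows : ∀ ij ∈ rows, ij.1 < n ∧ (ij.1 : ℝ) + t * ij.2 ≤ B) : DegLE d t B := by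
  classical
  obtain ⟨P, hP, hP'⟩ := exists_general_mod (d := d) (p := p) (n := rows.length)
    (fun r => rows.get r) (germ p x)
    (Matrix.of fun m r => (((L.getD (m.1 1) []).getD (m.1 0) []).getD r.1 0 : ZMod p)) (by
      ext m m'
      have hm : m.1 0 + m.1 1 + m.1 2 = d := by
        have := mem_exps.1 m.2
        rwa [Finsupp.degree_eq_sum, Fin.sum_univ_three] at this
      have hm' : m'.1 0 + m'.1 1 + m'.1 2 = d := by
        have := mem_exps.1 m'.2
        rwa [Finsupp.degree_eq_sum, Fin.sum_univ_three] at this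
      have h1 := chk_spec h (a := m.1 0) (b := m.1 1) (a' := m'.1 0) (b' := m'.1 1)
        (by omega) (by omega)
      have h2 := congrArg (Nat.cast : ℕ → ZMod p) h1
      rw [ZMod.natCast_mod, dot_eq, List.length_map] at h2
      rw [Matrix.mul_apply, Matrix.one_apply]
      have h3 : ∑ r : Fin rows.length,
          (Matrix.of fun (m : exps d) (r : Fin rows.length) =>
            (((L.getD (m.1 1) []).getD (m.1 0) []).getD r.1 0 : ZMod p)) m r *
          matL (germ p x) d (fun r => rows.get r) r m' =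
          ∑ r ∈ Finset.range rows.length,
            ((((L.getD (m.1 1) []).getD (m.1 0) []).getD r 0 : ℕ) : ZMod p) *
            (((rows.map fun ij => entN (tabl p n x d) (m'.1 0) (m'.1 1) ij.1 ij.2).getD r 0 : ℕ) :
              ZMod p) := by
        rw [Finset.sum_range]
        refine Finset.sum_congr rfl fun r _ => ?_
        rw [Matrix.of_apply]
        congr 1
        rw [matL, Matrix.of_apply, ent_entN hx hx0 m'.1 (d := d) (by omega) _ _
          (hrows _ (List.get_mem rows r)).1]
        rw [List.getD_eq_getElem _ _ (by rw [List.length_map]; exact r.2), List.getElem_map]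
        rfl
      rw [h3]
      push_cast at h2
      rw [h2]
      by_cases hmm : m = m'
      · subst hmm
        simp
      · have hnc : ¬ (m.1 0 = m'.1 0 ∧ m.1 1 = m'.1 1) := by
          rintro ⟨e1, e2⟩
          apply hmm
          apply Subtype.ext
          ext k
          fin_cases k
          · exact e1
          · exact e2
          · show m.1 2 = m'.1 2
            omega
        rw [if_neg hmm, if_neg hnc])
  refine ⟨P, hP, fun c hc f hf hf0 => ?_⟩
  rw [valLE_iff hf]
  by_contra hcon
  push Not at hcon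
  apply hf0
  have h1 := hP' c hc (fun m => MvPolynomial.coeff m.1 f) (fun r => by
    by_contra h2
    have h3 := hcon _ _ h2
    have h4 := (hrows _ (List.get_mem rows r)).2
    exact absurd h4 (not_le.2 h3))
  exact form_eq_zero hf fun m => congrFun h1 m

end Pool.Agent.TH183.QT
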