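import Pool.Agent.TH183.QT.Seeds

set_option autoImplicit false

/-!
# The uniform bound
-/

namespace Pool.Agent.TH183.QT

/-- All bounds obtained by a list of steps. -/
def runchk : List Bd → List (Bd × ℕ) → Bool
  | _, [] => true
  | cons, (x, D) :: st => stepchk cons x D && runchk (x :: cons) st

theorem run_spec {c : ℕ → ℂ} (st : List (Bd × ℕ)) :
    ∀ cons : List Bd, (∀ y ∈ cons, Con c y) → runchk cons st = true →
      ∀ y ∈ st.map Prod.fst, Con c y := by
  induction st with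
  | nil =>
    intro cons _ _ y hy
    simp at hy
  | cons a st ih =>
    obtain ⟨x, D⟩ := a
    intro cons hcons h y hy
    rw [runchk, Bool.and_eq_true] at h
    have hx := step hcons h.1
    rw [List.map_cons, List.mem_cons] at hy
    rcases hy with rfl | hy
    · exact hx
    · refine ih (x :: cons) ?_ h.2 y hy
      intro z hz
      rcases List.mem_cons.1 hz with rfl | hz
      · exact hx
      · exact hcons z hz

/-- Consecutive bounds overlap, for the factor `K / L`. -/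
def covchk (K L : ℕ) : List Bd → Bool
  | y :: z :: l => z.pos && decide (z.k * z.p * L * L * y.q * y.k ≤ K * K * y.p * y.l * z.l * z.q) &&
      covchk K L (z :: l)
  | _ => true

theorem cov_spec {K L : ℕ} (hK : 0 < K) (hL : 0 < L) (l : List Bd) :
    ∀ y : Bd, y.pos = true → covchk K L (y :: l) = true → ∀ s : ℝ,
      (y.k : ℝ) / y.l * (y.p / y.q) ≤ (K / L) * s →
      (∀ z : Bd, (y :: l).getLast? = some z → (z.k : ℝ) / z.l * s ≤ (K / L) * (z.p / z.q)) →
      ∃ z ∈ y :: l, z.pos = true ∧ (z.k : ℝ) / z.l * (z.p / z.q) ≤ (K / L) * s ∧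
        (z.k : ℝ) / z.l * s ≤ (K / L) * (z.p / z.q) := by
  induction l with
  | nil =>
    intro y hy _ s h1 h2
    exact ⟨y, by simp, hy, h1, h2 y (by simp)⟩
  | cons z l ih =>
    intro y hy h s h1 h2
    rw [covchk, Bool.and_eq_true, Bool.and_eq_true, decide_eq_true_eq] at h
    obtain ⟨⟨hz, h3⟩, h4⟩ := h
    by_cases h5 : (y.k : ℝ) / y.l * s ≤ (K / L) * (y.p / y.q)
    · exact ⟨y, by simp, hy, h1, h5⟩
    · push Not at h5
      obtain ⟨hyp, hyq, hyk, hyl⟩ := Bd.pos_iff.1 hy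
      obtain ⟨hzp, hzq, hzk, hzl⟩ := Bd.pos_iff.1 hz
      have a1 : (0 : ℝ) < y.p := by exact_mod_cast hyp
      have a2 : (0 : ℝ) < y.q := by exact_mod_cast hyq
      have a3 : (0 : ℝ) < y.k := by exact_mod_cast hyk
      have a4 : (0 : ℝ) < y.l := by exact_mod_cast hyl
      have b1 : (0 : ℝ) < z.p := by exact_mod_cast hzp
      have b2 : (0 : ℝ) < z.q := by exact_mod_cast hzq
      have b3 : (0 : ℝ) < z.k := by exact_mod_cast hzk
      have b4 : (0 : ℝ) < z.l := by exact_mod_cast hzl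
      have c1 : (0 : ℝ) < K := by exact_mod_cast hK
      have c2 : (0 : ℝ) < L := by exact_mod_cast hL
      have h3' : (z.k : ℝ) * z.p * L * L * y.q * y.k ≤ K * K * y.p * y.l * z.l * z.q := by
        exact_mod_cast h3
      have h6 : (z.k : ℝ) / z.l * (z.p / z.q) ≤ (K / L) * s := by
        have h7 : (K / L : ℝ) * (y.p / y.q) * (y.l / y.k) < s := by
          have e : (y.k : ℝ) / y.l * s * (y.l / y.k) = s := by field_simp
          rw [← e]
          exact mul_lt_mul_of_pos_right h5 (by positivity)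
        have h8 : (z.k : ℝ) / z.l * (z.p / z.q) ≤
            (K / L) * ((K / L : ℝ) * (y.p / y.q) * (y.l / y.k)) := by
          have e1 : (z.k : ℝ) / z.l * (z.p / z.q) =
              ((z.k : ℝ) * z.p * L * L * y.q * y.k) / (z.l * z.q * L * L * y.q * y.k) := by
            field_simp
          have e2 : (K / L : ℝ) * ((K / L : ℝ) * (y.p / y.q) * (y.l / y.k)) =
              ((K : ℝ) * K * y.p * y.l * z.l * z.q) / (z.l * z.q * L * L * y.q * y.k) := by
            field_simp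
          rw [e1, e2, div_le_div_iff_of_pos_right (by positivity)]
          exact h3'
        exact h8.trans (mul_le_mul_of_nonneg_left h7.le (by positivity))
      obtain ⟨w, hw, hw'⟩ := ih z hz h4 s h6 (fun w hw => h2 w (by
        rw [List.getLast?_cons_cons]
        exact hw))
      exact ⟨w, List.mem_cons_of_mem _ hw, hw'⟩

/-- The seeds. -/
def seeds : List Bd := [⟨3, 1, 1, 1⟩, ⟨315, 104, 1, 1⟩, ⟨40, 13, 1, 1⟩, ⟨63, 20, 1, 1⟩, ⟨200, 63, 1, 1⟩]

/-- The steps. -/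
def steps : List (Bd × ℕ) := [
  (⟨6099, 2000, 1005746, 1000000⟩, 31),
  (⟨6101, 2000, 1005040, 1000000⟩, 37),
  (⟨3051, 1000, 1004904, 1000000⟩, 40),
  (⟨6187, 2000, 1005366, 1000000⟩, 37),
  (⟨1547, 500, 1004788, 1000000⟩, 43),
  (⟨6203, 2000, 1006998, 1000000⟩, 28),
  (⟨1551, 500, 1005911, 1000000⟩, 31),
  (⟨6217, 2000, 1007532, 1000000⟩, 27),
  (⟨311, 100, 1006177, 1000000⟩, 33),
  (⟨779, 250, 1006604, 1000000⟩, 28),
  (⟨6233, 2000, 1006598, 1000000⟩, 28),
  (⟨6241, 2000, 1007587, 1000000⟩, 25),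
  (⟨1249, 400, 1006751, 1000000⟩, 32),
  (⟨6249, 2000, 1005927, 1000000⟩, 38),
  (⟨391, 125, 1006094, 1000000⟩, 39),
  (⟨1561, 500, 1006397, 1000000⟩, 34),
  (⟨6241, 2000, 1006023, 1000000⟩, 38),
  (⟨1559, 500, 1006367, 1000000⟩, 35),
  (⟨3117, 1000, 1006616, 1000000⟩, 28),
  (⟨623, 200, 1006426, 1000000⟩, 35),
  (⟨6227, 2000, 1006059, 1000000⟩, 37),
  (⟨3107, 1000, 1005857, 1000000⟩, 39)]

/-- The cover of `[3, √10]`. -/
def cover : List Bd := [
  ⟨315, 104, 1, 1⟩,
  ⟨3051, 1000, 1004904, 1000000⟩,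
  ⟨40, 13, 1, 1⟩,
  ⟨1547, 500, 1004788, 1000000⟩,
  ⟨1551, 500, 1005911, 1000000⟩,
  ⟨3107, 1000, 1005857, 1000000⟩,
  ⟨311, 100, 1006177, 1000000⟩,
  ⟨6227, 2000, 1006059, 1000000⟩,
  ⟨623, 200, 1006426, 1000000⟩,
  ⟨779, 250, 1006604, 1000000⟩,
  ⟨6233, 2000, 1006598, 1000000⟩,
  ⟨3117, 1000, 1006616, 1000000⟩,
  ⟨1559, 500, 1006367, 1000000⟩,
  ⟨6241, 2000, 1006023, 1000000⟩,
  ⟨6249, 2000, 1005927, 1000000⟩,
  ⟨391, 125, 1006094, 1000000⟩,
  ⟨63, 20, 1, 1⟩]

set_option maxRecDepth 100000 in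
theorem run_ok : runchk seeds steps = true := by decide +kernel

set_option maxRecDepth 100000 in
theorem cover_ok : covchk 10067 10000 (⟨3, 1, 1, 1⟩ :: cover) = true := by decide +kernel

end Pool.Agent.TH183.QT
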