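import Pool.Agent.TH183.QT.Bez

set_option autoImplicit false

/-!
# A finite criterion
-/

namespace Pool.Agent.TH183.QT

/-- **The finite criterion.** If some form `F` of degree `D` has value at least `t D / μ` and all
forms of degree at most `D` have value at most `μ` times the degree, then so do all forms. -/
theorem criterion {c : ℕ → ℂ} {t μ V : ℝ} (ht : 0 < t) (hμ : 0 < μ) (hV0 : 0 < V) {D : ℕ}
    {F : MvPolynomial (Fin 3) ℂ} (hF : F.IsHomogeneous D) (hF0 : F ≠ 0)
    (hV : Vanish c t V F) (hVD : t * D ≤ μ * V)
    (small : ∀ d ≤ D, ∀ f : MvPolynomial (Fin 3) ℂ, f.IsHomogeneous d → f ≠ 0 →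
      ValLE c t f (μ * d)) :
    ∀ (d : ℕ) (f : MvPolynomial (Fin 3) ℂ), f.IsHomogeneous d → f ≠ 0 → ValLE c t f (μ * d) := by
  intro d
  induction d using Nat.strong_induction_on with
  | _ d ih =>
    intro f hf hf0
    rcases Nat.lt_or_ge D d with hDd | hDd
    · have hfu : ¬ IsUnit f := by
        intro hu
        rw [MvPolynomial.isUnit_iff_totalDegree_of_isReduced] at hu
        rw [hf.totalDegree hf0] at hu
        omega
      by_cases hirr : Irreducible f
      · by_contra hcon
        obtain ⟨W, hW1, hW2⟩ := exists_vanish ht hcon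
        have hW0 : 0 < W := lt_of_le_of_lt (by positivity) hW1
        have hndvd : ¬ f ∣ F := by
          rintro ⟨g, hg⟩
          have hg0 : g ≠ 0 := fun h => hF0 (by rw [hg, h, mul_zero])
          have h1 := hF.totalDegree hF0
          rw [hg, MvPolynomial.totalDegree_mul_of_isDomain hf0 hg0, hf.totalDegree hf0] at h1
          omega
        have hrel : IsRelPrime F f := by
          intro a haF haf
          obtain ⟨b, hb⟩ := haf
          rcases hirr.isUnit_or_isUnit hb with h1 | h1
          · exact h1
          · exfalso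
            apply hndvd
            obtain ⟨u, hu⟩ := h1
            have h2 : f ∣ a := ⟨↑u⁻¹, by rw [hb, ← hu, mul_assoc, Units.mul_inv, mul_one]⟩
            exact h2.trans haF
        have h1 := bezout ht hV0 hW0 hF hf hF0 hf0 hrel hV hW2
        have h2 : t * (D * d) ≤ V * (μ * d) := by
          have h3 : (0 : ℝ) ≤ d := Nat.cast_nonneg d
          calc t * (D * d) = (t * D) * d := by ring
            _ ≤ (μ * V) * d := mul_le_mul_of_nonneg_right hVD h3
            _ = V * (μ * d) := by ring
        have h3 : V * W ≤ V * (μ * d) := h1.trans h2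
        have h4 := le_of_mul_le_mul_left h3 hV0
        linarith
      · rw [irreducible_iff] at hirr
        push Not at hirr
        obtain ⟨a, b, hab, hau, hbu⟩ := hirr hfu
        have ha0 : a ≠ 0 := fun h => hf0 (by rw [hab, h, zero_mul])
        have hb0 : b ≠ 0 := fun h => hf0 (by rw [hab, h, mul_zero])
        have ha := homog_of_dvd hf hf0 (⟨b, hab⟩ : a ∣ f)
        have hb := homog_of_dvd hf hf0 (⟨a, by rw [hab, mul_comm]⟩ : b ∣ f)
        have hdeg := hf.totalDegree hf0
        rw [hab, MvPolynomial.totalDegree_mul_of_isDomain ha0 hb0] at hdeg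
        have ha1 : a.totalDegree ≠ 0 := by
          intro h
          apply hau
          rw [MvPolynomial.isUnit_iff_totalDegree_of_isReduced]
          refine ⟨?_, h⟩
          rw [h] at ha
          obtain ⟨m, hm⟩ := MvPolynomial.ne_zero_iff.1 ha0
          have hm0 : m.degree = 0 := by
            by_contra hcon
            exact hm (ha.coeff_eq_zero hcon)
          have hm1 : m = 0 := by
            rwa [Finsupp.degree_eq_zero_iff] at hm0
          rw [hm1] at hm
          exact isUnit_iff_ne_zero.2 hm
        have hb1 : b.totalDegree ≠ 0 := by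
          intro h
          apply hbu
          rw [MvPolynomial.isUnit_iff_totalDegree_of_isReduced]
          refine ⟨?_, h⟩
          rw [h] at hb
          obtain ⟨m, hm⟩ := MvPolynomial.ne_zero_iff.1 hb0
          have hm0 : m.degree = 0 := by
            by_contra hcon
            exact hm (hb.coeff_eq_zero hcon)
          have hm1 : m = 0 := by
            rwa [Finsupp.degree_eq_zero_iff] at hm0
          rw [hm1] at hm
          exact isUnit_iff_ne_zero.2 hm
        have h1 := ih a.totalDegree (by omega) a ha ha0
        have h2 := ih b.totalDegree (by omega) b hb hb0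
        have h3 := h1.mul ht h2
        rw [← hab] at h3
        refine h3.mono (le_of_eq ?_)
        rw [← mul_add, ← hdeg]
        push_cast
        rfl
    · exact small d hDd f hf hf0

/-- Forms of large value exist by counting. -/
theorem exists_curve {t V : ℝ} (c : ℕ → ℂ) {D : ℕ} (T : Finset (ℕ × ℕ))
    (hT : ∀ i j : ℕ, (i : ℝ) + t * j < V → (i, j) ∈ T) (hcard : T.card < (D + 2).choose 2) :
    ∃ F : MvPolynomial (Fin 3) ℂ, F.IsHomogeneous D ∧ F ≠ 0 ∧ Vanish c t V F := by
  have h1 := LinearMap.finrank_range_add_finrank_ker ((jet c T).domRestrict (Lf D))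
  have h2 : Module.finrank ℂ (LinearMap.range ((jet c T).domRestrict (Lf D))) ≤ T.card := by
    refine (Submodule.finrank_le _).trans ?_
    rw [Module.finrank_fintype_fun_eq_card, Fintype.card_coe]
  rw [finrank_Lf] at h1
  have h3 : LinearMap.ker ((jet c T).domRestrict (Lf D)) ≠ ⊥ := by
    intro h
    rw [h, finrank_bot] at h1
    omega
  obtain ⟨x, hx, hx0⟩ := (Submodule.ne_bot_iff _).1 h3
  refine ⟨x.1, mem_Lf.1 x.2, fun h => hx0 (Subtype.ext h), fun i j hij => ?_⟩
  exact congrFun (LinearMap.mem_ker.1 hx) ⟨(i, j), hT i j hij⟩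

end Pool.Agent.TH183.QT
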