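import Pool.Agent.TH183.QT.Shift

set_option autoImplicit false

/-!
# The transfer from the weight `σ` to the weight `ρ ^ 2 / σ`
-/

namespace Pool.Agent.TH183.QT

open MvPolynomial (monomial)

/-- A minimal element for the grading with weights `1, σ, σ - ρ` of `x, Y, C`. -/
theorem exists_min {g : ℕ → ℕ → ℕ → ℂ} {E : ℕ} {σ B τ : ℝ} (hσ : 0 < σ)
    (hE : ∀ e i j, E < e → g e i j = 0)
    (hg : ∀ e i j, g e i j ≠ 0 → ∃ i' j', g e i' j' ≠ 0 ∧ (i' : ℝ) + σ * j' ≤ B)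
    (h0 : ∃ e i j, g e i j ≠ 0) :
    ∃ e i j, g e i j ≠ 0 ∧ ∀ e' i' j', g e' i' j' ≠ 0 →
      (i : ℝ) + σ * j - τ * e ≤ (i' : ℝ) + σ * j' - τ * e' ∧
      ((i' : ℝ) + σ * j' - τ * e' = (i : ℝ) + σ * j - τ * e → (i' : ℝ) + σ * j' ≤ B) := by
  classical
  obtain ⟨e0, i0', j0', h0'⟩ := h0
  obtain ⟨i0, j0, h0, hB0⟩ := hg e0 i0' j0' h0'
  obtain ⟨s, hs⟩ : ∃ s : Finset (ℕ × ℕ × ℕ), s = (Finset.range (E + 1) ×ˢ
      (Finset.range (⌊B⌋₊ + 1) ×ˢ Finset.range (⌊B / σ⌋₊ + 1))).filter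
        (fun p => g p.1 p.2.1 p.2.2 ≠ 0 ∧ (p.2.1 : ℝ) + σ * p.2.2 ≤ B) := ⟨_, rfl⟩
  have hmem : ∀ e i j, g e i j ≠ 0 → (i : ℝ) + σ * j ≤ B → (e, i, j) ∈ s := by
    intro e i j h1 h2
    have h3 : (0 : ℝ) ≤ σ * j := by positivity
    have h4 : (0 : ℝ) ≤ i := Nat.cast_nonneg i
    rw [hs, Finset.mem_filter, Finset.mem_product, Finset.mem_product, Finset.mem_range,
      Finset.mem_range, Finset.mem_range]
    refine ⟨⟨?_, ?_, ?_⟩, h1, h2⟩
    · show e < E + 1
      by_contra hcon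
      exact h1 (hE e i j (by omega))
    · show i < ⌊B⌋₊ + 1
      have : i ≤ ⌊B⌋₊ := Nat.le_floor (by linarith)
      omega
    · show j < ⌊B / σ⌋₊ + 1
      have : j ≤ ⌊B / σ⌋₊ := Nat.le_floor (by rw [le_div_iff₀ hσ]; linarith)
      omega
  obtain ⟨⟨e, i, j⟩, hp, hmin⟩ := s.exists_min_image
    (fun p => (p.2.1 : ℝ) + σ * p.2.2 - τ * p.1) ⟨_, hmem e0 i0 j0 h0 hB0⟩
  have hp' : g e i j ≠ 0 := by
    rw [hs, Finset.mem_filter] at hp
    exact hp.2.1
  refine ⟨e, i, j, hp', fun e' i' j' h1 => ?_⟩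
  by_cases h2 : (i' : ℝ) + σ * j' ≤ B
  · have h3 := hmin _ (hmem e' i' j' h1 h2)
    exact ⟨h3, fun _ => h2⟩
  · push Not at h2
    obtain ⟨i'', j'', h3, h4⟩ := hg e' i' j' h1
    have h5 := hmin _ (hmem e' i'' j'' h3 h4)
    simp only at h5
    refine ⟨by linarith, fun h6 => ?_⟩
    exfalso
    linarith

/-- The key step: if no nonzero form of degree `d` over `ℂ` has value more than `B` for the
weight `σ` along a germ, then no nonzero form of degree `d` over `ℂ[C]` has value more than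
`ρ / σ * B` for the weight `ρ ^ 2 / σ` along the germ with `C * x ^ ρ` added. -/
theorem key {d ρ : ℕ} {σ B : ℝ} (hσ : 0 < σ) (hρ : σ ≤ ρ) (c0 : ℕ → ℂ)
    (h0 : ∀ v : exps d → ℂ, v ≠ 0 → ∃ i j : ℕ,
      ∑ m : exps d, v m * ent c0 m.1 i j ≠ 0 ∧ (i : ℝ) + σ * j ≤ B)
    (v : exps d → Polynomial ℂ) (hv : v ≠ 0) :
    ∃ i j : ℕ, ∑ m : exps d, v m * ent (fun k => Polynomial.C (c0 k) +
        if k + 1 = ρ then Polynomial.X else 0) m.1 i j ≠ 0 ∧
      (i : ℝ) + (ρ : ℝ) ^ 2 / σ * j ≤ ρ / σ * B := by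
  classical
  have hρ0 : 0 < ρ := by
    have : (0 : ℝ) < ρ := lt_of_lt_of_le hσ hρ
    exact_mod_cast this
  obtain ⟨g, hg⟩ : ∃ g : ℕ → ℕ → ℕ → ℂ, g = fun e i j =>
    ∑ m : exps d, (v m).coeff e * ent c0 m.1 i j := ⟨_, rfl⟩
  obtain ⟨E, hE⟩ : ∃ E : ℕ, ∀ m, (v m).natDegree ≤ E := by
    refine ⟨Finset.univ.sup fun m => (v m).natDegree, fun m => ?_⟩
    exact Finset.le_sup (f := fun m => (v m).natDegree) (Finset.mem_univ m)
  have hgE : ∀ e i j, E < e → g e i j = 0 := by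
    intro e i j he
    rw [hg]
    refine Finset.sum_eq_zero fun m _ => ?_
    rw [Polynomial.coeff_eq_zero_of_natDegree_lt (lt_of_le_of_lt (hE m) he), zero_mul]
  have hgB : ∀ e i j, g e i j ≠ 0 → ∃ i' j', g e i' j' ≠ 0 ∧ (i' : ℝ) + σ * j' ≤ B := by
    intro e i j h1
    have h2 : (fun m => (v m).coeff e) ≠ 0 := by
      intro h3
      apply h1
      rw [hg]
      refine Finset.sum_eq_zero fun m _ => ?_
      have := congrFun h3 m
      simp only [Pi.zero_apply] at this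
      rw [this, zero_mul]
    obtain ⟨i', j', h3, h4⟩ := h0 _ h2
    exact ⟨i', j', by rw [hg]; exact h3, h4⟩
  have hg0 : ∃ e i j, g e i j ≠ 0 := by
    obtain ⟨m, hm⟩ : ∃ m, v m ≠ 0 := by
      by_contra hcon
      push Not at hcon
      exact hv (funext hcon)
    obtain ⟨e, he⟩ : ∃ e, (v m).coeff e ≠ 0 := by
      by_contra hcon
      push Not at hcon
      exact hm (Polynomial.ext fun e => by rw [hcon e, Polynomial.coeff_zero])
    obtain ⟨i', j', h3, _⟩ := h0 (fun m => (v m).coeff e) (fun h => he (congrFun h m))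
    exact ⟨e, i', j', by rw [hg]; exact h3⟩
  obtain ⟨e, i, j, hne, hmin⟩ := exists_min (τ := ρ - σ) hσ hgE hgB hg0
  obtain ⟨n, hn⟩ : ∃ n, n = i + ρ * j := ⟨_, rfl⟩
  obtain ⟨s, hs⟩ : ∃ s, s = j + e := ⟨_, rfl⟩
  -- the polynomials over power series
  obtain ⟨G, hG⟩ : ∃ G : Polynomial (PowerSeries (Polynomial ℂ)), G =
    ∑ m : exps d, Polynomial.C (PowerSeries.C (v m)) *
      expand (fun k => Polynomial.C (c0 k)) (monomial m.1 (1 : Polynomial ℂ)) := ⟨_, rfl⟩
  have hGc : ∀ a b e', ((PowerSeries.coeff a (G.coeff b)) : Polynomial ℂ).coeff e' = g e' a b := by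
    intro a b e'
    rw [hG, hg, Polynomial.finsetSum_coeff, map_sum, Polynomial.finsetSum_coeff]
    refine Finset.sum_congr rfl fun m _ => ?_
    rw [Polynomial.coeff_C_mul, PowerSeries.coeff_C_mul]
    have e1 : PowerSeries.coeff a ((expand (fun k => Polynomial.C (c0 k))
        (monomial m.1 (1 : Polynomial ℂ))).coeff b) = Polynomial.C (ent c0 m.1 a b) := by
      rw [map_ent]
      rfl
    rw [e1, Polynomial.coeff_mul_C]
  obtain ⟨D, hD1, hD2⟩ : ∃ D, G.natDegree ≤ D ∧ s ≤ D :=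
    ⟨max G.natDegree s, le_max_left _ _, le_max_right _ _⟩
  obtain ⟨P, hP⟩ : ∃ P : Polynomial ℂ, P = ∑ b ∈ Finset.range (D + 1),
    if ρ * b ≤ n ∧ b ≤ s then Polynomial.monomial b (g (s - b) (n - ρ * b) b) else 0 := ⟨_, rfl⟩
  have hPc : ∀ b, P.coeff b = if ρ * b ≤ n ∧ b ≤ s then g (s - b) (n - ρ * b) b else 0 := by
    intro b
    rw [hP, Polynomial.finsetSum_coeff]
    by_cases hb : b ∈ Finset.range (D + 1)
    · rw [Finset.sum_eq_single b]
      · split_ifs
        · rw [Polynomial.coeff_monomial, if_pos rfl]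
        · rw [Polynomial.coeff_zero]
      · intro b' _ hb'
        split_ifs
        · rw [Polynomial.coeff_monomial, if_neg hb']
        · rw [Polynomial.coeff_zero]
      · intro h
        exact absurd hb h
    · rw [Finset.mem_range] at hb
      rw [if_neg (by omega)]
      refine Finset.sum_eq_zero fun b' hb' => ?_
      rw [Finset.mem_range] at hb'
      split_ifs
      · rw [Polynomial.coeff_monomial, if_neg (by omega)]
      · rw [Polynomial.coeff_zero]
  have hPj : P.coeff j = g e i j := by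
    rw [hPc, if_pos ⟨by omega, by omega⟩]
    congr 1
    · omega
    · omega
  have hP0 : P ≠ 0 := by
    intro h
    rw [h, Polynomial.coeff_zero] at hPj
    exact hne hPj.symm
  -- the exponents of `P`
  have hsupp : ∀ b, P.coeff b ≠ 0 → ρ * b ≤ n ∧ b ≤ s ∧ (n : ℝ) - (ρ - σ) * b ≤ B := by
    intro b hb
    rw [hPc] at hb
    split_ifs at hb with h1
    · refine ⟨h1.1, h1.2, ?_⟩
      have h2 := (hmin _ _ _ hb).2
      have e1 : (((n - ρ * b : ℕ) : ℕ) : ℝ) = (n : ℝ) - ρ * b := by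
        rw [Nat.cast_sub h1.1, Nat.cast_mul]
      have e2 : (((s - b : ℕ) : ℕ) : ℝ) = (s : ℝ) - b := by
        rw [Nat.cast_sub h1.2]
      have e3 : (n : ℝ) = (i : ℝ) + ρ * j := by
        rw [hn]
        push_cast
        ring
      have e4 : (s : ℝ) = (j : ℝ) + e := by
        rw [hs]
        push_cast
        ring
      rw [e1, e2] at h2
      have h3 := h2 (by rw [e3, e4]; ring)
      linarith
    · exact absurd rfl hb
  obtain ⟨k, hk, hk0⟩ := exists_taylor_coeff hP0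
  have hj1 := hsupp P.natDegree (by
    rw [← Polynomial.leadingCoeff]
    exact Polynomial.leadingCoeff_ne_zero.2 hP0)
  have hj0 := hsupp P.natTrailingDegree (by
    rw [← Polynomial.trailingCoeff]
    exact Polynomial.trailingCoeff_nonzero_iff_nonzero.2 hP0)
  have htr : P.natTrailingDegree ≤ P.natDegree := Polynomial.natTrailingDegree_le_natDegree P
  have hkj : k ≤ P.natDegree := by omega
  have hkn : ρ * k ≤ n := (Nat.mul_le_mul_left ρ hkj).trans hj1.1
  have hks : k ≤ s := hkj.trans hj1.2.1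
  have hPD : P.natDegree ≤ D := hj1.2.1.trans hD2
  refine ⟨n - ρ * k, k, ?_, ?_⟩
  · intro hzero
    apply hk0
    have e1 : ∑ m : exps d, v m * ent (fun k => Polynomial.C (c0 k) +
        if k + 1 = ρ then Polynomial.X else 0) m.1 (n - ρ * k) k =
        PowerSeries.coeff (n - ρ * k) ((G.comp (Polynomial.X + Polynomial.C
          (PowerSeries.C Polynomial.X * PowerSeries.X ^ ρ))).coeff k) := by
      rw [hG, Polynomial.sum_comp, Polynomial.finsetSum_coeff, map_sum]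
      refine Finset.sum_congr rfl fun m _ => ?_
      rw [Polynomial.mul_comp, Polynomial.C_comp, ← expand_shift _ _ hρ0, Polynomial.coeff_C_mul,
        PowerSeries.coeff_C_mul]
      rfl
    rw [hzero, coeff_comp_shift G _ hD1 hkn] at e1
    have e2 := congrArg (fun p : Polynomial ℂ => p.coeff (s - k)) e1
    simp only [Polynomial.coeff_zero, Polynomial.finsetSum_coeff] at e2
    rw [e2]
    rw [Polynomial.comp_eq_sum_left, Polynomial.sum_over_range' _ _ (D + 1) (by omega),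
      Polynomial.finsetSum_coeff]
    swap
    · intro b
      rw [Polynomial.C_0, zero_mul]
    refine Finset.sum_congr rfl fun b _ => ?_
    rw [Polynomial.coeff_C_mul, Polynomial.coeff_X_add_C_pow, one_pow, one_mul, hPc]
    by_cases h1 : k ≤ b
    · by_cases h2 : ρ * b ≤ n
      · rw [if_pos (⟨h1, h2⟩ : k ≤ b ∧ ρ * b ≤ n)]
        have e3 : ((b.choose k : ℕ) : Polynomial ℂ) = Polynomial.C ((b.choose k : ℕ) : ℂ) := by
          simp
        rw [e3, Polynomial.coeff_C_mul, Polynomial.coeff_X_pow_mul']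
        by_cases h3 : b ≤ s
        · rw [if_pos ⟨h2, h3⟩, if_pos (by omega), hGc, mul_comm]
          congr 2
          omega
        · rw [if_neg (by tauto), if_neg (by omega), mul_zero, zero_mul]
      · rw [if_neg (by tauto), if_neg (by tauto), zero_mul, Polynomial.coeff_zero]
    · rw [Nat.choose_eq_zero_of_lt (by omega), Nat.cast_zero, mul_zero,
        if_neg (by tauto : ¬ (k ≤ b ∧ ρ * b ≤ n)), Polynomial.coeff_zero]
  · obtain ⟨a, ha⟩ : ∃ a, a = P.natTrailingDegree := ⟨_, rfl⟩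
    obtain ⟨b, hb⟩ : ∃ b, b = P.natDegree := ⟨_, rfl⟩
    rw [← ha, ← hb] at hk htr
    rw [← hb] at hj1
    rw [← ha] at hj0
    have h1 : (k : ℝ) ≤ (b : ℝ) - a := by
      rw [← Nat.cast_sub htr]
      exact_mod_cast hk
    have h2 : (ρ : ℝ) * b ≤ n := by exact_mod_cast hj1.1
    have h3 : (n : ℝ) - (ρ - σ) * a ≤ B := hj0.2.2
    have e1 : (((n - ρ * k : ℕ) : ℕ) : ℝ) = (n : ℝ) - ρ * k := by
      rw [Nat.cast_sub hkn, Nat.cast_mul]
    rw [e1]
    have hρ' : (0 : ℝ) < ρ := by exact_mod_cast hρ0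
    have h4 : σ * ((n : ℝ) - ρ * k + (ρ : ℝ) ^ 2 / σ * k) ≤ ρ * B := by
      have e2 : σ * ((n : ℝ) - ρ * k + (ρ : ℝ) ^ 2 / σ * k) = σ * n + ρ * (ρ - σ) * k := by
        field_simp
        ring
      rw [e2]
      have h5 : (ρ : ℝ) * (ρ - σ) * k ≤ ρ * (ρ - σ) * (b - a) :=
        mul_le_mul_of_nonneg_left h1 (mul_nonneg hρ'.le (by linarith))
      have h6 : (ρ - σ) * (ρ * b) ≤ (ρ - σ) * n := mul_le_mul_of_nonneg_left h2 (by linarith)
      have h7 : (ρ : ℝ) * (n - (ρ - σ) * a) ≤ ρ * B := mul_le_mul_of_nonneg_left h3 hρ'.le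
      have h8 : (ρ : ℝ) * (ρ - σ) * (b - a) = (ρ - σ) * (ρ * b) - (ρ * (ρ - σ)) * a := by ring
      have h9 : (ρ : ℝ) * (n - (ρ - σ) * a) = (ρ - σ) * n + σ * n - (ρ * (ρ - σ)) * a := by ring
      linarith
    have h5 : ρ / σ * B = (ρ * B) / σ := by ring
    rw [h5, le_div_iff₀ hσ]
    linarith

end Pool.Agent.TH183.QT
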