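import Pool.Agent.TH183.QT.Transfer

set_option autoImplicit false

/-!
# Values of products, and factors of forms
-/

namespace Pool.Agent.TH183.QT

open MvPolynomial (monomial)

/-- The coefficient of `x ^ i * Y ^ j` in the expansion of `f`. -/
noncomputable def co (c : ℕ → ℂ) (f : MvPolynomial (Fin 3) ℂ) (i j : ℕ) : ℂ :=
  PowerSeries.coeff i ((expand c f).coeff j)

theorem co_def (c : ℕ → ℂ) (f : MvPolynomial (Fin 3) ℂ) (i j : ℕ) :
    co c f i j = PowerSeries.coeff i
      ((MvPolynomial.aeval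
        (![Polynomial.C PowerSeries.X,
           Polynomial.C (PowerSeries.X * PowerSeries.mk c) + Polynomial.X,
           1] : Fin 3 → Polynomial (PowerSeries ℂ)) f).coeff j) := rfl

theorem co_add (c : ℕ → ℂ) (f g : MvPolynomial (Fin 3) ℂ) (i j : ℕ) :
    co c (f + g) i j = co c f i j + co c g i j := by
  unfold co expand
  rw [map_add, Polynomial.coeff_add, map_add]

theorem co_smul (c : ℕ → ℂ) (a : ℂ) (f : MvPolynomial (Fin 3) ℂ) (i j : ℕ) :
    co c (a • f) i j = a * co c f i j := by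
  unfold co expand
  rw [map_smul, Polynomial.coeff_smul, PowerSeries.coeff_smul, smul_eq_mul]

theorem co_mul (c : ℕ → ℂ) (f g : MvPolynomial (Fin 3) ℂ) (i j : ℕ) :
    co c (f * g) i j = ∑ p ∈ Finset.HasAntidiagonal.antidiagonal j, ∑ q ∈ Finset.HasAntidiagonal.antidiagonal i,
      co c f q.1 p.1 * co c g q.2 p.2 := by
  unfold co expand
  rw [map_mul, Polynomial.coeff_mul, map_sum]
  refine Finset.sum_congr rfl fun p _ => ?_
  rw [PowerSeries.coeff_mul]

/-- All monomials of value less than `V` are missing in the expansion of `f`. -/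
def Vanish (c : ℕ → ℂ) (t V : ℝ) (f : MvPolynomial (Fin 3) ℂ) : Prop :=
  ∀ i j : ℕ, (i : ℝ) + t * j < V → co c f i j = 0

theorem Vanish.mul {c : ℕ → ℂ} {t V W : ℝ} {f g : MvPolynomial (Fin 3) ℂ}
    (hf : Vanish c t V f) (hg : Vanish c t W g) : Vanish c t (V + W) (f * g) := by
  intro i j hij
  rw [co_mul]
  refine Finset.sum_eq_zero fun p hp => Finset.sum_eq_zero fun q hq => ?_
  rw [Finset.HasAntidiagonal.mem_antidiagonal] at hp hq
  have h1 : ((q.1 : ℝ) + q.2) = i := by exact_mod_cast hq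
  have h2 : ((p.1 : ℝ) + p.2) = j := by exact_mod_cast hp
  by_cases h3 : (q.1 : ℝ) + t * p.1 < V
  · rw [hf _ _ h3, zero_mul]
  · rw [hg _ _ ?_, mul_zero]
    rw [← h1, ← h2] at hij
    nlinarith

theorem Vanish.pow {c : ℕ → ℂ} {t V : ℝ} {f : MvPolynomial (Fin 3) ℂ}
    (ht : 0 ≤ t) (hf : Vanish c t V f) (k : ℕ) : Vanish c t (k * V) (f ^ k) := by
  induction k with
  | zero =>
    intro i j hij
    exfalso
    rw [Nat.cast_zero, zero_mul] at hij
    have h1 : (0 : ℝ) ≤ i := Nat.cast_nonneg i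
    have h2 : (0 : ℝ) ≤ j := Nat.cast_nonneg j
    nlinarith
  | succ k ih =>
    rw [pow_succ]
    have := ih.mul hf
    have e : ((k + 1 : ℕ) : ℝ) * V = k * V + V := by
      push_cast
      ring
    rw [e]
    exact this

/-- Among the monomials of least value there is one with least exponent of `Y`. -/
theorem exists_least {c : ℕ → ℂ} {t A : ℝ} (ht : 0 < t) {f : MvPolynomial (Fin 3) ℂ}
    (h : ValLE c t f A) : ∃ i j : ℕ, co c f i j ≠ 0 ∧ (i : ℝ) + t * j ≤ A ∧
      ∀ i' j' : ℕ, co c f i' j' ≠ 0 → (i : ℝ) + t * j ≤ i' + t * j' ∧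
        ((i' : ℝ) + t * j' = i + t * j → j ≤ j') := by
  classical
  obtain ⟨T, hT⟩ := exists_finset ht A
  obtain ⟨i0, j0, h0, hA0⟩ := h
  obtain ⟨s, hs⟩ : ∃ s : Finset (ℕ × ℕ), s = T.filter (fun p => co c f p.1 p.2 ≠ 0) := ⟨_, rfl⟩
  have hne : s.Nonempty := ⟨(i0, j0), by
    rw [hs, Finset.mem_filter, hT]
    exact ⟨hA0, h0⟩⟩
  obtain ⟨p, hp, hpmin⟩ := s.exists_min_image (fun p => (p.1 : ℝ) + t * p.2) hne
  obtain ⟨s', hs'⟩ : ∃ s' : Finset (ℕ × ℕ), s' = s.filter
    (fun q => (q.1 : ℝ) + t * q.2 = (p.1 : ℝ) + t * p.2) := ⟨_, rfl⟩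
  obtain ⟨q, hq, hqmin⟩ := s'.exists_min_image (fun q => q.2) ⟨p, by
    rw [hs', Finset.mem_filter]
    exact ⟨hp, rfl⟩⟩
  rw [hs', Finset.mem_filter] at hq
  have hqs := hq.1
  rw [hs, Finset.mem_filter, hT] at hqs
  refine ⟨q.1, q.2, hqs.2, hqs.1, fun i' j' h' => ?_⟩
  by_cases hle : (i' : ℝ) + t * j' ≤ A
  · have hmem : ((i', j') : ℕ × ℕ) ∈ s := by
      rw [hs, Finset.mem_filter, hT]
      exact ⟨hle, h'⟩
    have h1 := hpmin _ hmem
    simp only at h1
    refine ⟨by rw [hq.2]; exact h1, fun h2 => ?_⟩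
    exact hqmin (i', j') (by
      rw [hs', Finset.mem_filter]
      exact ⟨hmem, h2.trans hq.2⟩)
  · push Not at hle
    refine ⟨by linarith [hqs.1], fun h2 => ?_⟩
    exfalso
    linarith [hqs.1]

theorem ValLE.mul {c : ℕ → ℂ} {t A B : ℝ} (ht : 0 < t) {f g : MvPolynomial (Fin 3) ℂ}
    (hf : ValLE c t f A) (hg : ValLE c t g B) : ValLE c t (f * g) (A + B) := by
  obtain ⟨i1, j1, h1, hA, hm1⟩ := exists_least ht hf
  obtain ⟨i2, j2, h2, hB, hm2⟩ := exists_least ht hg
  refine ⟨i1 + i2, j1 + j2, ?_, ?_⟩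
  · rw [← co_def, co_mul, Finset.sum_eq_single (j1, j2)]
    · rw [Finset.sum_eq_single (i1, i2)]
      · exact mul_ne_zero h1 h2
      · rintro ⟨a, b⟩ hab hne
        rw [Finset.HasAntidiagonal.mem_antidiagonal] at hab
        simp only at hab ⊢
        by_contra hcon
        have h3 := (hm1 a j1 (left_ne_zero_of_mul hcon)).1
        have h4 := (hm2 b j2 (right_ne_zero_of_mul hcon)).1
        have h5 : i1 ≤ a := by
          have : (i1 : ℝ) ≤ a := by linarith
          exact_mod_cast this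
        have h6 : i2 ≤ b := by
          have : (i2 : ℝ) ≤ b := by linarith
          exact_mod_cast this
        exact hne (by
          rw [Prod.mk.injEq]
          omega)
      · intro h
        exact (h (Finset.HasAntidiagonal.mem_antidiagonal.2 rfl)).elim
    · rintro ⟨a', b'⟩ hab' hne
      rw [Finset.HasAntidiagonal.mem_antidiagonal] at hab'
      simp only at hab'
      refine Finset.sum_eq_zero ?_
      rintro ⟨a, b⟩ hab
      rw [Finset.HasAntidiagonal.mem_antidiagonal] at hab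
      simp only at hab ⊢
      by_contra hcon
      obtain ⟨h3, h3'⟩ := hm1 a a' (left_ne_zero_of_mul hcon)
      obtain ⟨h4, h4'⟩ := hm2 b b' (right_ne_zero_of_mul hcon)
      have e1 : (a : ℝ) + b = i1 + i2 := by exact_mod_cast hab
      have e2 : (a' : ℝ) + b' = j1 + j2 := by exact_mod_cast hab'
      have e3 : ((a : ℝ) + t * a') + (b + t * b') = (i1 + t * j1) + (i2 + t * j2) := by
        linear_combination e1 + t * e2
      have h5 := h3' (by linarith)
      have h6 := h4' (by linarith)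
      exact hne (by
        rw [Prod.mk.injEq]
        omega)
    · intro h
      exact (h (Finset.HasAntidiagonal.mem_antidiagonal.2 rfl)).elim
  · push_cast
    linarith

theorem ValLE.mono {c : ℕ → ℂ} {t A B : ℝ} {f : MvPolynomial (Fin 3) ℂ}
    (hf : ValLE c t f A) (h : A ≤ B) : ValLE c t f B := by
  obtain ⟨i, j, h1, h2⟩ := hf
  exact ⟨i, j, h1, h2.trans h⟩

/-- If `v(f) ≤ A` fails, then all monomials of value less than some `W > A` are missing. -/
theorem exists_vanish {c : ℕ → ℂ} {t A : ℝ} (ht : 0 < t) {f : MvPolynomial (Fin 3) ℂ}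
    (h : ¬ ValLE c t f A) : ∃ W : ℝ, A < W ∧ Vanish c t W f := by
  by_cases h1 : ValLE c t f (A + 1)
  · obtain ⟨i, j, h2, _, h4⟩ := exists_least ht h1
    refine ⟨i + t * j, ?_, fun i' j' h5 => ?_⟩
    · by_contra hcon
      push Not at hcon
      exact h ⟨i, j, h2, hcon⟩
    · by_contra h6
      have := (h4 i' j' h6).1
      linarith
  · refine ⟨A + 1, by linarith, fun i' j' h5 => ?_⟩
    by_contra h6
    exact h1 ⟨i', j', h6, h5.le⟩

/-- Factors of forms are forms. -/
theorem homog_of_dvd {F G : MvPolynomial (Fin 3) ℂ} {n : ℕ} (hF : F.IsHomogeneous n)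
    (hF0 : F ≠ 0) (h : G ∣ F) : G.IsHomogeneous G.totalDegree := by
  obtain ⟨K, rfl⟩ := h
  have hG0 : G ≠ 0 := left_ne_zero_of_mul hF0
  have hK0 : K ≠ 0 := right_ne_zero_of_mul hF0
  have hle : ∀ P : MvPolynomial (Fin 3) ℂ, P ≠ 0 →
      (P : MvPowerSeries (Fin 3) ℂ).order ≤ P.totalDegree := by
    intro P hP
    obtain ⟨d, hd⟩ := MvPolynomial.ne_zero_iff.1 hP
    have h1 : (P : MvPowerSeries (Fin 3) ℂ).order ≤ (d.degree : ℕ∞) :=
      MvPowerSeries.order_le (by simpa using hd)
    refine h1.trans ?_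
    have h2 : d.degree ≤ P.totalDegree := by
      have := MvPolynomial.le_totalDegree (p := P) (s := d) (MvPolynomial.mem_support_iff.2 hd)
      simpa [Finsupp.degree_apply, Finsupp.sum] using this
    exact_mod_cast h2
  have hmul : ((G * K : MvPolynomial (Fin 3) ℂ) : MvPowerSeries (Fin 3) ℂ).order =
      (G : MvPowerSeries (Fin 3) ℂ).order + (K : MvPowerSeries (Fin 3) ℂ).order := by
    rw [MvPolynomial.coe_mul, MvPowerSeries.order_mul]
  have hFo : (n : ℕ∞) ≤ ((G * K : MvPolynomial (Fin 3) ℂ) : MvPowerSeries (Fin 3) ℂ).order := by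
    apply MvPowerSeries.nat_le_order
    intro d hd
    rw [MvPolynomial.coeff_coe]
    by_contra hne
    have := hF hne
    have h' : d.degree = n := by rw [← this, Finsupp.degree_eq_weight_one]; rfl
    omega
  have hT : (G * K).totalDegree = n := hF.totalDegree hF0
  rw [MvPolynomial.totalDegree_mul_of_isDomain hG0 hK0] at hT
  have hGo := hle G hG0
  have hKo := hle K hK0
  rw [hmul] at hFo
  intro d hd
  have h1 : (G : MvPowerSeries (Fin 3) ℂ).order ≤ (d.degree : ℕ∞) :=
      MvPowerSeries.order_le (by simpa using hd)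
  have h2 : d.degree ≤ G.totalDegree := by
      have := MvPolynomial.le_totalDegree (p := G) (s := d) (MvPolynomial.mem_support_iff.2 hd)
      simpa [Finsupp.degree_apply, Finsupp.sum] using this
  have h3 : (n : ℕ∞) ≤ (d.degree : ℕ∞) + (K.totalDegree : ℕ∞) := hFo.trans (add_le_add h1 hKo)
  have h4 : n ≤ d.degree + K.totalDegree := by exact_mod_cast h3
  have h5 : d.degree = G.totalDegree := by omega
  rw [← h5, Finsupp.degree_eq_weight_one]
  rfl

end Pool.Agent.TH183.QT
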