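import Pool.Agent.TH183.QT.Crit

set_option autoImplicit false

/-!
# Numerical steps
-/

namespace Pool.Agent.TH183.QT

/-- A rational bound: `(p, q, k, l)` stands for the bound `κ α d` for the weight `α ^ 2`, with
`α = p / q` and `κ = k / l`. -/
structure Bd where
  p : ℕ
  q : ℕ
  k : ℕ
  l : ℕ

/-- All forms satisfy the bound. -/
def Con (c : ℕ → ℂ) (x : Bd) : Prop :=
  ∀ (d : ℕ) (f : MvPolynomial (Fin 3) ℂ), f.IsHomogeneous d → f ≠ 0 →
    ∃ i j : ℕ, co c f i j ≠ 0 ∧ x.l * x.q ^ 2 * i + x.l * x.p ^ 2 * j ≤ x.k * x.p * x.q * d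

/-- Positivity of the entries. -/
def Bd.pos (x : Bd) : Bool := decide (0 < x.p) && decide (0 < x.q) && decide (0 < x.k) &&
  decide (0 < x.l)

theorem Bd.pos_iff {x : Bd} : x.pos = true ↔ 0 < x.p ∧ 0 < x.q ∧ 0 < x.k ∧ 0 < x.l := by
  unfold Bd.pos
  simp only [Bool.and_eq_true, decide_eq_true_eq]
  tauto

theorem real_iff {x : Bd} (hx : x.pos = true) (i j d : ℕ) :
    (i : ℝ) + ((x.p : ℝ) / x.q) ^ 2 * j ≤ ((x.k : ℝ) / x.l) * (x.p / x.q) * d ↔
      x.l * x.q ^ 2 * i + x.l * x.p ^ 2 * j ≤ x.k * x.p * x.q * d := by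
  obtain ⟨hp, hq, hk, hl⟩ := Bd.pos_iff.1 hx
  have hp' : (0 : ℝ) < x.p := by exact_mod_cast hp
  have hq' : (0 : ℝ) < x.q := by exact_mod_cast hq
  have hk' : (0 : ℝ) < x.k := by exact_mod_cast hk
  have hl' : (0 : ℝ) < x.l := by exact_mod_cast hl
  have e1 : (i : ℝ) + ((x.p : ℝ) / x.q) ^ 2 * j =
      (x.l * x.q ^ 2 * i + x.l * x.p ^ 2 * j) / (x.l * x.q ^ 2) := by
    field_simp
  have e2 : ((x.k : ℝ) / x.l) * (x.p / x.q) * d = (x.k * x.p * x.q * d) / (x.l * x.q ^ 2) := by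
    field_simp
  rw [e1, e2, div_le_div_iff_of_pos_right (by positivity)]
  exact_mod_cast Iff.rfl

theorem con_iff {c : ℕ → ℂ} {x : Bd} (hx : x.pos = true) :
    Con c x ↔ ∀ (d : ℕ) (f : MvPolynomial (Fin 3) ℂ), f.IsHomogeneous d → f ≠ 0 →
      ValLE c (((x.p : ℝ) / x.q) ^ 2) f (((x.k : ℝ) / x.l) * (x.p / x.q) * d) := by
  unfold Con ValLE
  refine forall_congr' fun d => forall_congr' fun f => forall_congr' fun _ =>
    forall_congr' fun _ => exists_congr fun i => exists_congr fun j => ?_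
  rw [real_iff hx]
  rfl

/-- The bound `y` implies the bound `x` for forms of degree `d`. -/
def okd (y x : Bd) (d : ℕ) : Bool :=
  (List.range (y.k * y.p * y.q * d / (y.l * y.p ^ 2) + 1)).all fun j =>
    decide (x.l * x.q ^ 2 * ((y.k * y.p * y.q * d - y.l * y.p ^ 2 * j) / (y.l * y.q ^ 2)) +
      x.l * x.p ^ 2 * j ≤ x.k * x.p * x.q * d)

theorem okd_spec {y x : Bd} {d : ℕ} (hy : y.pos = true) (h : okd y x d = true) {i j : ℕ}
    (hij : y.l * y.q ^ 2 * i + y.l * y.p ^ 2 * j ≤ y.k * y.p * y.q * d) :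
    x.l * x.q ^ 2 * i + x.l * x.p ^ 2 * j ≤ x.k * x.p * x.q * d := by
  obtain ⟨hp, hq, hk, hl⟩ := Bd.pos_iff.1 hy
  unfold okd at h
  simp only [List.all_eq_true, List.mem_range, decide_eq_true_eq] at h
  have h1 : 0 < y.l * y.p ^ 2 := by positivity
  have h2 : 0 < y.l * y.q ^ 2 := by positivity
  have h3 : j < y.k * y.p * y.q * d / (y.l * y.p ^ 2) + 1 := by
    rw [Nat.lt_succ_iff, Nat.le_div_iff_mul_le h1]
    rw [mul_comm j]
    omega
  have h4 := h j h3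
  have h5 : i ≤ (y.k * y.p * y.q * d - y.l * y.p ^ 2 * j) / (y.l * y.q ^ 2) := by
    rw [Nat.le_div_iff_mul_le h2, mul_comm i]
    omega
  have h6 := Nat.mul_le_mul_left (x.l * x.q ^ 2) h5
  omega

/-- The number of exponents with `k q ^ 2 i + k p ^ 2 j < p q l D`. -/
def cnt (x : Bd) (D : ℕ) : ℕ :=
  ((List.range (x.p * x.q * x.l * D / (x.k * x.p ^ 2) + 1)).map fun j =>
    (x.p * x.q * x.l * D - x.k * x.p ^ 2 * j + (x.k * x.q ^ 2 - 1)) / (x.k * x.q ^ 2)).sum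

theorem sum_range_list (f : ℕ → ℕ) (n : ℕ) :
    ∑ j ∈ Finset.range n, f j = ((List.range n).map f).sum := by
  induction n with
  | zero => simp
  | succ n ih =>
    rw [Finset.sum_range_succ, ih, List.range_succ, List.map_append, List.sum_append]
    simp

theorem exists_cnt {x : Bd} (hx : x.pos = true) (D : ℕ) :
    ∃ T : Finset (ℕ × ℕ), T.card ≤ cnt x D ∧
      ∀ i j : ℕ, (i : ℝ) + ((x.p : ℝ) / x.q) ^ 2 * j < (x.p : ℝ) * x.l * D / (x.q * x.k) →
        (i, j) ∈ T := by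
  classical
  obtain ⟨hp, hq, hk, hl⟩ := Bd.pos_iff.1 hx
  let S : Finset (Σ _ : ℕ, ℕ) :=
    (Finset.range (x.p * x.q * x.l * D / (x.k * x.p ^ 2) + 1)).sigma fun j => Finset.range
      ((x.p * x.q * x.l * D - x.k * x.p ^ 2 * j + (x.k * x.q ^ 2 - 1)) / (x.k * x.q ^ 2))
  refine ⟨S.image fun p => (p.2, p.1), ?_, fun i j h => ?_⟩
  · refine Finset.card_image_le.trans (le_of_eq ?_)
    rw [Finset.card_sigma, cnt]
    simp only [Finset.card_range]
    exact sum_range_list _ _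
  · rw [Finset.mem_image]
    refine ⟨⟨j, i⟩, ?_, rfl⟩
    have hp' : (0 : ℝ) < x.p := by exact_mod_cast hp
    have hq' : (0 : ℝ) < x.q := by exact_mod_cast hq
    have hk' : (0 : ℝ) < x.k := by exact_mod_cast hk
    have hl' : (0 : ℝ) < x.l := by exact_mod_cast hl
    have e1 : (i : ℝ) + ((x.p : ℝ) / x.q) ^ 2 * j =
        (x.k * x.q ^ 2 * i + x.k * x.p ^ 2 * j) / (x.k * x.q ^ 2) := by
      field_simp
    have e2 : (x.p : ℝ) * x.l * D / (x.q * x.k) = (x.p * x.q * x.l * D) / (x.k * x.q ^ 2) := by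
      field_simp
    rw [e1, e2, div_lt_div_iff_of_pos_right (by positivity)] at h
    have h' : x.k * x.q ^ 2 * i + x.k * x.p ^ 2 * j < x.p * x.q * x.l * D := by exact_mod_cast h
    have h1 : 0 < x.k * x.p ^ 2 := by positivity
    have h2 : 0 < x.k * x.q ^ 2 := by positivity
    rw [Finset.mem_sigma, Finset.mem_range, Finset.mem_range]
    constructor
    · show j < x.p * x.q * x.l * D / (x.k * x.p ^ 2) + 1
      rw [Nat.lt_succ_iff, Nat.le_div_iff_mul_le h1, mul_comm j]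
      omega
    · show i < (x.p * x.q * x.l * D - x.k * x.p ^ 2 * j + (x.k * x.q ^ 2 - 1)) / (x.k * x.q ^ 2)
      rw [← Nat.succ_le_iff, Nat.le_div_iff_mul_le h2, Nat.succ_mul, mul_comm i]
      omega

/-- The check of one step. -/
def stepchk (cons : List Bd) (x : Bd) (D : ℕ) : Bool :=
  x.pos && (cons.all fun y => y.pos) && decide (0 < D) &&
    ((List.range (D + 1)).all fun d => cons.any fun y => okd y x d) &&
    decide (cnt x D < (D + 2).choose 2)

/-- **One numerical step.** -/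
theorem step {c : ℕ → ℂ} {cons : List Bd} {x : Bd} {D : ℕ} (hcons : ∀ y ∈ cons, Con c y)
    (h : stepchk cons x D = true) : Con c x := by
  unfold stepchk at h
  simp only [Bool.and_eq_true, decide_eq_true_eq, List.all_eq_true, List.any_eq_true,
    List.mem_range] at h
  obtain ⟨⟨⟨⟨hx, hpos⟩, hD⟩, hall⟩, hcnt⟩ := h
  obtain ⟨hp, hq, hk, hl⟩ := Bd.pos_iff.1 hx
  have hp' : (0 : ℝ) < x.p := by exact_mod_cast hp
  have hq' : (0 : ℝ) < x.q := by exact_mod_cast hq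
  have hk' : (0 : ℝ) < x.k := by exact_mod_cast hk
  have hl' : (0 : ℝ) < x.l := by exact_mod_cast hl
  have hD' : (0 : ℝ) < D := by exact_mod_cast hD
  rw [con_iff hx]
  obtain ⟨T, hT1, hT2⟩ := exists_cnt hx D
  obtain ⟨F, hF, hF0, hFV⟩ := exists_curve c (D := D) T hT2 (lt_of_le_of_lt hT1 hcnt)
  refine criterion (V := (x.p : ℝ) * x.l * D / (x.q * x.k)) (by positivity) (by positivity)
    (by positivity) hF hF0 hFV (le_of_eq ?_) ?_
  · field_simp
  · intro d hd f hf hf0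
    obtain ⟨y, hy, hyd⟩ := hall d (by omega)
    obtain ⟨i, j, h1, h2⟩ := hcons y hy d f hf hf0
    exact ⟨i, j, h1, (real_iff hx i j d).2 (okd_spec (hpos y hy) hyd h2)⟩

/-- The bound at one weight gives bounds at near weights. -/
theorem Con.near {c : ℕ → ℂ} {y : Bd} (hy : y.pos = true) (h : Con c y) {κ s : ℝ} (hs : 0 < s) (h1 : (y.k : ℝ) / y.l * (y.p / y.q) ≤ κ * s)
    (h2 : (y.k : ℝ) / y.l * s ≤ κ * (y.p / y.q)) (d : ℕ) (f : MvPolynomial (Fin 3) ℂ)
    (hf : f.IsHomogeneous d) (hf0 : f ≠ 0) : ValLE c (s ^ 2) f (κ * (d * s)) := by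
  obtain ⟨hp, hq, hk, hl⟩ := Bd.pos_iff.1 hy
  have hp' : (0 : ℝ) < y.p := by exact_mod_cast hp
  have hq' : (0 : ℝ) < y.q := by exact_mod_cast hq
  have hk' : (0 : ℝ) < y.k := by exact_mod_cast hk
  have hl' : (0 : ℝ) < y.l := by exact_mod_cast hl
  obtain ⟨i, j, h3, h4⟩ := (con_iff hy).1 h d f hf hf0
  refine ⟨i, j, h3, ?_⟩
  obtain ⟨α, hα⟩ : ∃ α : ℝ, α = y.p / y.q := ⟨_, rfl⟩
  obtain ⟨μ, hμ⟩ : ∃ μ : ℝ, μ = y.k / y.l := ⟨_, rfl⟩
  rw [← hα, ← hμ] at h1 h2 h4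
  have hα0 : 0 < α := by rw [hα]; positivity
  have hμ0 : 0 < μ := by rw [hμ]; positivity
  have hd : (0 : ℝ) ≤ d := Nat.cast_nonneg d
  have hi : (0 : ℝ) ≤ i := Nat.cast_nonneg i
  have hj : (0 : ℝ) ≤ j := Nat.cast_nonneg j
  rcases le_total s α with h5 | h5
  · have h6 : s ^ 2 * j ≤ α ^ 2 * j := by
      refine mul_le_mul_of_nonneg_right ?_ hj
      nlinarith
    have h7 : μ * α * d ≤ κ * s * d := mul_le_mul_of_nonneg_right h1 hd
    have h8 : κ * s * d = κ * (d * s) := by ring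
    linarith
  · -- `s ≥ α`
    have h6 : α ^ 2 * (i + s ^ 2 * j) ≤ s ^ 2 * (i + α ^ 2 * j) := by
      have h7 : α ^ 2 * i ≤ s ^ 2 * i := by
        refine mul_le_mul_of_nonneg_right ?_ hi
        nlinarith
      nlinarith
    have h7 : s ^ 2 * (i + α ^ 2 * j) ≤ s ^ 2 * (μ * α * d) :=
      mul_le_mul_of_nonneg_left h4 (by positivity)
    have h8 : s ^ 2 * (μ * α * d) = (μ * s) * (α * s * d) := by ring
    have h9 : (μ * s) * (α * s * d) ≤ (κ * α) * (α * s * d) :=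
      mul_le_mul_of_nonneg_right h2 (by positivity)
    have h10 : (κ * α) * (α * s * d) = α ^ 2 * (κ * (d * s)) := by ring
    have h11 : α ^ 2 * (i + s ^ 2 * j) ≤ α ^ 2 * (κ * (d * s)) := by linarith
    exact le_of_mul_le_mul_left h11 (by positivity)

end Pool.Agent.TH183.QT
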