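import Pool.Agent.TH183.QT.Num
import Pool.Agent.TH183.QT.Quintic

set_option autoImplicit false

/-!
# Exact values
-/

namespace Pool.Agent.TH183.QT

theorem con_of_nearMinimal {p q : ℕ} (hp : 0 < p) (hq : 0 < q)
    (h : NearMinimal 1 (((p : ℝ) / q) ^ 2)) :
    ∃ S : ℕ → MvPolynomial ℕ ℂ, (∀ k, S k ≠ 0) ∧
      ∀ c : ℕ → ℂ, (∀ k, MvPolynomial.eval c (S k) ≠ 0) → Con c ⟨p, q, 1, 1⟩ := by
  obtain ⟨S, hS, hS'⟩ := h
  refine ⟨S, hS, fun c hc => ?_⟩
  rw [con_iff (by rw [Bd.pos_iff]; exact ⟨hp, hq, one_pos, one_pos⟩)]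
  intro d f hf hf0
  have h1 := hS' c hc d f hf hf0
  refine h1.mono (le_of_eq ?_)
  have hp' : (0 : ℝ) < p := by exact_mod_cast hp
  have hq' : (0 : ℝ) < q := by exact_mod_cast hq
  rw [Real.sqrt_sq (by positivity)]
  simp only [Nat.cast_one]
  ring

theorem nm_one : NearMinimal 1 1 := by
  rw [nearMinimal_iff one_pos]
  intro d
  refine degLE_of_germ one_pos (fun _ => 0) fun f hf hf0 => ?_
  obtain ⟨m, hm⟩ := MvPolynomial.ne_zero_iff.1 hf0
  have hdeg : m 0 + m 1 + m 2 = d := by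
    by_contra hcon
    refine hm (hf.coeff_eq_zero ?_)
    rw [Finsupp.degree_eq_sum, Fin.sum_univ_three]
    exact hcon
  have hmem : m ∈ exps d := by
    rw [mem_exps, Finsupp.degree_eq_sum, Fin.sum_univ_three]
    exact hdeg
  rw [valLE_iff hf]
  refine ⟨m 0, m 1, ?_, ?_⟩
  · rw [Finset.sum_eq_single ⟨m, hmem⟩]
    · have e : PowerSeries.mk (fun _ : ℕ => (0 : ℂ)) = 0 := by
        ext k
        simp
      rw [ent_eq, if_pos ⟨le_refl _, le_refl _⟩, Nat.choose_self, Nat.sub_self, Nat.sub_self,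
        pow_zero]
      simpa using hm
    · intro m' _ hne
      have hm' : m'.1 0 + m'.1 1 + m'.1 2 = d := by
        have := mem_exps.1 m'.2
        rwa [Finsupp.degree_eq_sum, Fin.sum_univ_three] at this
      rw [ent_eq]
      by_cases h1 : m'.1 0 ≤ m 0 ∧ m 1 ≤ m'.1 1
      · have e : PowerSeries.mk (fun _ : ℕ => (0 : ℂ)) = 0 := by
          ext k
          simp
        rw [if_pos h1, e, mul_zero]
        rcases Nat.eq_zero_or_pos (m'.1 1 - m 1) with h2 | h2
        · -- equal exponents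
          have h3 : m'.1 1 = m 1 := by omega
          have h4 : ¬ (m 0 - m'.1 0 = 0) := by
            intro h4
            apply hne
            apply Subtype.ext
            ext k
            fin_cases k
            · show m'.1 0 = m 0
              omega
            · exact h3
            · show m'.1 2 = m 2
              omega
          rw [h2, pow_zero, PowerSeries.coeff_one, if_neg h4, mul_zero, mul_zero]
        · rw [zero_pow (by omega), map_zero, mul_zero, mul_zero]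
      · rw [if_neg h1, mul_zero]
    · intro h
      exact absurd (Finset.mem_univ _) h
  · have h1 : m 0 + m 1 ≤ d := by omega
    have h2 : ((m 0 : ℕ) : ℝ) + (m 1 : ℕ) ≤ d := by exact_mod_cast h1
    rw [Real.sqrt_one]
    linarith

theorem nm_step {σ t : ℝ} (ρ : ℕ) (h : NearMinimal 1 σ) (hσ : 0 < σ) (hρ : σ ≤ ρ)
    (ht : (ρ : ℝ) ^ 2 / σ = t) : NearMinimal 1 t := by
  rw [← ht]
  exact nearMinimal_transfer hσ hρ h

theorem nm_9 : NearMinimal 1 9 := nm_step 3 nm_one one_pos (by norm_num) (by norm_num)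

theorem nm_4 : NearMinimal 1 4 := nm_step 2 nm_one one_pos (by norm_num) (by norm_num)

theorem nm_5_2 : NearMinimal 1 (25 / 4) := nm_step 5 nm_4 (by norm_num) (by norm_num) (by norm_num)

theorem nm_14_5 : NearMinimal 1 (196 / 25) :=
  nm_step 7 nm_5_2 (by norm_num) (by norm_num) (by norm_num)

theorem nm_20_7 : NearMinimal 1 (400 / 49) :=
  nm_step 8 nm_14_5 (by norm_num) (by norm_num) (by norm_num)

theorem nm_63_20 : NearMinimal 1 (3969 / 400) :=
  nm_step 9 nm_20_7 (by norm_num) (by norm_num) (by norm_num)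

theorem nm_200_63 : NearMinimal 1 (40000 / 3969) :=
  nm_step 10 nm_63_20 (by norm_num) (by norm_num) (by norm_num)

/-- The seed `13 / 5`. -/
theorem con_13_5 {c : ℕ → ℂ} (h1 : Con c ⟨5, 2, 1, 1⟩)
    (h2 : ∀ f : MvPolynomial (Fin 3) ℂ, f.IsHomogeneous 5 → f ≠ 0 → ValLE c (169 / 25) f 13) :
    Con c ⟨13, 5, 1, 1⟩ := by
  have hpos : (⟨13, 5, 1, 1⟩ : Bd).pos = true := rfl
  rw [con_iff hpos]
  obtain ⟨T, hT1, hT2⟩ := exists_cnt hpos 5
  have hcnt : cnt ⟨13, 5, 1, 1⟩ 5 < (5 + 2).choose 2 := by decide +kernel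
  obtain ⟨F, hF, hF0, hFV⟩ := exists_curve c (D := 5) T hT2 (lt_of_le_of_lt hT1 hcnt)
  refine criterion (by norm_num) (by norm_num) (by norm_num) hF hF0 hFV (by norm_num) ?_
  intro d hd f hf hf0
  rcases Nat.lt_or_ge d 5 with h5 | h5
  · obtain ⟨i, j, h3, h4⟩ := h1 d f hf hf0
    refine ⟨i, j, h3, (real_iff hpos i j d).2 ?_⟩
    refine okd_spec (y := ⟨5, 2, 1, 1⟩) rfl ?_ h4
    interval_cases d <;> decide +kernel
  · have h6 : d = 5 := by omega
    subst h6
    have h7 := h2 f hf hf0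
    have e1 : (((13 : ℕ) : ℝ) / ((5 : ℕ) : ℝ)) ^ 2 = 169 / 25 := by norm_num
    rw [e1]
    exact h7.mono (by norm_num)

theorem nm_13_5 : NearMinimal 1 (169 / 25) := by
  have e0 : (25 / 4 : ℝ) = (((5 : ℕ) : ℝ) / ((2 : ℕ) : ℝ)) ^ 2 := by norm_num
  have h := nm_5_2
  rw [e0] at h
  obtain ⟨S, hS, hS'⟩ := con_of_nearMinimal (by norm_num) (by norm_num) h
  obtain ⟨P, hP, hP'⟩ := quintic
  obtain ⟨c, hc⟩ := exists_common (fun k => S k * P) fun k => mul_ne_zero (hS k) hP
  have hc1 : ∀ k, MvPolynomial.eval c (S k) ≠ 0 := fun k h0 => hc k (by rw [map_mul, h0, zero_mul])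
  have hc2 : MvPolynomial.eval c P ≠ 0 := fun h0 => hc 0 (by rw [map_mul, h0, mul_zero])
  have h1 := con_13_5 (hS' c hc1) (hP' c hc2)
  rw [con_iff rfl] at h1
  rw [nearMinimal_iff (by norm_num)]
  intro d
  refine degLE_of_germ (by norm_num) c fun f hf hf0 => ?_
  have h2 := h1 d f hf hf0
  have e1 : (((13 : ℕ) : ℝ) / ((5 : ℕ) : ℝ)) ^ 2 = 169 / 25 := by norm_num
  rw [e1] at h2
  refine h2.mono (le_of_eq ?_)
  have e2 : Real.sqrt (169 / 25) = 13 / 5 := by
    rw [show (169 / 25 : ℝ) = (13 / 5) ^ 2 by norm_num, Real.sqrt_sq (by norm_num)]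
  rw [e2]
  push_cast
  ring

theorem nm_40_13 : NearMinimal 1 (1600 / 169) :=
  nm_step 8 nm_13_5 (by norm_num) (by norm_num) (by norm_num)

theorem nm_35_13 : NearMinimal 1 (1225 / 169) :=
  nm_step 7 nm_13_5 (by norm_num) (by norm_num) (by norm_num)

theorem nm_104_35 : NearMinimal 1 (10816 / 1225) :=
  nm_step 8 nm_35_13 (by norm_num) (by norm_num) (by norm_num)

theorem nm_315_104 : NearMinimal 1 (99225 / 10816) :=
  nm_step 9 nm_104_35 (by norm_num) (by norm_num) (by norm_num)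

end Pool.Agent.TH183.QT
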