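import Pool.Agent.TH183.QT.Basic

set_option autoImplicit false

/-!
# Adding a multiple of `x ^ ρ` to a germ
-/

namespace Pool.Agent.TH183.QT

open MvPolynomial (monomial)

theorem expand_shift {R : Type*} [CommRing R] (c : ℕ → R) (r : R) {ρ : ℕ} (hρ : 0 < ρ)
    (m : Fin 3 →₀ ℕ) :
    expand (fun k => c k + if k + 1 = ρ then r else 0) (monomial m (1 : R)) =
      (expand c (monomial m (1 : R))).comp
        (Polynomial.X + Polynomial.C (PowerSeries.C r * PowerSeries.X ^ ρ)) := by
  have h : PowerSeries.X * PowerSeries.mk (fun k => c k + if k + 1 = ρ then r else 0) =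
      PowerSeries.X * PowerSeries.mk c + PowerSeries.C r * PowerSeries.X ^ ρ := by
    ext n
    rw [map_add]
    rcases n with _ | n
    · rw [PowerSeries.coeff_zero_X_mul, PowerSeries.coeff_zero_X_mul, PowerSeries.coeff_C_mul,
        PowerSeries.coeff_X_pow, if_neg (by omega)]
      simp
    · rw [PowerSeries.coeff_succ_X_mul, PowerSeries.coeff_succ_X_mul, PowerSeries.coeff_mk,
        PowerSeries.coeff_mk, PowerSeries.coeff_C_mul, PowerSeries.coeff_X_pow]
      split_ifs <;> simp
  rw [expand_monomial, expand_monomial, h]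
  simp only [Polynomial.mul_comp, Polynomial.pow_comp, Polynomial.C_comp, Polynomial.add_comp,
    Polynomial.X_comp]
  congr 2
  rw [Polynomial.C_add]
  ring

theorem coeff_comp_shift {R : Type*} [CommRing R] (G : Polynomial (PowerSeries R)) (r : R)
    {ρ k n D : ℕ} (hD : G.natDegree ≤ D) (hk : ρ * k ≤ n) :
    PowerSeries.coeff (n - ρ * k) ((G.comp
        (Polynomial.X + Polynomial.C (PowerSeries.C r * PowerSeries.X ^ ρ))).coeff k) =
      ∑ j ∈ Finset.range (D + 1), if k ≤ j ∧ ρ * j ≤ n then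
        (j.choose k : R) * (r ^ (j - k) * PowerSeries.coeff (n - ρ * j) (G.coeff j)) else 0 := by
  rw [Polynomial.comp_eq_sum_left, Polynomial.sum_over_range' _ _ (D + 1) (by omega),
    Polynomial.finsetSum_coeff, map_sum]
  swap
  · intro j
    rw [Polynomial.C_0, zero_mul]
  refine Finset.sum_congr rfl fun j _ => ?_
  rw [Polynomial.coeff_C_mul, Polynomial.coeff_X_add_C_pow]
  by_cases h1 : k ≤ j
  · have e1 : (PowerSeries.C r * PowerSeries.X ^ ρ : PowerSeries R) ^ (j - k) =
        PowerSeries.C (r ^ (j - k)) * PowerSeries.X ^ (ρ * (j - k)) := by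
      rw [mul_pow, ← map_pow, ← pow_mul]
    have e2 : G.coeff j * ((PowerSeries.C r * PowerSeries.X ^ ρ) ^ (j - k) *
        ((j.choose k : ℕ) : PowerSeries R)) =
        PowerSeries.C ((j.choose k : R) * r ^ (j - k)) *
          (G.coeff j * PowerSeries.X ^ (ρ * (j - k))) := by
      rw [e1, map_mul, map_natCast]
      ring
    rw [e2, PowerSeries.coeff_C_mul, PowerSeries.coeff_mul_X_pow']
    have e3 : ρ * (j - k) = ρ * j - ρ * k := Nat.mul_sub _ _ _
    have e4 : ρ * k ≤ ρ * j := Nat.mul_le_mul_left ρ h1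
    by_cases h2 : ρ * j ≤ n
    · rw [if_pos (by omega), if_pos ⟨h1, h2⟩, mul_assoc]
      congr 4
      omega
    · rw [if_neg (by omega), if_neg (by tauto), mul_zero]
  · rw [Nat.choose_eq_zero_of_lt (by omega), Nat.cast_zero, mul_zero, mul_zero, map_zero,
      if_neg (by tauto)]

/-- A nonzero polynomial vanishes at `1` to order at most the length of its support. -/
theorem exists_taylor_coeff {P : Polynomial ℂ} (hP : P ≠ 0) :
    ∃ k ≤ P.natDegree - P.natTrailingDegree,
      (P.comp (Polynomial.X + Polynomial.C 1)).coeff k ≠ 0 := by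
  by_contra hcon
  push Not at hcon
  obtain ⟨a, ha⟩ : ∃ a, a = P.natTrailingDegree := ⟨_, rfl⟩
  obtain ⟨b, hb⟩ : ∃ b, b = P.natDegree := ⟨_, rfl⟩
  rw [← ha, ← hb] at hcon
  have h0 : Polynomial.X ^ a ∣ P := by
    rw [Polynomial.X_pow_dvd_iff]
    intro d hd
    exact Polynomial.coeff_eq_zero_of_lt_natTrailingDegree (by omega)
  obtain ⟨Q, hQ⟩ := h0
  have hQ0 : Q ≠ 0 := fun h => hP (by rw [hQ, h, mul_zero])
  have h1 : (Polynomial.X - Polynomial.C (1 : ℂ)) ^ (b - a + 1) ∣ P := by
    rw [Polynomial.X_sub_C_pow_dvd_iff, Polynomial.X_pow_dvd_iff]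
    intro d hd
    exact hcon d (by omega)
  have h2 : IsCoprime ((Polynomial.X - Polynomial.C (1 : ℂ)) ^ (b - a + 1))
      (Polynomial.X ^ a) := by
    refine IsCoprime.pow ?_
    refine ⟨-1, 1, ?_⟩
    rw [Polynomial.C_1]
    ring
  have h3 : (Polynomial.X - Polynomial.C (1 : ℂ)) ^ (b - a + 1) ∣ Q := by
    rw [hQ] at h1
    exact h2.dvd_of_dvd_mul_left h1
  have h4 := Polynomial.natDegree_le_of_dvd h3 hQ0
  rw [Polynomial.natDegree_pow, Polynomial.natDegree_X_sub_C, mul_one] at h4
  have h5 : b = a + Q.natDegree := by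
    rw [hb, hQ, Polynomial.natDegree_mul (pow_ne_zero _ Polynomial.X_ne_zero) hQ0,
      Polynomial.natDegree_X_pow]
  omega

end Pool.Agent.TH183.QT
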