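import Pool.Agent.TH183.QT.Mult

set_option autoImplicit false

/-!
# Forms of large degree have arbitrary jets
-/

namespace Pool.Agent.TH183.QT

open MvPolynomial (monomial)

/-- The homogenized equation of the truncated germ. -/
noncomputable def trunc (c : ℕ → ℂ) (n : ℕ) : MvPolynomial (Fin 3) ℂ :=
  MvPolynomial.X 1 * MvPolynomial.X 2 ^ n -
    ∑ k ∈ Finset.range n, MvPolynomial.C (c k) *
      (MvPolynomial.X 0 ^ (k + 1) * MvPolynomial.X 2 ^ (n - k))

theorem trunc_homog (c : ℕ → ℂ) (n : ℕ) : (trunc c n).IsHomogeneous (n + 1) := by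
  unfold trunc
  refine MvPolynomial.IsHomogeneous.sub ?_ ?_
  · have h := (MvPolynomial.isHomogeneous_X ℂ (1 : Fin 3)).mul
      ((MvPolynomial.isHomogeneous_X ℂ (2 : Fin 3)).pow n)
    rwa [one_mul, add_comm] at h
  · refine MvPolynomial.IsHomogeneous.sum _ _ _ fun k hk => ?_
    rw [Finset.mem_range] at hk
    refine MvPolynomial.IsHomogeneous.C_mul ?_ _
    have h := ((MvPolynomial.isHomogeneous_X ℂ (0 : Fin 3)).pow (k + 1)).mul
      ((MvPolynomial.isHomogeneous_X ℂ (2 : Fin 3)).pow (n - k))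
    rw [one_mul, one_mul] at h
    have e : k + 1 + (n - k) = n + 1 := by omega
    rwa [e] at h

theorem expand_trunc (c : ℕ → ℂ) (n : ℕ) : ∃ R : PowerSeries ℂ,
    expand c (trunc c n) = Polynomial.X + Polynomial.C (PowerSeries.X ^ (n + 1) * R) := by
  have h1 : PowerSeries.X ^ (n + 1) ∣ (PowerSeries.X * PowerSeries.mk c -
      ∑ k ∈ Finset.range n, PowerSeries.C (c k) * PowerSeries.X ^ (k + 1) : PowerSeries ℂ) := by
    rw [PowerSeries.X_pow_dvd_iff]
    intro m hm
    rw [map_sub, map_sum]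
    rcases m with _ | m
    · rw [PowerSeries.coeff_zero_X_mul, Finset.sum_eq_zero, sub_zero]
      intro k _
      rw [PowerSeries.coeff_C_mul, PowerSeries.coeff_X_pow, if_neg (by omega), mul_zero]
    · rw [PowerSeries.coeff_succ_X_mul, PowerSeries.coeff_mk, Finset.sum_eq_single m]
      · rw [PowerSeries.coeff_C_mul, PowerSeries.coeff_X_pow, if_pos rfl, mul_one, sub_self]
      · intro k _ hk
        rw [PowerSeries.coeff_C_mul, PowerSeries.coeff_X_pow, if_neg (by omega), mul_zero]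
      · intro h
        rw [Finset.mem_range] at h
        omega
  obtain ⟨R, hR⟩ := h1
  refine ⟨R, ?_⟩
  rw [← hR]
  obtain ⟨φ, hφ⟩ : ∃ φ : MvPolynomial (Fin 3) ℂ →ₐ[ℂ] Polynomial (PowerSeries ℂ),
    φ = MvPolynomial.aeval
      (![Polynomial.C PowerSeries.X,
       Polynomial.C (PowerSeries.X * PowerSeries.mk c) + Polynomial.X,
       1] : Fin 3 → Polynomial (PowerSeries ℂ)) := ⟨_, rfl⟩
  have h0 : φ (MvPolynomial.X 0) = Polynomial.C PowerSeries.X := by
    rw [hφ, MvPolynomial.aeval_X]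
    rfl
  have h1' : φ (MvPolynomial.X 1) =
      Polynomial.C (PowerSeries.X * PowerSeries.mk c) + Polynomial.X := by
    rw [hφ, MvPolynomial.aeval_X]
    rfl
  have h2' : φ (MvPolynomial.X 2) = 1 := by
    rw [hφ, MvPolynomial.aeval_X]
    rfl
  have hC : ∀ a : ℂ, φ (MvPolynomial.C a) = Polynomial.C (PowerSeries.C a) := by
    intro a
    rw [hφ, MvPolynomial.aeval_C]
    rfl
  show MvPolynomial.aeval _ (trunc c n) = _
  rw [← hφ]
  unfold trunc
  rw [map_sub, map_mul, map_pow, map_sum, h1', h2', one_pow, mul_one]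
  have h2 : ∀ k, φ (MvPolynomial.C (c k) *
      (MvPolynomial.X 0 ^ (k + 1) * MvPolynomial.X 2 ^ (n - k))) =
      Polynomial.C (PowerSeries.C (c k) * PowerSeries.X ^ (k + 1)) := by
    intro k
    rw [map_mul, map_mul, map_pow, map_pow, h0, h2', hC, one_pow, mul_one,
      Polynomial.C_mul, Polynomial.C_pow]
  rw [Finset.sum_congr rfl fun k _ => h2 k, Polynomial.C_sub, map_sum]
  ring

/-- Forms of large degree with one prescribed monomial of small value. -/
theorem exists_jet (c : ℕ → ℂ) {t N : ℝ} (ht : 0 < t) (i j : ℕ) (n e : ℕ) (hn : N ≤ n)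
    (he : i + (n + 1) * j ≤ e) :
    ∃ A : MvPolynomial (Fin 3) ℂ, A.IsHomogeneous e ∧
      ∀ i' j' : ℕ, (i' : ℝ) + t * j' < N → co c A i' j' = if i' = i ∧ j' = j then 1 else 0 := by
  refine ⟨MvPolynomial.X 0 ^ i * trunc c n ^ j * MvPolynomial.X 2 ^ (e - (i + (n + 1) * j)),
    ?_, ?_⟩
  · have h := (((MvPolynomial.isHomogeneous_X ℂ (0 : Fin 3)).pow i).mul
      ((trunc_homog c n).pow j)).mul
      ((MvPolynomial.isHomogeneous_X ℂ (2 : Fin 3)).pow (e - (i + (n + 1) * j)))
    have e1 : 1 * i + (n + 1) * j + 1 * (e - (i + (n + 1) * j)) = e := by omega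
    rwa [e1] at h
  · intro i' j' h'
    obtain ⟨R, hR⟩ := expand_trunc c n
    have hin : i' < n + 1 := by
      have h1 : (0 : ℝ) ≤ t * j' := by positivity
      have h2 : (i' : ℝ) < n + 1 := by linarith
      exact_mod_cast h2
    have e2 : expand c (MvPolynomial.X 0 ^ i * trunc c n ^ j *
        MvPolynomial.X 2 ^ (e - (i + (n + 1) * j))) =
        Polynomial.C (PowerSeries.X ^ i) *
          (Polynomial.X + Polynomial.C (PowerSeries.X ^ (n + 1) * R)) ^ j := by
      rw [← hR]
      unfold expand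
      simp only [map_mul, map_pow, MvPolynomial.aeval_X, Matrix.cons_val_zero, Matrix.cons_val,
        one_pow, mul_one]
    unfold co
    rw [e2, Polynomial.coeff_C_mul, Polynomial.coeff_X_add_C_pow]
    rcases lt_trichotomy j' j with hj | hj | hj
    · rw [if_neg (by omega)]
      have h3 : (PowerSeries.X ^ (n + 1) : PowerSeries ℂ) ∣ PowerSeries.X ^ i *
          ((PowerSeries.X ^ (n + 1) * R) ^ (j - j') * ((j.choose j' : ℕ) : PowerSeries ℂ)) := by
        obtain ⟨l, hl⟩ : ∃ l, j - j' = l + 1 := ⟨j - j' - 1, by omega⟩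
        rw [hl, pow_succ]
        refine Dvd.intro_left (PowerSeries.X ^ i * ((PowerSeries.X ^ (n + 1) * R) ^ l * R *
          ((j.choose j' : ℕ) : PowerSeries ℂ))) ?_
        ring
      rw [PowerSeries.X_pow_dvd_iff] at h3
      exact h3 i' hin
    · rw [hj, Nat.sub_self, pow_zero, Nat.choose_self, Nat.cast_one, mul_one, mul_one,
        PowerSeries.coeff_X_pow]
      simp
    · rw [if_neg (by omega), Nat.choose_eq_zero_of_lt hj, Nat.cast_zero, mul_zero, mul_zero,
        map_zero]

end Pool.Agent.TH183.QT
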